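import Pool.Agent.Q257.MD.PEqui

/-!
The sets of polynomial values (at integers, at primes) are admissible.
-/

set_option autoImplicit false

namespace Q257.MD

open Finset Polynomial Filter Topology
open Pool.Agent.Helper602.MK (ee)
open Pool.Agent.Helper602.MK.N_J5b (ee_add ee_zero ee_conj norm_ee ee_int ee_nat_mul ee_eq_one_iff)
open Pool.Agent.H373R2.T7 (lam_ap)

/-- the set of positive primes, as a set of integers -/
def PrimeZ : Set ℤ := {x | ∃ l : ℕ, l.Prime ∧ (l : ℤ) = x}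

open Classical in
/-- primes in a class -/
noncomputable def PN (M : ℕ) (b : ℤ) (t0 N : ℕ) : Finset ℕ :=
  (Icc 1 N).filter fun n => n.Prime ∧ t0 < n ∧ (M : ℤ) ∣ (n : ℤ) - b

/-- the error term -/
noncomputable def Err (t0 N : ℕ) : ℝ := 2 * √(N : ℝ) * Real.log N + 6 * t0

theorem diff_le (M : ℕ) (b : ℤ) (t0 N : ℕ) (hN : 1 ≤ N) (E : ℕ → ℂ) (hE : ∀ n, ‖E n‖ ≤ 1) :
    ‖∑ n ∈ Icc 1 N, (if (M : ℤ) ∣ (n : ℤ) - b then
        ((ArithmeticFunction.vonMangoldt n : ℝ) : ℂ) * E n else 0) -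
      ∑ n ∈ PN M b t0 N, ((Real.log n : ℝ) : ℂ) * E n‖ ≤ Err t0 N := by
  classical
  unfold PN
  rw [sum_filter, ← sum_sub_distrib]
  refine (norm_sum_le _ _).trans ?_
  have h1 : ∀ n ∈ Icc 1 N, ‖(if (M : ℤ) ∣ (n : ℤ) - b then
        ((ArithmeticFunction.vonMangoldt n : ℝ) : ℂ) * E n else 0) -
      (if n.Prime ∧ t0 < n ∧ (M : ℤ) ∣ (n : ℤ) - b then ((Real.log n : ℝ) : ℂ) * E n else 0)‖ ≤
      (if ¬ n.Prime then ArithmeticFunction.vonMangoldt n else 0) +
      (if n ≤ t0 then ArithmeticFunction.vonMangoldt n else 0) := by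
    intro n _
    have hL0 : 0 ≤ ArithmeticFunction.vonMangoldt n := ArithmeticFunction.vonMangoldt_nonneg
    have hLE : ‖((ArithmeticFunction.vonMangoldt n : ℝ) : ℂ) * E n‖ ≤
        ArithmeticFunction.vonMangoldt n := by
      rw [norm_mul, Complex.norm_real, Real.norm_of_nonneg hL0]
      exact mul_le_of_le_one_right hL0 (hE n)
    have hr1 : 0 ≤ (if ¬ n.Prime then ArithmeticFunction.vonMangoldt n else 0) := by
      split_ifs <;> simp [hL0]
    have hr2 : 0 ≤ (if n ≤ t0 then ArithmeticFunction.vonMangoldt n else 0) := by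
      split_ifs <;> simp [hL0]
    by_cases hM : (M : ℤ) ∣ (n : ℤ) - b
    · rw [if_pos hM]
      by_cases hp : n.Prime
      · by_cases ht : t0 < n
        · rw [if_pos ⟨hp, ht, hM⟩, ArithmeticFunction.vonMangoldt_apply_prime hp, sub_self, norm_zero]
          positivity
        · rw [if_neg (fun h => ht h.2.1), sub_zero, if_pos (not_lt.1 ht)]
          linarith
      · rw [if_neg (fun h => hp h.1), sub_zero, if_pos hp]
        linarith
    · rw [if_neg hM, if_neg (fun h => hM h.2.2), sub_zero, norm_zero]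
      positivity
  refine (sum_le_sum h1).trans ?_
  rw [sum_add_distrib]
  unfold Err
  refine add_le_add ?_ ?_
  · rw [← sum_filter]
    have h2 := Chebyshev.psi_sub_theta_eq_sum_not_prime (N : ℝ)
    rw [Nat.floor_natCast] at h2
    have h3 : Icc 1 N = Ioc 0 N := by ext; simp [Nat.succ_le_iff]
    rw [h3, ← h2]
    exact Chebyshev.psi_sub_theta_le (by exact_mod_cast hN)
  · rw [← sum_filter]
    refine le_trans (sum_le_sum_of_subset_of_nonneg (t := Icc 1 t0) ?_ fun _ _ _ =>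
      ArithmeticFunction.vonMangoldt_nonneg) (lam_le t0)
    intro n hn
    rw [mem_filter, mem_Icc] at hn
    exact mem_Icc.2 ⟨hn.1.1, hn.2⟩

theorem Err_zero (t0 : ℕ) : Tendsto (fun N : ℕ => Err t0 N / N) atTop (𝓝 0) := by
  have h1 : Tendsto (fun x : ℝ => Real.log x / x ^ (1 / 2 : ℝ)) atTop (𝓝 0) := by
    have := isLittleO_log_rpow_atTop (r := 1 / 2) (by norm_num)
    exact this.tendsto_div_nhds_zero
  have h2 : Tendsto (fun x : ℝ => 6 * (t0 : ℝ) / x) atTop (𝓝 0) :=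
    tendsto_const_nhds.div_atTop tendsto_id
  have h3 : Tendsto (fun x : ℝ => 2 * (Real.log x / x ^ (1 / 2 : ℝ)) + 6 * (t0 : ℝ) / x) atTop (𝓝 0) := by
    have := (h1.const_mul 2).add h2
    simpa using this
  refine (h3.comp (tendsto_natCast_atTop_atTop (R := ℝ))).congr' ?_
  filter_upwards [eventually_ge_atTop 1] with N hN
  have hNr : (0 : ℝ) < N := by exact_mod_cast hN
  simp only [Function.comp]
  unfold Err
  rw [← Real.sqrt_eq_rpow]
  have hs : √(N : ℝ) * √(N : ℝ) = N := Real.mul_self_sqrt hNr.le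
  have hs0 : 0 < √(N : ℝ) := Real.sqrt_pos.2 hNr
  rw [add_div]
  congr 1
  rw [eq_div_iff hNr.ne']
  calc 2 * (Real.log N / √(N : ℝ)) * N = 2 * (Real.log N / √(N : ℝ)) * (√(N : ℝ) * √(N : ℝ)) := by
        rw [hs]
    _ = 2 * √(N : ℝ) * Real.log N := by field_simp

theorem W_lower (M : ℕ) (hM : 0 < M) (b : ℕ) (hb : b.Coprime M) (t0 : ℕ) :
    ∃ c : ℝ, 0 < c ∧ ∃ N0 : ℕ, ∀ N : ℕ, N0 ≤ N → c * N ≤ ∑ n ∈ PN M b t0 N, Real.log n := by
  classical
  obtain ⟨N1, h1⟩ := lam_ap 1 1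
  obtain ⟨N2, h2⟩ := ev_log_ge (max M (4 * (Nat.totient M : ℝ)))
  have hφ : (0 : ℝ) < Nat.totient M := by exact_mod_cast Nat.totient_pos.2 hM
  have h3 := (Err_zero t0).eventually (gt_mem_nhds (show (0 : ℝ) < 1 / (4 * Nat.totient M) by positivity))
  rw [eventually_atTop] at h3
  obtain ⟨N3, h3⟩ := h3
  refine ⟨1 / (2 * Nat.totient M), by positivity, max (max N1 N2) (max N3 3), fun N hN => ?_⟩
  have hN1 := le_trans (le_trans (le_max_left _ _) (le_max_left _ _)) hN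
  have hN2 := h2 N (le_trans (le_trans (le_max_right _ _) (le_max_left _ _)) hN)
  have hN3 := h3 N (le_trans (le_trans (le_max_left _ _) (le_max_right _ _)) hN)
  have hN4 : 3 ≤ N := le_trans (le_trans (le_max_right _ _) (le_max_right _ _)) hN
  have hNr : (0 : ℝ) < N := by
    have : 0 < N := by omega
    exact_mod_cast this
  set L := Real.log N with hL
  have hML : (M : ℝ) ≤ L := (le_max_left _ _).trans hN2
  have hφL : 4 * (Nat.totient M : ℝ) ≤ L := (le_max_right _ _).trans hN2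
  have hL0 : 0 < L := by linarith
  have h4 := h1 N hN1 M hM (by rw [pow_one]; exact hML) b N le_rfl
  rw [if_pos hb, pow_one] at h4
  have h5 := diff_le M b t0 N (by omega) (fun _ => 1) (fun _ => by simp)
  have e1 : ∑ n ∈ Icc 1 N, (if (M : ℤ) ∣ (n : ℤ) - (b : ℤ) then
        ((ArithmeticFunction.vonMangoldt n : ℝ) : ℂ) * 1 else 0) =
      ((∑ n ∈ (Icc 1 N).filter (fun n => n ≡ b [MOD M]), ArithmeticFunction.vonMangoldt n : ℝ) : ℂ) := by
    rw [sum_filter]
    push_cast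
    refine sum_congr rfl fun n _ => ?_
    have : ((M : ℤ) ∣ (n : ℤ) - (b : ℤ)) ↔ n ≡ b [MOD M] := by
      rw [← Nat.modEq_iff_dvd, Nat.ModEq.comm]
    by_cases h : n ≡ b [MOD M]
    · rw [if_pos h, if_pos (this.2 h), mul_one]
    · rw [if_neg h, if_neg (fun h' => h (this.1 h')), Complex.ofReal_zero]
  have e2 : ∑ n ∈ PN M b t0 N, ((Real.log n : ℝ) : ℂ) * 1 =
      ((∑ n ∈ PN M b t0 N, Real.log n : ℝ) : ℂ) := by
    push_cast; simp
  rw [e1, e2, ← Complex.ofReal_sub, Complex.norm_real, Real.norm_eq_abs] at h5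
  have h6 := abs_le.1 h4
  have h7 := abs_le.1 h5
  rw [div_lt_iff₀ hNr] at hN3
  have h8 : (N : ℝ) / L ≤ 1 / (4 * Nat.totient M) * N := by
    rw [div_le_iff₀ hL0]
    calc (N : ℝ) = 1 / (4 * Nat.totient M) * N * (4 * Nat.totient M) := by field_simp
      _ ≤ 1 / (4 * Nat.totient M) * N * L := by gcongr
  have h9 : 1 / (2 * (Nat.totient M : ℝ)) * N = N / (Nat.totient M) - 1 / (4 * Nat.totient M) * N -
      1 / (4 * Nat.totient M) * N := by field_simp; ring
  rw [h9]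
  linarith [h6.1, h7.1, h6.2, h7.2]

theorem trig_eq (S : Finset ℕ) (w : ℕ → ℝ) (W : ℝ) (p : ℤ[X]) (x : ℝ) :
    trig (S.image (fun n : ℕ => (n : ℤ))) (fun t => w t.toNat / W) (fun t => p.eval t) x =
      (1 / (W : ℂ)) * ∑ n ∈ S, ((w n : ℝ) : ℂ) * ee (x / (2 * Real.pi) * ((p.eval (n : ℤ) : ℤ) : ℝ)) := by
  unfold trig
  rw [sum_image fun a _ b _ h => by exact_mod_cast h, mul_sum]
  refine sum_congr rfl fun n _ => ?_
  have e : ee (x / (2 * Real.pi) * ((p.eval (n : ℤ) : ℤ) : ℝ)) =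
      Complex.exp (((p.eval (n : ℤ) : ℤ) * x : ℝ) * Complex.I) := by
    unfold ee
    congr 1
    push_cast
    have hpi : (Real.pi : ℂ) ≠ 0 := Complex.ofReal_ne_zero.2 Real.pi_ne_zero
    field_simp
  rw [e]
  simp only [Int.toNat_natCast]
  push_cast
  ring

theorem roots_bdd (p : ℤ[X]) (hp : p ≠ 0) : ∃ t0 : ℕ, ∀ n : ℕ, t0 < n → p.eval (n : ℤ) ≠ 0 := by
  have hfin : {x : ℤ | p.IsRoot x}.Finite := by
    have := p.roots.toFinset.finite_toSet
    refine this.subset fun x hx => ?_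
    simp [hp]
    exact hx
  have hfin2 : {n : ℕ | p.IsRoot (n : ℤ)}.Finite :=
    hfin.preimage (f := fun n : ℕ => (n : ℤ)) (fun a _ b _ h => by
      have h' : (a : ℤ) = b := h
      exact_mod_cast h')
  obtain ⟨B, hB⟩ := hfin2.bddAbove
  refine ⟨B, fun n hn h => ?_⟩
  have := hB (show n ∈ {n : ℕ | p.IsRoot (n : ℤ)} from h)
  omega

theorem equi_prime (p : ℤ[X]) (hp : 1 ≤ p.natDegree) (M : ℕ) (hM : 0 < M) (b : ℕ)
    (hb : b.Coprime M) : EquiAP PrimeZ (fun t => p.eval t) M b := by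
  classical
  have hp0 : p ≠ 0 := by rintro rfl; simp at hp
  obtain ⟨t0, ht0⟩ := roots_bdd p hp0
  obtain ⟨c, hc, N0, hW⟩ := W_lower M hM b hb t0
  set W : ℕ → ℝ := fun j => ∑ n ∈ PN M b t0 (N0 + 1 + j), Real.log n with hWd
  have hWc : ∀ j, c * ((N0 + 1 + j : ℕ) : ℝ) ≤ W j := fun j => hW _ (by omega)
  have hWpos : ∀ j, 0 < W j := fun j => by
    refine lt_of_lt_of_le ?_ (hWc j)
    have : (0 : ℝ) < ((N0 + 1 + j : ℕ) : ℝ) := by exact_mod_cast (by omega : 0 < N0 + 1 + j)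
    positivity
  refine ⟨fun j => (PN M b t0 (N0 + 1 + j)).image (fun n : ℕ => (n : ℤ)),
    fun j t => Real.log ((t.toNat : ℕ) : ℝ) / W j, fun j t _ => ?_, fun j => ?_, fun j t ht => ?_,
    fun x hx => ?_⟩
  · exact div_nonneg (Real.log_natCast_nonneg _) (hWpos j).le
  · rw [sum_image fun a _ b _ h => by exact_mod_cast h]
    simp only [Int.toNat_natCast]
    rw [← sum_div, div_self (hWpos j).ne']
  · obtain ⟨n, hn, rfl⟩ := Finset.mem_image.1 ht
    rw [PN, mem_filter] at hn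
    exact ⟨⟨n, hn.2.1, rfl⟩, ht0 n hn.2.2.1, hn.2.2.2⟩
  · have hirr := irr_of_notMem_Rt hx
    have hz := lam_zero p hp M hM b _ hirr
    have hz2 := (hz.add (Err_zero t0)).div_const c
    rw [add_zero, zero_div] at hz2
    have hsh : Tendsto (fun j : ℕ => N0 + 1 + j) atTop atTop := 
      tendsto_atTop_mono (fun j => by simp only [id]; omega) tendsto_id
    have hz3 := hz2.comp hsh
    rw [tendsto_zero_iff_norm_tendsto_zero]
    refine squeeze_zero (fun j => norm_nonneg _) (fun j => ?_) hz3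
    set N : ℕ := N0 + 1 + j with hN
    have hN1 : 1 ≤ N := by omega
    have hNr : (0 : ℝ) < N := by exact_mod_cast hN1
    rw [trig_eq (PN M b t0 N) (fun n => Real.log n) (W j) p x, norm_mul]
    have e1 : ‖(1 / (W j : ℂ))‖ = 1 / W j := by
      rw [norm_div, norm_one, Complex.norm_real, Real.norm_of_nonneg (hWpos j).le]
    rw [e1]
    have hd := diff_le M b t0 N hN1 (fun n => ee (x / (2 * Real.pi) * ((p.eval (n : ℤ) : ℤ) : ℝ)))
      (fun n => by rw [norm_ee])
    have hFF : ∑ n ∈ Icc 1 N, FF p M b (x / (2 * Real.pi)) n = ∑ n ∈ Icc 1 N,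
        (if (M : ℤ) ∣ (n : ℤ) - (b : ℤ) then ((ArithmeticFunction.vonMangoldt n : ℝ) : ℂ) *
          ee (x / (2 * Real.pi) * ((p.eval (n : ℤ) : ℤ) : ℝ)) else 0) := rfl
    rw [← hFF] at hd
    set S1 := ∑ n ∈ Icc 1 N, FF p M b (x / (2 * Real.pi)) n
    set S2 := ∑ n ∈ PN M b t0 N, ((Real.log n : ℝ) : ℂ) *
      ee (x / (2 * Real.pi) * ((p.eval (n : ℤ) : ℤ) : ℝ))
    have h2 : ‖S2‖ ≤ ‖S1‖ + Err t0 N := by
      have : S2 = S1 - (S1 - S2) := by ring
      rw [this]
      exact (norm_sub_le _ _).trans (by linarith)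
    have hnn : 0 ≤ ‖S1‖ + Err t0 N := (norm_nonneg _).trans h2
    show 1 / W j * ‖S2‖ ≤ (‖S1‖ / N + Err t0 N / N) / c
    calc 1 / W j * ‖S2‖ ≤ 1 / (c * N) * (‖S1‖ + Err t0 N) := by
          gcongr
          exact hWc j
      _ = _ := by field_simp

theorem adm_univ (p : ℤ[X]) : Adm Set.univ (fun t => p.eval t) := by
  intro m hm
  rcases Nat.eq_zero_or_pos p.natDegree with h0 | hpos
  · refine ⟨(p.coeff 0).natAbs, fun t _ _ => Or.inl ?_⟩
    have h1 : p = C (p.coeff 0) := eq_C_of_natDegree_eq_zero h0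
    have h2 : p.eval t = p.coeff 0 := by
      conv_lhs => rw [h1]
      rw [eval_C]
    simp only [h2]
    exact (Int.natCast_natAbs _).ge
  · exact ⟨0, fun t _ _ => Or.inr fun M hM _ => ⟨t, by simp, equi_univ p hpos M hM t⟩⟩

theorem adm_prime (p : ℤ[X]) : Adm PrimeZ (fun t => p.eval t) := by
  intro m hm
  rcases Nat.eq_zero_or_pos p.natDegree with h0 | hpos
  · refine ⟨(p.coeff 0).natAbs, fun t _ _ => Or.inl ?_⟩
    have h1 : p = C (p.coeff 0) := eq_C_of_natDegree_eq_zero h0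
    have h2 : p.eval t = p.coeff 0 := by
      conv_lhs => rw [h1]
      rw [eval_C]
    simp only [h2]
    exact (Int.natCast_natAbs _).ge
  · refine ⟨∑ k ∈ range (m + 1), (p.eval (k : ℤ)).natAbs, ?_⟩
    rintro t ⟨l, hl, rfl⟩ _
    by_cases hlm : l ∣ m
    · left
      have h1 : l ∈ range (m + 1) := mem_range.2 (by have := Nat.le_of_dvd hm hlm; omega)
      have h2 : (p.eval (l : ℤ)).natAbs ≤ ∑ k ∈ range (m + 1), (p.eval (k : ℤ)).natAbs :=
        single_le_sum (f := fun k : ℕ => (p.eval (k : ℤ)).natAbs) (fun _ _ => Nat.zero_le _) h1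
      show |p.eval (l : ℤ)| ≤ _
      rw [← Int.natCast_natAbs]
      exact_mod_cast h2
    · right
      intro M hM hmM
      have hcop : Nat.Coprime l m := (Nat.Prime.coprime_iff_not_dvd hl).2 hlm
      have : NeZero M := ⟨hM.ne'⟩
      have : NeZero m := ⟨hm.ne'⟩
      obtain ⟨w, hw⟩ := ZMod.unitsMap_surjective hmM (ZMod.unitOfCoprime l hcop)
      refine ⟨((w : ZMod M).val : ℤ), ?_, equi_prime p hpos M hM _ (ZMod.val_coe_unit_coprime w)⟩
      have h1 : ((w : ZMod M).cast : ZMod m) = (l : ZMod m) := by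
        have := congrArg Units.val hw
        rw [ZMod.unitsMap_val, ZMod.coe_unitOfCoprime] at this
        exact this
      have h2 : (((w : ZMod M).val : ℕ) : ZMod m) = (l : ZMod m) := by
        rw [← h1, ZMod.natCast_val]
      have h3 : ((((w : ZMod M).val : ℤ) - l : ℤ) : ZMod m) = 0 := by
        push_cast
        rw [sub_eq_zero]
        exact h2
      exact (ZMod.intCast_zmod_eq_zero_iff_dvd _ _).1 h3

end Q257.MD
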