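import Pool.Agent.Q257.MD.Spec

/-!
Ergodic means: class densities, energies, rational part of the spectral measure.
-/

set_option autoImplicit false

namespace Q257.MD

open Filter Topology BoundedContinuousFunction MeasureTheory Finset

/-- ergodic means -/
structure IsErg (L : B → ℝ) : Prop where
  mean : IsMean L
  erg : ∀ f g : B, Tendsto (fun N : ℕ => L (g * AV N f)) atTop (𝓝 (L f * L g))

theorem class_limit {L : B → ℝ} (h : IsErg L) (q : ℕ) (hq : 0 < q) (f : B) :
    Tendsto (fun N : ℕ => L (f * AQ q N f)) atTop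
      (𝓝 (∑ s ∈ range q, (q : ℝ) * (L (cls q s * f)) ^ 2)) := by
  have h1 : Tendsto (fun N : ℕ => ∑ s ∈ range q,
      (q : ℝ) * L ((cls q s * f) * AV (q * N) (cls q s * f))) atTop
      (𝓝 (∑ s ∈ range q, (q : ℝ) * (L (cls q s * f)) ^ 2)) := by
    refine tendsto_finsetSum _ fun s _ => Tendsto.const_mul _ ?_
    have h2 := h.erg (cls q s * f) (cls q s * f)
    rw [sq]
    refine h2.comp ?_
    exact tendsto_atTop_mono (fun N => Nat.le_mul_of_pos_left N hq) tendsto_id
  refine h1.congr' ?_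
  filter_upwards [eventually_gt_atTop 0] with N hN
  rw [class_decomp q hq N hN, h.mean.isState.sum]
  refine Finset.sum_congr rfl fun s _ => ?_
  rw [h.mean.smul]

theorem L_AQ {L : B → ℝ} (h : IsMean L) (q N : ℕ) (f : B) :
    L (f * AQ q N f) = (1 / (N : ℝ)) * ∑ n ∈ range N, cor L f (q * n) := by
  unfold AQ cor
  rw [mul_smul_comm, h.smul, Finset.mul_sum, h.isState.sum]

/-- cesaro averages of cosines -/
theorem cos_avg_zero (y : ℝ) (hy : ¬ ∃ k : ℤ, y = 2 * Real.pi * k) :
    Tendsto (fun N : ℕ => (1 / (N : ℝ)) * ∑ n ∈ range N, Real.cos (n * y)) atTop (𝓝 0) := by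
  set z : ℂ := Complex.exp (y * Complex.I) with hz
  have hz1 : z ≠ 1 := by
    intro h
    rw [hz, Complex.exp_eq_one_iff] at h
    obtain ⟨k, hk⟩ := h
    apply hy
    refine ⟨k, ?_⟩
    have h2 : (y : ℂ) = ((2 * Real.pi * k : ℝ) : ℂ) := by
      have hI : Complex.I ≠ 0 := Complex.I_ne_zero
      apply mul_right_cancel₀ hI
      rw [hk]; push_cast; ring
    exact_mod_cast h2
  have hzn : ‖z‖ = 1 := by rw [hz, Complex.norm_exp_ofReal_mul_I]
  have hb : ∀ N : ℕ, |∑ n ∈ range N, Real.cos (n * y)| ≤ 2 / ‖z - 1‖ := by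
    intro N
    have h1 : ∑ n ∈ range N, Real.cos (n * y) = (∑ n ∈ range N, z ^ n).re := by
      rw [Complex.re_sum]
      refine Finset.sum_congr rfl fun n _ => ?_
      rw [hz, ← Complex.exp_nat_mul]
      have : (n : ℂ) * (y * Complex.I) = ((n * y : ℝ) : ℂ) * Complex.I := by push_cast; ring
      rw [this, Complex.exp_ofReal_mul_I_re]
    rw [h1, geom_sum_eq hz1]
    refine (Complex.abs_re_le_norm _).trans ?_
    rw [norm_div]
    gcongr
    calc ‖z ^ N - 1‖ ≤ ‖z ^ N‖ + ‖(1 : ℂ)‖ := norm_sub_le _ _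
      _ = 2 := by rw [norm_pow, hzn]; norm_num
  refine squeeze_zero_norm (a := fun N : ℕ => (2 / ‖z - 1‖) / N) (fun N => ?_)
    (tendsto_const_div_atTop_nhds_zero_nat _)
  rw [norm_mul, Real.norm_eq_abs, Real.norm_eq_abs, abs_of_nonneg (by positivity)]
  rw [one_div, inv_mul_eq_div]
  gcongr
  exact hb N

theorem cos_avg_one (y : ℝ) (hy : ∃ k : ℤ, y = 2 * Real.pi * k) :
    Tendsto (fun N : ℕ => (1 / (N : ℝ)) * ∑ n ∈ range N, Real.cos (n * y)) atTop (𝓝 1) := by
  obtain ⟨k, rfl⟩ := hy
  have h1 : ∀ n : ℕ, Real.cos (n * (2 * Real.pi * k)) = 1 := by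
    intro n
    have : (n : ℝ) * (2 * Real.pi * k) = ((n * k : ℤ) : ℝ) * (2 * Real.pi) := by push_cast; ring
    rw [this, Real.cos_int_mul_two_pi]
  refine tendsto_const_nhds.congr' ?_
  filter_upwards [eventually_gt_atTop 0] with N hN
  simp only [h1, Finset.sum_const, card_range, nsmul_eq_mul, mul_one]
  have : (N : ℝ) ≠ 0 := by positivity
  field_simp

/-- frequencies of denominator `q` -/
def At (q : ℕ) : Set ℝ := {x | ∃ k : ℤ, q * x = 2 * Real.pi * k}

theorem isClosed_At (q : ℕ) : IsClosed (At q) := by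
  have : At q = (fun x : ℝ => q * x) ⁻¹' (Set.range fun k : ℤ => 2 * Real.pi * k) := by
    ext x
    simp only [At, Set.mem_preimage, Set.mem_range]
    constructor
    · rintro ⟨k, hk⟩; exact ⟨k, hk.symm⟩
    · rintro ⟨k, hk⟩; exact ⟨k, hk.symm⟩
  rw [this]
  refine IsClosed.preimage (by fun_prop) ?_
  have h2 : (Set.range fun k : ℤ => 2 * Real.pi * k) = Set.range fun k : ℤ => k • (2 * Real.pi) := by
    ext y; simp [mul_comm]
  rw [h2]
  exact (AddSubgroup.isClosed_of_discrete (H := AddSubgroup.zmultiples (2 * Real.pi)))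

theorem spec_At {L : B → ℝ} (h : IsErg L) (f : B) (σ : Measure ℝ) [IsFiniteMeasure σ]
    (hσ : ∀ k : ℤ, cor L f k = ∫ x, Real.cos (k * x) ∂σ) (q : ℕ) (hq : 0 < q) :
    σ.real (At q) = ∑ s ∈ range q, (q : ℝ) * (L (cls q s * f)) ^ 2 := by
  have h1 := class_limit h q hq f
  have hmeas : MeasurableSet (At q) := (isClosed_At q).measurableSet
  have h2 : Tendsto (fun N : ℕ => L (f * AQ q N f)) atTop (𝓝 (σ.real (At q))) := by
    have h3 : ∀ N : ℕ, L (f * AQ q N f) =
        ∫ x, (1 / (N : ℝ)) * ∑ n ∈ range N, Real.cos (n * (q * x)) ∂σ := by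
      intro N
      rw [L_AQ h.mean, integral_const_mul, integral_finsetSum]
      · congr 1
        refine Finset.sum_congr rfl fun n _ => ?_
        rw [hσ]
        refine integral_congr_ae (Eventually.of_forall fun x => ?_)
        simp only
        congr 1; push_cast; ring
      · intro n _
        refine Integrable.of_bound (C := 1) (by fun_prop) (Eventually.of_forall fun x => ?_)
        exact Real.abs_cos_le_one _
    simp only [h3]
    have h4 : σ.real (At q) = ∫ x, (At q).indicator (fun _ => (1 : ℝ)) x ∂σ := by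
      rw [integral_indicator hmeas, setIntegral_const, smul_eq_mul, mul_one]
    rw [h4]
    refine tendsto_integral_of_dominated_convergence (fun _ => 1) ?_ (integrable_const 1) ?_ ?_
    · intro N
      exact (by fun_prop : Continuous fun x : ℝ =>
        (1 / (N : ℝ)) * ∑ n ∈ range N, Real.cos (n * (q * x))).aestronglyMeasurable
    · intro N
      refine Eventually.of_forall fun x => ?_
      rcases Nat.eq_zero_or_pos N with hN | hN
      · subst hN; simp
      · rw [norm_mul, Real.norm_eq_abs, Real.norm_eq_abs, abs_of_nonneg (by positivity)]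
        have hN' : (0 : ℝ) < N := by exact_mod_cast hN
        rw [one_div, inv_mul_le_iff₀ hN']
        refine (Finset.abs_sum_le_sum_abs _ _).trans ?_
        refine (Finset.sum_le_card_nsmul _ _ 1 fun n _ => Real.abs_cos_le_one _).trans ?_
        simp
    · refine Eventually.of_forall fun x => ?_
      by_cases hx : x ∈ At q
      · rw [Set.indicator_of_mem hx]; exact cos_avg_one _ hx
      · rw [Set.indicator_of_notMem hx]; exact cos_avg_zero _ hx
  exact tendsto_nhds_unique h2 h1

/-- periodic functions -/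
def Per (q : ℕ) (g : B) : Prop := ∀ x, g (x + q) = g x

theorem Per.add_mul {q : ℕ} {g : B} (h : Per q g) (x : ℤ) (k : ℕ) : g (x + q * k) = g x := by
  induction k with
  | zero => simp
  | succ k ih =>
    rw [← ih, ← h (x + q * k)]
    congr 1; push_cast; ring

theorem Per.of_dvd_sub {q : ℕ} {g : B} (h : Per q g) {x y : ℤ} (hd : (q : ℤ) ∣ x - y) :
    g x = g y := by
  obtain ⟨k, hk⟩ := hd
  obtain ⟨n, rfl | rfl⟩ := k.eq_nat_or_neg
  · have : x = y + q * n := by linarith
    rw [this, h.add_mul]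
  · have : y = x + q * n := by linarith
    rw [this, h.add_mul]

theorem Per.mono {q Q : ℕ} {g : B} (h : Per q g) (hd : q ∣ Q) : Per Q g := by
  obtain ⟨k, rfl⟩ := hd
  intro x
  have := h.add_mul x k
  push_cast
  exact this

theorem cls_congr (q : ℕ) {s t : ℤ} (h : (q : ℤ) ∣ s - t) : cls q s = cls q t := by
  ext x
  simp only [cls_apply]
  have : ((q : ℤ) ∣ x - s) ↔ ((q : ℤ) ∣ x - t) := by
    rw [show x - t = (x - s) + (s - t) by ring]
    exact (Int.dvd_add_left h).symm
  simp only [this]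

theorem per_cls (q : ℕ) (s : ℤ) : Per q (cls q s) := by
  intro x
  simp only [cls_apply]
  have : ((q : ℤ) ∣ x + q - s) ↔ ((q : ℤ) ∣ x - s) := by
    rw [show x + q - s = (x - s) + q by ring]
    exact Int.dvd_add_left (dvd_refl _)
  simp only [this]

theorem per_decomp (q : ℕ) (hq : 0 < q) {g : B} (hg : Per q g) :
    g = ∑ s ∈ range q, g s • cls q s := by
  ext x
  rw [BoundedContinuousFunction.sum_apply]
  have hqi : (0 : ℤ) < q := by exact_mod_cast hq
  set s0 : ℕ := (x % q).toNat with hs0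
  have hs0' : (s0 : ℤ) = x % q := Int.toNat_of_nonneg (Int.emod_nonneg _ hqi.ne')
  have hs0lt : s0 < q := by
    have := Int.emod_lt_of_pos x hqi
    omega
  have hd : (q : ℤ) ∣ x - s0 := by rw [hs0']; exact Int.dvd_self_sub_emod
  rw [Finset.sum_eq_single s0]
  · simp only [BoundedContinuousFunction.coe_smul, smul_eq_mul, cls_apply]
    rw [if_pos hd, mul_one]
    exact hg.of_dvd_sub hd
  · intro b hb hbs
    simp only [BoundedContinuousFunction.coe_smul, smul_eq_mul, cls_apply]
    rw [if_neg, mul_zero]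
    intro hd
    apply hbs
    have h1 : (b : ℤ) % q = x % q := Int.modEq_iff_dvd.2 hd
    have h2 : (b : ℤ) % q = b := Int.emod_eq_of_lt (by positivity)
      (by exact_mod_cast mem_range.1 hb)
    omega
  · intro h; exact absurd (mem_range.2 hs0lt) h

theorem L_cls {L : B → ℝ} (h : IsMean L) (q : ℕ) (hq : 0 < q) (s : ℤ) :
    L (cls q s) = 1 / q := by
  have h0 : ∀ s : ℤ, L (cls q s) = L (cls q 0) := by
    intro s
    rw [← h.inv_int s (cls q s)]
    congr 1
    ext x; simp
  have h1 : (1 : B) = ∑ s ∈ range q, cls q s := by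
    have := per_decomp q hq (g := 1) (fun x => rfl)
    simpa using this
  have h2 : (1 : ℝ) = q * L (cls q 0) := by
    have h3 := h.one
    rw [h1, h.isState.sum] at h3
    simp only [h0] at h3
    rw [Finset.sum_const, card_range, nsmul_eq_mul] at h3
    exact h3.symm
  rw [h0 s]
  have : (q : ℝ) ≠ 0 := by positivity
  field_simp
  linarith

/-- class densities -/
noncomputable def pp (L : B → ℝ) (h : IsMean L) (q : ℕ) (f : B) : B :=
  mkB (fun x => q * L (cls q x * f)) (q * ‖f‖) (fun x => by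
    rw [abs_mul, abs_of_nonneg (Nat.cast_nonneg q)]
    gcongr
    refine h.isState.abs_le fun y => ?_
    simp only [BoundedContinuousFunction.coe_mul, Pi.mul_apply, cls_apply]
    split_ifs
    · rw [one_mul]; exact f.norm_coe_le_norm y
    · rw [zero_mul, abs_zero]; exact norm_nonneg _)

section pp

variable {L : B → ℝ} (h : IsMean L)

theorem pp_apply (q : ℕ) (f : B) (x : ℤ) : pp L h q f x = q * L (cls q x * f) := rfl

theorem per_pp (q : ℕ) (f : B) : Per q (pp L h q f) := by
  intro x
  rw [pp_apply, pp_apply, cls_congr q (s := x + q) (t := x) (by simp)]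

theorem L_per_mul (q : ℕ) (hq : 0 < q) {g : B} (hg : Per q g) (f : B) :
    L (g * pp L h q f) = L (g * f) := by
  have h1 : ∀ u : B, L (g * u) = ∑ s ∈ range q, g s * L (cls q s * u) := by
    intro u
    conv_lhs => rw [per_decomp q hq hg]
    rw [Finset.sum_mul, h.isState.sum]
    refine Finset.sum_congr rfl fun s _ => ?_
    rw [smul_mul_assoc, h.smul]
  rw [h1, h1]
  refine Finset.sum_congr rfl fun s _ => ?_
  congr 1
  have h2 : cls q s * pp L h q f = (pp L h q f s) • cls q s := by
    ext x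
    simp only [BoundedContinuousFunction.coe_mul, Pi.mul_apply, BoundedContinuousFunction.coe_smul,
      smul_eq_mul, cls_apply]
    split_ifs with hd
    · rw [one_mul, mul_one, (per_pp h q f).of_dvd_sub hd]
    · rw [zero_mul, mul_zero]
  rw [h2, h.smul, L_cls h q hq, pp_apply]
  have : (q : ℝ) ≠ 0 := by positivity
  field_simp

theorem pp_sub (q : ℕ) (f g : B) : pp L h q (f - g) = pp L h q f - pp L h q g := by
  ext x
  simp only [BoundedContinuousFunction.coe_sub, Pi.sub_apply, pp_apply]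
  rw [mul_sub, h.isState.sub]; ring

theorem pp_of_per (q : ℕ) (hq : 0 < q) {g : B} (hg : Per q g) : pp L h q g = g := by
  ext x
  rw [pp_apply]
  have h2 : cls q x * g = (g x) • cls q x := by
    ext y
    simp only [BoundedContinuousFunction.coe_mul, Pi.mul_apply, BoundedContinuousFunction.coe_smul,
      smul_eq_mul, cls_apply]
    split_ifs with hd
    · rw [one_mul, mul_one, hg.of_dvd_sub hd]
    · rw [zero_mul, mul_zero]
  rw [h2, h.smul, L_cls h q hq]
  have : (q : ℝ) ≠ 0 := by positivity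
  field_simp

theorem pp_pp (q Q : ℕ) (hQ : 0 < Q) (hd : q ∣ Q) (f : B) :
    pp L h q (pp L h Q f) = pp L h q f := by
  ext x
  rw [pp_apply, pp_apply, L_per_mul h Q hQ ((per_cls q x).mono hd)]

/-- energy -/
noncomputable def EN (q : ℕ) (f : B) : ℝ := L (pp L h q f * pp L h q f)

theorem EN_eq (q : ℕ) (hq : 0 < q) (f : B) :
    EN h q f = ∑ s ∈ range q, (q : ℝ) * (L (cls q s * f)) ^ 2 := by
  unfold EN
  rw [L_per_mul h q hq (per_pp h q f)]
  conv_lhs => rw [per_decomp q hq (per_pp h q f)]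
  rw [Finset.sum_mul, h.isState.sum]
  refine Finset.sum_congr rfl fun s _ => ?_
  rw [smul_mul_assoc, h.smul, pp_apply]
  ring

theorem EN_cross (q Q : ℕ) (hq : 0 < q) (hQ : 0 < Q) (hd : q ∣ Q) (f : B) :
    L (pp L h Q f * pp L h q f) = EN h q f := by
  rw [mul_comm, L_per_mul h Q hQ ((per_pp h q f).mono hd), EN, L_per_mul h q hq (per_pp h q f)]

theorem EN_diff (q Q : ℕ) (hq : 0 < q) (hQ : 0 < Q) (hd : q ∣ Q) (f : B) :
    L ((pp L h Q f - pp L h q f) * (pp L h Q f - pp L h q f)) = EN h Q f - EN h q f := by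
  have e : (pp L h Q f - pp L h q f) * (pp L h Q f - pp L h q f) =
      pp L h Q f * pp L h Q f - (2 : ℝ) • (pp L h Q f * pp L h q f) + pp L h q f * pp L h q f := by
    ext x; simp; ring
  rw [e, h.add, h.isState.sub, h.smul, EN_cross h q Q hq hQ hd]
  unfold EN; ring

theorem EN_mono (q Q : ℕ) (hq : 0 < q) (hQ : 0 < Q) (hd : q ∣ Q) (f : B) :
    EN h q f ≤ EN h Q f := by
  have h1 := EN_diff h q Q hq hQ hd f
  have h2 : 0 ≤ L ((pp L h Q f - pp L h q f) * (pp L h Q f - pp L h q f)) :=
    h.nonneg _ fun x => by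
      simp only [BoundedContinuousFunction.coe_mul, Pi.mul_apply]; exact mul_self_nonneg _
  linarith

end pp

theorem EN_rest {L : B → ℝ} (h : IsMean L) (q Q : ℕ) (hq : 0 < q) (hQ : 0 < Q) (hd : q ∣ Q) (f : B) :
    EN h Q (f - pp L h q f) = EN h Q f - EN h q f := by
  rw [← EN_diff h q Q hq hQ hd f]
  unfold EN
  rw [pp_sub, pp_of_per h Q hQ ((per_pp h q f).mono hd)]

/-- rational frequencies -/
def Rt : Set ℝ := ⋃ j : ℕ, At (j.factorial)

theorem measurable_Rt : MeasurableSet Rt :=
  MeasurableSet.iUnion fun j => (isClosed_At _).measurableSet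

theorem At_mono {q Q : ℕ} (hd : q ∣ Q) : At q ⊆ At Q := by
  obtain ⟨k, rfl⟩ := hd
  rintro x ⟨n, hn⟩
  refine ⟨k * n, ?_⟩
  push_cast
  linear_combination (k : ℝ) * hn

/-- the rational part of the spectral measure of the rest is small -/
theorem spec_Rt {L : B → ℝ} (h : IsErg L) (f : B) (K : ℕ) (Einf : ℝ)
    (hE : ∀ j : ℕ, EN h.mean (j.factorial) f ≤ Einf) (σ : Measure ℝ) [IsFiniteMeasure σ]
    (hσ : ∀ k : ℤ, cor L (f - pp L h.mean (K.factorial) f) k = ∫ x, Real.cos (k * x) ∂σ) :
    σ.real Rt ≤ Einf - EN h.mean (K.factorial) f := by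
  have h1 : Tendsto (fun j : ℕ => σ (At (j.factorial))) atTop (𝓝 (σ Rt)) := by
    refine tendsto_measure_iUnion_atTop ?_
    intro i j hij
    exact At_mono (Nat.factorial_dvd_factorial hij)
  have h2 : Tendsto (fun j : ℕ => σ.real (At (j.factorial))) atTop (𝓝 (σ.real Rt)) :=
    (ENNReal.tendsto_toReal (measure_ne_top _ _)).comp h1
  refine le_of_tendsto h2 ?_
  filter_upwards [eventually_ge_atTop K] with j hj
  rw [spec_At h _ σ hσ _ (Nat.factorial_pos j), ← EN_eq h.mean _ (Nat.factorial_pos j),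
    EN_rest h.mean _ _ (Nat.factorial_pos K) (Nat.factorial_pos j) (Nat.factorial_dvd_factorial hj)]
  linarith [hE j]

end Q257.MD
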