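import Pool.Agent.Q257.MD.Erg

/-!
The conflict inequality and the conflict-free set of residue classes.
-/

set_option autoImplicit false

namespace Q257.MD

open Filter Topology BoundedContinuousFunction MeasureTheory Finset

/-- averages over `t ∈ T`, `t ≡ b mod M`, along which `h t` equidistributes -/
def EquiAP (T : Set ℤ) (h : ℤ → ℤ) (M : ℕ) (b : ℤ) : Prop :=
  ∃ (S : ℕ → Finset ℤ) (w : ℕ → ℤ → ℝ), (∀ j, ∀ t ∈ S j, 0 ≤ w j t) ∧
    (∀ j, ∑ t ∈ S j, w j t = 1) ∧
    (∀ j, ∀ t ∈ S j, t ∈ T ∧ h t ≠ 0 ∧ (M : ℤ) ∣ t - b) ∧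
    ∀ x ∉ Rt, Tendsto (fun j => trig (S j) (w j) h x) atTop (𝓝 0)

theorem sh_per {q : ℕ} {g : B} (hg : Per q g) {k l : ℤ} (hd : (q : ℤ) ∣ k - l) :
    sh k g = sh l g := by
  ext x
  rw [sh_apply, sh_apply]
  refine hg.of_dvd_sub ?_
  rw [show x + k - (x + l) = k - l by ring]; exact hd

theorem integral_limsup (σ : Measure ℝ) [IsFiniteMeasure σ] (F : ℕ → ℝ → ℂ)
    (hc : ∀ j, Continuous (F j)) (hb : ∀ j x, ‖F j x‖ ≤ 1)
    (ht : ∀ x ∉ Rt, Tendsto (fun j => F j x) atTop (𝓝 0)) (X : ℝ)
    (hX : ∀ j, X ≤ ∫ x, ‖F j x‖ ^ 2 ∂σ) : X ≤ σ.real Rt := by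
  have hint : ∀ j, Integrable (fun x => ‖F j x‖ ^ 2) σ := by
    intro j
    refine Integrable.of_bound (C := 1) ((hc j).norm.pow 2).aestronglyMeasurable
      (Eventually.of_forall fun x => ?_)
    rw [norm_pow, norm_norm]
    exact pow_le_one₀ (norm_nonneg _) (hb j x)
  have h1 : ∀ j, X ≤ σ.real Rt + ∫ x in Rtᶜ, ‖F j x‖ ^ 2 ∂σ := by
    intro j
    refine (hX j).trans ?_
    rw [← integral_add_compl measurable_Rt (hint j)]
    gcongr
    calc ∫ x in Rt, ‖F j x‖ ^ 2 ∂σ ≤ ∫ _x in Rt, (1 : ℝ) ∂σ := by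
          refine setIntegral_mono_on (hint j).integrableOn (integrableOn_const (measure_ne_top _ _))
            measurable_Rt fun x _ => ?_
          exact pow_le_one₀ (norm_nonneg _) (hb j x)
      _ = σ.real Rt := by rw [setIntegral_const, smul_eq_mul, mul_one]
  have h2 : Tendsto (fun j => ∫ x in Rtᶜ, ‖F j x‖ ^ 2 ∂σ) atTop (𝓝 (∫ x in Rtᶜ, (0 : ℝ) ∂σ)) := by
    refine tendsto_integral_of_dominated_convergence (fun _ => 1) ?_ (integrable_const 1) ?_ ?_
    · intro j; exact ((hc j).norm.pow 2).aestronglyMeasurable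
    · intro j
      refine Eventually.of_forall fun x => ?_
      rw [norm_pow, norm_norm]
      exact pow_le_one₀ (norm_nonneg _) (hb j x)
    · refine (ae_restrict_iff' measurable_Rt.compl).2 (Eventually.of_forall fun x hx => ?_)
      have := (ht x hx).norm.pow 2
      simpa using this
  rw [integral_zero] at h2
  have h3 : Tendsto (fun j => σ.real Rt + ∫ x in Rtᶜ, ‖F j x‖ ^ 2 ∂σ) atTop
      (𝓝 (σ.real Rt + 0)) := h2.const_add _
  rw [add_zero] at h3
  exact ge_of_tendsto' h3 h1

/-- local energy -/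
noncomputable def le (L : B → ℝ) (h : IsMean L) (m M : ℕ) (f : B) (s : ℤ) : ℝ :=
  L (cls m s * ((pp L h M f - pp L h m f) * (pp L h M f - pp L h m f)))

theorem cls_idem (q : ℕ) (s : ℤ) : cls q s * cls q s = cls q s := by
  ext x; simp

theorem sh_cls (q : ℕ) (s k : ℤ) : sh k (cls q (s + k)) = cls q s := by
  ext x; simp

theorem conflict {L : B → ℝ} (hL : IsErg L) (f : B) (hf0 : ∀ x, 0 ≤ f x) (hf1 : ∀ x, f x ≤ 1)
    (T : Set ℤ) (h : ℤ → ℤ) (hav : ∀ t ∈ T, h t ≠ 0 → ∀ x, f x * f (x + h t) = 0)
    (hmod : ∀ (M : ℕ) (b t : ℤ), (M : ℤ) ∣ t - b → (M : ℤ) ∣ h t - h b)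
    (Einf : ℝ) (hE : ∀ j : ℕ, EN hL.mean (j.factorial) f ≤ Einf) (K m : ℕ) (hm : 0 < m)
    (hmK : m ∣ K.factorial) (b : ℤ) (heq : EquiAP T h K.factorial b) (r : ℤ) :
    pp L hL.mean m f r * pp L hL.mean m f (r + h b) / m ≤
      √(Einf - EN hL.mean K.factorial f) +
      √(le L hL.mean m K.factorial f r * le L hL.mean m K.factorial f (r + h b)) := by
  have hM := hL.mean
  have hS := hM.isState
  set M : ℕ := K.factorial with hMdef
  have hM0 : 0 < M := Nat.factorial_pos K
  set P : B := pp L hM M f with hP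
  set a : B := pp L hM m f with ha
  set ζ : B := f - P with hζ
  set k : ℤ := h b with hk
  obtain ⟨S, w, hw0, hw1, hSt, hlim⟩ := heq
  obtain ⟨σ, hσf, hσ⟩ := exists_spec hM ζ
  have hR := spec_Rt hL f K Einf hE σ hσ
  -- the first inequality
  set X : ℝ := L (cls m r * f * sh k P) with hX
  have hcf : L ((cls m r * f) * (cls m r * f)) ≤ 1 := by
    refine hS.le_of fun x => ?_
    simp only [BoundedContinuousFunction.coe_mul, Pi.mul_apply, cls_apply]
    have h0 := hf0 x
    have h1 := hf1 x
    split_ifs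
    · nlinarith
    · norm_num
  have hXj : ∀ j, X ^ 2 ≤ ∫ x, ‖trig (S j) (w j) h x‖ ^ 2 ∂σ := by
    intro j
    set G : B := ∑ t ∈ S j, w j t • sh (h t) ζ with hG
    have e1 : X = - L ((cls m r * f) * G) := by
      have e2 : L ((cls m r * f) * G) = ∑ t ∈ S j, w j t * L ((cls m r * f) * sh (h t) ζ) := by
        rw [hG, Finset.mul_sum, hS.sum]
        refine Finset.sum_congr rfl fun t _ => ?_
        rw [mul_smul_comm, hS.smul]
      have e3 : ∀ t ∈ S j, L ((cls m r * f) * sh (h t) ζ) = - X := by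
        intro t ht
        obtain ⟨htT, hht, hdvd⟩ := hSt j t ht
        have e4 : sh (h t) P = sh k P := sh_per (per_pp hM M f) (hmod M b t hdvd)
        have e5 : (cls m r * f) * sh (h t) ζ = (cls m r * f) * sh (h t) f - cls m r * f * sh k P := by
          rw [← e4]
          ext x
          simp only [hζ, BoundedContinuousFunction.coe_mul, Pi.mul_apply,
            BoundedContinuousFunction.coe_sub, Pi.sub_apply, sh_apply]
          ring
        have e6 : (cls m r * f) * sh (h t) f = 0 := by
          ext x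
          simp only [BoundedContinuousFunction.coe_mul, Pi.mul_apply, sh_apply,
            BoundedContinuousFunction.coe_zero, Pi.zero_apply]
          rw [mul_assoc, hav t htT hht x, mul_zero]
        rw [e5, e6, zero_sub, hS.neg]
      rw [e2, Finset.sum_congr rfl fun t ht => by rw [e3 t ht], ← Finset.sum_mul, hw1 j]
      ring
    rw [e1, neg_sq]
    refine (hS.cauchy _ _).trans ?_
    rw [sq_eq_integral hM ζ σ hσ]
    have h1 : 0 ≤ ∫ x, ‖trig (S j) (w j) h x‖ ^ 2 ∂σ := integral_nonneg fun x => by positivity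
    nlinarith
  have hX2 : X ^ 2 ≤ Einf - EN hM M f := by
    refine (integral_limsup σ (fun j => trig (S j) (w j) h) (fun j => trig_continuous _ _ _)
      (fun j x => trig_norm_le _ _ _ (hw0 j) (hw1 j) x) hlim (X ^ 2) hXj).trans hR
  have hXle : X ≤ √(Einf - EN hM M f) := Real.le_sqrt_of_sq_le hX2
  -- replace f by P
  have hXP : X = L (cls m r * P * sh k P) := by
    have e1 : X = L ((cls m r * sh k P) * f) := by rw [hX]; congr 1; ring
    have e2 : Per M (cls m r * sh k P) := by
      intro x
      simp only [BoundedContinuousFunction.coe_mul, Pi.mul_apply, sh_apply]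
      rw [(per_cls m r).mono hmK x, show x + (M : ℤ) + k = (x + k) + M by ring,
        per_pp hM M f (x + k)]
    rw [e1, ← L_per_mul hM M hM0 e2 f]
    congr 1; ring
  -- expansion
  set u : B := P - a with hu
  have hcu : ∀ s, L (cls m s * u) = 0 := by
    intro s
    rw [hu, mul_sub, hS.sub, L_per_mul hM M hM0 ((per_cls m s).mono hmK) f,
      L_per_mul hM m hm (per_cls m s) f, sub_self]
  have hexp : cls m r * P * sh k P = (a r * a (r + k)) • cls m r + (a r) • (cls m r * sh k u)
      + (a (r + k)) • (cls m r * u) + (cls m r * u) * (sh k (cls m (r + k) * u)) := by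
    ext x
    simp only [BoundedContinuousFunction.coe_mul, Pi.mul_apply, BoundedContinuousFunction.coe_add,
      Pi.add_apply, BoundedContinuousFunction.coe_smul, smul_eq_mul, sh_apply]
    have e1 : cls m (r + k) (x + k) = cls m r x := by simp
    rw [e1]
    by_cases hx : (m : ℤ) ∣ x - r
    · have e2 : cls m r x = 1 := by simp [hx]
      rw [e2]
      have e3 : a x = a r := (per_pp hM m f).of_dvd_sub hx
      have e4 : a (x + k) = a (r + k) := (per_pp hM m f).of_dvd_sub (by
        rw [show x + k - (r + k) = x - r by ring]; exact hx)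
      have e5 : P x = a r + u x := by rw [hu]; simp [e3]
      have e6 : P (x + k) = a (r + k) + u (x + k) := by rw [hu]; simp [e4]
      rw [e5, e6]; ring
    · have e2 : cls m r x = 0 := by simp [hx]
      rw [e2]; ring
  have hsh : L (cls m r * sh k u) = 0 := by
    have e1 : cls m r * sh k u = sh k (cls m (r + k) * u) := by rw [sh_mul, sh_cls]
    rw [e1, hM.inv_int, hcu]
  have hXval : X = a r * a (r + k) / m + L ((cls m r * u) * (sh k (cls m (r + k) * u))) := by
    rw [hXP, hexp, hS.add, hS.add, hS.add, hS.smul, hS.smul, hS.smul, hcu, hsh, L_cls hM m hm]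
    ring
  have hcs := hS.cauchy (cls m r * u) (sh k (cls m (r + k) * u))
  have e1 : L ((cls m r * u) * (cls m r * u)) = le L hM m M f r := by
    unfold le
    congr 1
    have := cls_idem m r
    calc (cls m r * u) * (cls m r * u) = (cls m r * cls m r) * (u * u) := by ring
      _ = _ := by rw [this]
  have e2 : L (sh k (cls m (r + k) * u) * sh k (cls m (r + k) * u)) = le L hM m M f (r + k) := by
    rw [← sh_mul, hM.inv_int]
    unfold le
    congr 1
    have := cls_idem m (r + k)
    calc (cls m (r + k) * u) * (cls m (r + k) * u) = (cls m (r + k) * cls m (r + k)) * (u * u) := by ring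
      _ = _ := by rw [this]
  rw [e1, e2] at hcs
  have h3 : |L ((cls m r * u) * (sh k (cls m (r + k) * u)))| ≤
      √(le L hM m M f r * le L hM m M f (r + k)) := Real.abs_le_sqrt hcs
  have h4 := (abs_le.1 h3).1
  linarith

theorem le_nonneg' {L : B → ℝ} (h : IsMean L) (m M : ℕ) (f : B) (s : ℤ) : 0 ≤ le L h m M f s := by
  refine h.nonneg _ fun x => ?_
  simp only [BoundedContinuousFunction.coe_mul, Pi.mul_apply, cls_apply]
  split_ifs
  · rw [one_mul]; exact mul_self_nonneg _
  · rw [zero_mul]

theorem le_congr {L : B → ℝ} (h : IsMean L) (m M : ℕ) (f : B) {s t : ℤ} (hd : (m : ℤ) ∣ s - t) :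
    le L h m M f s = le L h m M f t := by
  unfold le; rw [cls_congr m hd]

theorem le_sum {L : B → ℝ} (h : IsMean L) (m M : ℕ) (hm : 0 < m) (hM : 0 < M) (hd : m ∣ M) (f : B) :
    ∑ s ∈ range m, le L h m M f s = EN h M f - EN h m f := by
  rw [← EN_diff h m M hm hM hd f]
  unfold le
  rw [← h.isState.sum, ← Finset.sum_mul]
  have h1 : (1 : B) = ∑ s ∈ range m, cls m s := by
    have := per_decomp m hm (g := 1) (fun x => rfl)
    simpa using this
  rw [← h1, one_mul]

theorem le_mono {L : B → ℝ} (h : IsMean L) (m M Q : ℕ) (_hm : 0 < m) (hM : 0 < M) (hQ : 0 < Q)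
    (hd : m ∣ M) (hd' : M ∣ Q) (f : B) (s : ℤ) : le L h m M f s ≤ le L h m Q f s := by
  unfold le
  set P := pp L h M f
  set R := pp L h Q f
  set a := pp L h m f
  have e : cls m s * ((R - a) * (R - a)) = cls m s * ((P - a) * (P - a)) +
      (2 : ℝ) • ((cls m s * (P - a)) * (R - P)) + cls m s * ((R - P) * (R - P)) := by
    ext x
    simp only [BoundedContinuousFunction.coe_mul, Pi.mul_apply, BoundedContinuousFunction.coe_sub,
      Pi.sub_apply, BoundedContinuousFunction.coe_add, Pi.add_apply,
      BoundedContinuousFunction.coe_smul, smul_eq_mul]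
    ring
  have hper : Per M (cls m s * (P - a)) := by
    intro x
    simp only [BoundedContinuousFunction.coe_mul, Pi.mul_apply, BoundedContinuousFunction.coe_sub,
      Pi.sub_apply]
    rw [(per_cls m s).mono hd x, per_pp h M f x, (per_pp h m f).mono hd x]
  have h0 : L ((cls m s * (P - a)) * (R - P)) = 0 := by
    rw [mul_sub, h.isState.sub, L_per_mul h M hM hper f, L_per_mul h Q hQ (hper.mono hd') f, sub_self]
  rw [e, h.add, h.add, h.smul, h0]
  have h1 : 0 ≤ L (cls m s * ((R - P) * (R - P))) := by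
    refine h.nonneg _ fun x => ?_
    simp only [BoundedContinuousFunction.coe_mul, Pi.mul_apply, cls_apply]
    split_ifs
    · rw [one_mul]; exact mul_self_nonneg _
    · rw [zero_mul]
  linarith

/-- the liftable parameters modulo `m` -/
def Liftable (T : Set ℤ) (h : ℤ → ℤ) (m : ℕ) (t : ℤ) : Prop :=
  ∀ M : ℕ, 0 < M → m ∣ M → ∃ b : ℤ, (m : ℤ) ∣ b - t ∧ EquiAP T h M b

open Classical in
theorem conflict_free {L : B → ℝ} (hL : IsErg L) (f : B) (hf0 : ∀ x, 0 ≤ f x) (hf1 : ∀ x, f x ≤ 1)
    (T : Set ℤ) (h : ℤ → ℤ) (hav : ∀ t ∈ T, h t ≠ 0 → ∀ x, f x * f (x + h t) = 0)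
    (hmod : ∀ (M : ℕ) (b t : ℤ), (M : ℤ) ∣ t - b → (M : ℤ) ∣ h t - h b) (η : ℝ) (hη : 0 < η) :
    ∃ (m : ℕ) (R : ℤ → Prop), 0 < m ∧ (∀ x y, (m : ℤ) ∣ x - y → (R x ↔ R y)) ∧
      L f - 3 * η ≤ L (f * mkB (fun x => if R x then 1 else 0) 1
        (fun x => by split_ifs <;> simp)) ∧
      ∀ r t, R r → Liftable T h m t → ¬ R (r + h t) := by
  have hM := hL.mean
  have hS := hM.isState
  -- the supremum of the energies
  have hbdd : ∀ j : ℕ, EN hM j.factorial f ≤ 1 := by
    intro j
    unfold EN
    rw [L_per_mul hM _ (Nat.factorial_pos j) (per_pp hM _ f)]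
    refine hS.le_of fun x => ?_
    simp only [BoundedContinuousFunction.coe_mul, Pi.mul_apply]
    have h1 : pp L hM j.factorial f x ≤ 1 := by
      rw [pp_apply]
      have h2 : L (cls j.factorial x * f) ≤ L (cls j.factorial x) := hS.mono fun y => by
        simp only [BoundedContinuousFunction.coe_mul, Pi.mul_apply, cls_apply]
        split_ifs
        · rw [one_mul]; exact hf1 y
        · rw [zero_mul]
      rw [L_cls hM _ (Nat.factorial_pos j)] at h2
      have h3 : (0 : ℝ) < (j.factorial : ℝ) := by exact_mod_cast Nat.factorial_pos j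
      calc (j.factorial : ℝ) * L (cls j.factorial x * f) ≤ j.factorial * (1 / j.factorial) := by gcongr
        _ = 1 := by field_simp
    have h2 : 0 ≤ pp L hM j.factorial f x := by
      rw [pp_apply]
      refine mul_nonneg (Nat.cast_nonneg _) (hS.nonneg _ fun y => ?_)
      simp only [BoundedContinuousFunction.coe_mul, Pi.mul_apply, cls_apply]
      split_ifs
      · rw [one_mul]; exact hf0 y
      · rw [zero_mul]
    have := hf0 x
    have := hf1 x
    nlinarith
  have hpp0 : ∀ m x, 0 ≤ pp L hM m f x := by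
    intro m x
    rw [pp_apply]
    refine mul_nonneg (Nat.cast_nonneg _) (hS.nonneg _ fun y => ?_)
    simp only [BoundedContinuousFunction.coe_mul, Pi.mul_apply, cls_apply]
    split_ifs
    · rw [one_mul]; exact hf0 y
    · rw [zero_mul]
  have hmono : Monotone fun j : ℕ => EN hM j.factorial f := by
    intro i j hij
    exact EN_mono hM _ _ (Nat.factorial_pos i) (Nat.factorial_pos j)
      (Nat.factorial_dvd_factorial hij) f
  have hBA : BddAbove (Set.range fun j : ℕ => EN hM j.factorial f) :=
    ⟨1, by rintro _ ⟨j, rfl⟩; exact hbdd j⟩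
  set Einf : ℝ := ⨆ j : ℕ, EN hM j.factorial f with hEinf
  have hE : ∀ j : ℕ, EN hM j.factorial f ≤ Einf := fun j => le_ciSup hBA j
  have hElim : Tendsto (fun j : ℕ => EN hM j.factorial f) atTop (𝓝 Einf) :=
    tendsto_atTop_ciSup hmono hBA
  obtain ⟨K0, hK0⟩ : ∃ K0 : ℕ, Einf - EN hM K0.factorial f ≤ η ^ 3 / 2 := by
    have h1 : ∀ᶠ j : ℕ in atTop, Einf - η ^ 3 / 2 < EN hM j.factorial f :=
      hElim.eventually (lt_mem_nhds (by have : 0 < η ^ 3 := by positivity
                                        linarith))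
    obtain ⟨j, hj⟩ := h1.exists
    exact ⟨j, by linarith⟩
  set m : ℕ := K0.factorial with hm
  have hm0 : 0 < m := Nat.factorial_pos K0
  have hmr : (0 : ℝ) < m := by exact_mod_cast hm0
  set κ : ℝ := η ^ 2 / (2 * m) with hκ
  have hκ0 : 0 < κ := by positivity
  set R : ℤ → Prop := fun x => η ≤ pp L hM m f x ∧ ∀ j, K0 ≤ j → le L hM m j.factorial f x ≤ κ with hR
  refine ⟨m, R, hm0, ?_, ?_, ?_⟩
  · intro x y hxy
    simp only [hR]
    rw [(per_pp hM m f).of_dvd_sub hxy]
    simp only [le_congr hM m _ f hxy]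
  · -- density
    set g : B := mkB (fun x => if R x then 1 else 0) 1 (fun x => by split_ifs <;> simp) with hg
    have hRper : ∀ x y, (m : ℤ) ∣ x - y → (R x ↔ R y) := by
      intro x y hxy
      simp only [hR]
      rw [(per_pp hM m f).of_dvd_sub hxy]
      simp only [le_congr hM m _ f hxy]
    have hgper : Per m (1 - g) := by
      intro x
      have : R (x + m) ↔ R x := hRper _ _ (by simp)
      simp [hg, this]
    have e1 : L f - L (f * g) = L ((1 - g) * f) := by
      rw [← hS.sub]; congr 1; ring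
    have e2 : L ((1 - g) * f) = ∑ s ∈ range m, (1 - g) s * L (cls m s * f) := by
      conv_lhs => rw [per_decomp m hm0 hgper]
      rw [Finset.sum_mul, hS.sum]
      refine Finset.sum_congr rfl fun s _ => ?_
      rw [smul_mul_assoc, hM.smul]
    -- a large index
    have hex : ∀ s : ℕ, ∃ j, K0 ≤ j ∧ ((∃ i, K0 ≤ i ∧ κ < le L hM m i.factorial f s) →
        κ < le L hM m j.factorial f s) := by
      intro s
      by_cases hs : ∃ i, K0 ≤ i ∧ κ < le L hM m i.factorial f s
      · obtain ⟨i, hi, hi'⟩ := hs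
        exact ⟨i, hi, fun _ => hi'⟩
      · exact ⟨K0, le_rfl, fun hh => absurd hh hs⟩
    choose J hJ1 hJ2 using hex
    obtain ⟨J0, hJ0⟩ : ∃ J0, ∀ s ∈ range m, J s ≤ J0 :=
      ⟨(range m).sup J, fun s hs => Finset.le_sup hs⟩
    set J1 := max K0 J0 with hJ1'
    have hbad : ∀ s ∈ range m, ¬ R s → (1 : ℝ) * L (cls m s * f) ≤
        η / m + (1 / m) * (le L hM m J1.factorial f s / κ) := by
      intro s hs hRs
      have hle0 := le_nonneg' hM m J1.factorial f s
      by_cases h1 : η ≤ pp L hM m f s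
      · have h2 : ∃ i, K0 ≤ i ∧ κ < le L hM m i.factorial f s := by
          by_contra hcon
          push Not at hcon
          exact hRs ⟨h1, hcon⟩
        have h3 := hJ2 s h2
        have h4 : κ < le L hM m J1.factorial f s := by
          refine lt_of_lt_of_le h3 ?_
          refine le_mono hM m _ _ hm0 (Nat.factorial_pos _) (Nat.factorial_pos _)
            (Nat.factorial_dvd_factorial (hJ1 s)) (Nat.factorial_dvd_factorial ?_) f s
          exact (hJ0 s hs).trans (le_max_right _ _)
        have h5 : 1 ≤ le L hM m J1.factorial f s / κ := by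
          rw [le_div_iff₀ hκ0]; linarith
        have h6 : L (cls m s * f) ≤ 1 / m := by
          rw [← L_cls hM m hm0 s]
          refine hS.mono fun y => ?_
          simp only [BoundedContinuousFunction.coe_mul, Pi.mul_apply, cls_apply]
          split_ifs
          · rw [one_mul]; exact hf1 y
          · rw [zero_mul]
        have h7 : (1 : ℝ) / m * 1 ≤ (1 / m) * (le L hM m J1.factorial f s / κ) := by gcongr
        have h8 : 0 ≤ η / m := by positivity
        linarith
      · push Not at h1
        rw [pp_apply] at h1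
        have h2 : L (cls m s * f) ≤ η / m := by
          rw [le_div_iff₀ hmr]; linarith
        have h3 : 0 ≤ (1 / (m : ℝ)) * (le L hM m J1.factorial f s / κ) := by positivity
        linarith
    have e3 : ∑ s ∈ range m, (1 - g) s * L (cls m s * f) ≤
        ∑ s ∈ range m, (η / m + (1 / m) * (le L hM m J1.factorial f s / κ)) := by
      refine Finset.sum_le_sum fun s hs => ?_
      by_cases hRs : R s
      · have : (1 - g) (s : ℤ) = 0 := by simp [hg, hRs]
        rw [this, zero_mul]
        have := le_nonneg' hM m J1.factorial f s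
        positivity
      · have : (1 - g) (s : ℤ) = 1 := by simp [hg, hRs]
        rw [this]
        exact hbad s hs hRs
    have e4 : ∑ s ∈ range m, (η / m + (1 / m) * (le L hM m J1.factorial f s / κ)) =
        η + (1 / m) * ((EN hM J1.factorial f - EN hM m f) / κ) := by
      rw [Finset.sum_add_distrib, Finset.sum_const, card_range, nsmul_eq_mul, ← Finset.mul_sum,
        ← Finset.sum_div, le_sum hM m _ hm0 (Nat.factorial_pos _)
          (Nat.factorial_dvd_factorial (le_max_left _ _))]
      congr 1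
      field_simp
    have e5 : (1 / (m : ℝ)) * ((EN hM J1.factorial f - EN hM m f) / κ) ≤ η := by
      have h1 := hE J1
      have h2 : EN hM J1.factorial f - EN hM m f ≤ η ^ 3 / 2 := by linarith
      calc (1 / (m : ℝ)) * ((EN hM J1.factorial f - EN hM m f) / κ)
          ≤ (1 / (m : ℝ)) * ((η ^ 3 / 2) / κ) := by gcongr
        _ = η := by rw [hκ]; field_simp
    have e6 : L f - L (f * g) ≤ 2 * η := by rw [e1, e2]; linarith
    have e7 : L f - 3 * η ≤ L (f * g) := by linarith
    refine e7.trans (le_of_eq ?_)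
    congr 2
    ext x
    simp only [hg, mkB_apply]
    split_ifs <;> rfl
  · intro r t hr ht hrt
    have key : ∀ j, K0 ≤ j → pp L hM m f r * pp L hM m f (r + h t) / m ≤
        √(Einf - EN hM j.factorial f) + κ := by
      intro j hj
      obtain ⟨b, hb, heq⟩ := ht j.factorial (Nat.factorial_pos j) (Nat.factorial_dvd_factorial hj)
      have hc := conflict hL f hf0 hf1 T h hav hmod Einf hE j m hm0
        (Nat.factorial_dvd_factorial hj) b heq r
      have hd : (m : ℤ) ∣ (r + h b) - (r + h t) := by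
        rw [show (r + h b) - (r + h t) = h b - h t by ring]
        exact hmod m t b hb
      rw [(per_pp hM m f).of_dvd_sub hd, le_congr hM m _ f hd] at hc
      refine hc.trans ?_
      have h1 : √(le L hM m j.factorial f r * le L hM m j.factorial f (r + h t)) ≤ κ := by
        rw [Real.sqrt_le_left hκ0.le, sq]
        exact mul_le_mul (hr.2 j hj) (hrt.2 j hj) (le_nonneg' hM _ _ _ _) hκ0.le
      linarith
    have hlim : Tendsto (fun j : ℕ => √(Einf - EN hM j.factorial f) + κ) atTop (𝓝 (√(Einf - Einf) + κ)) :=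
      ((tendsto_const_nhds.sub hElim).sqrt).add_const _
    rw [sub_self, Real.sqrt_zero, zero_add] at hlim
    have h1 : pp L hM m f r * pp L hM m f (r + h t) / m ≤ κ := by
      refine ge_of_tendsto hlim ?_
      filter_upwards [eventually_ge_atTop K0] with j hj
      exact key j hj
    have h2 : η ^ 2 / m ≤ pp L hM m f r * pp L hM m f (r + h t) / m := by
      rw [sq]
      have h5 := hr.1
      have h6 := hrt.1
      have h7 : η * η ≤ pp L hM m f r * pp L hM m f (r + h t) :=
        mul_le_mul h5 h6 hη.le (hη.le.trans h5)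
      gcongr
    have h3 : κ < η ^ 2 / m := by
      rw [hκ, div_lt_div_iff₀ (by positivity) hmr]
      have : 0 < η ^ 2 := by positivity
      nlinarith
    linarith

end Q257.MD
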