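import Mathlib

/-!
Invariant means on the bounded functions on the integers, and extreme ones.
-/

set_option autoImplicit false

namespace Q257.MD

open Filter Topology BoundedContinuousFunction

/-- bounded real functions on `ℤ` -/
abbrev B := ℤ →ᵇ ℝ

/-- a bounded function -/
noncomputable def mkB (f : ℤ → ℝ) (C : ℝ) (h : ∀ x, |f x| ≤ C) : B :=
  BoundedContinuousFunction.ofNormedAddCommGroup f continuous_of_discreteTopology C
    (fun x => by rw [Real.norm_eq_abs]; exact h x)

@[simp] theorem mkB_apply (f : ℤ → ℝ) (C : ℝ) (h : ∀ x, |f x| ≤ C) (x : ℤ) : mkB f C h x = f x := rfl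

/-- shift -/
noncomputable def sh (n : ℤ) (f : B) : B :=
  mkB (fun x => f (x + n)) ‖f‖ (fun x => f.norm_coe_le_norm (x + n))

@[simp] theorem sh_apply (n : ℤ) (f : B) (x : ℤ) : sh n f x = f (x + n) := rfl

theorem sh_add (n : ℤ) (f g : B) : sh n (f + g) = sh n f + sh n g := by
  ext x; simp

theorem sh_mul (n : ℤ) (f g : B) : sh n (f * g) = sh n f * sh n g := by
  ext x; simp

theorem sh_smul (n : ℤ) (c : ℝ) (f : B) : sh n (c • f) = c • sh n f := by
  ext x; simp

theorem sh_sh (m n : ℤ) (f : B) : sh m (sh n f) = sh (m + n) f := by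
  ext x; simp [add_assoc]

theorem sh_zero (f : B) : sh 0 f = f := by ext x; simp

/-- invariant means -/
structure IsMean (L : B → ℝ) : Prop where
  add : ∀ f g, L (f + g) = L f + L g
  smul : ∀ (c : ℝ) f, L (c • f) = c * L f
  nonneg : ∀ f : B, (∀ x, 0 ≤ f x) → 0 ≤ L f
  one : L 1 = 1
  inv : ∀ f, L (sh 1 f) = L f

/-- states without the invariance -/
structure IsState (L : B → ℝ) : Prop where
  add : ∀ f g, L (f + g) = L f + L g
  smul : ∀ (c : ℝ) f, L (c • f) = c * L f
  nonneg : ∀ f : B, (∀ x, 0 ≤ f x) → 0 ≤ L f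
  one : L 1 = 1

theorem IsMean.isState {L : B → ℝ} (h : IsMean L) : IsState L := ⟨h.add, h.smul, h.nonneg, h.one⟩

namespace IsState

variable {L : B → ℝ} (h : IsState L)
include h

theorem neg (f : B) : L (-f) = - L f := by
  have h1 := h.smul (-1) f
  have h2 : ((-1 : ℝ) • f : B) = -f := by ext x; simp
  rw [h2] at h1
  linarith

theorem sub (f g : B) : L (f - g) = L f - L g := by
  rw [sub_eq_add_neg, h.add, h.neg]; ring

theorem zero : L 0 = 0 := by
  have := h.smul 0 0
  simpa using this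

theorem mono {f g : B} (hfg : ∀ x, f x ≤ g x) : L f ≤ L g := by
  have := h.nonneg (g - f) (fun x => by simp [hfg x])
  rw [h.sub] at this
  linarith

theorem const (c : ℝ) : L (c • (1 : B)) = c := by rw [h.smul, h.one, mul_one]

theorem le_of {f : B} {c : ℝ} (hf : ∀ x, f x ≤ c) : L f ≤ c := by
  have := h.mono (f := f) (g := c • (1 : B)) (fun x => by simpa using hf x)
  rwa [h.const] at this

theorem ge_of {f : B} {c : ℝ} (hf : ∀ x, c ≤ f x) : c ≤ L f := by
  have := h.mono (f := c • (1 : B)) (g := f) (fun x => by simpa using hf x)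
  rwa [h.const] at this

theorem abs_le {f : B} {c : ℝ} (hf : ∀ x, |f x| ≤ c) : |L f| ≤ c := by
  rw [_root_.abs_le]
  exact ⟨h.ge_of fun x => (_root_.abs_le.1 (hf x)).1, h.le_of fun x => (_root_.abs_le.1 (hf x)).2⟩

theorem abs_le_norm (f : B) : |L f| ≤ ‖f‖ := h.abs_le fun x => f.norm_coe_le_norm x

theorem sum {ι : Type*} (s : Finset ι) (f : ι → B) : L (∑ i ∈ s, f i) = ∑ i ∈ s, L (f i) := by
  classical
  induction s using Finset.induction_on with
  | empty => simp [h.zero]
  | insert a s ha ih => rw [Finset.sum_insert ha, Finset.sum_insert ha, h.add, ih]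

theorem cauchy (f g : B) : L (f * g) ^ 2 ≤ L (f * f) * L (g * g) := by
  have h1 : ∀ t : ℝ, 0 ≤ L (f * f) * (t * t) + (2 * L (f * g)) * t + L (g * g) := by
    intro t
    have h2 := h.nonneg ((t • f + g) * (t • f + g)) (fun x => by
      simp only [BoundedContinuousFunction.coe_mul, Pi.mul_apply]; exact mul_self_nonneg _)
    have h3 : (t • f + g) * (t • f + g) = (t * t) • (f * f) + ((2 * t) • (f * g) + g * g) := by
      ext x; simp; ring
    rw [h3, h.add, h.add, h.smul, h.smul] at h2
    linarith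
  have h4 := discrim_le_zero h1
  unfold discrim at h4
  nlinarith

end IsState

/-- the set of states is compact in the product topology -/
theorem isCompact_state : IsCompact {L : B → ℝ | IsState L} := by
  have h1 : {L : B → ℝ | IsState L} ⊆ Set.univ.pi fun f : B => Set.Icc (-‖f‖) ‖f‖ := by
    intro L hL f _
    exact _root_.abs_le.1 (IsState.abs_le_norm hL f)
  refine IsCompact.of_isClosed_subset (isCompact_univ_pi fun f => isCompact_Icc) ?_ h1
  have h2 : {L : B → ℝ | IsState L} =
      (⋂ f, ⋂ g, {L : B → ℝ | L (f + g) = L f + L g}) ∩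
      (⋂ c : ℝ, ⋂ f, {L : B → ℝ | L (c • f) = c * L f}) ∩
      (⋂ f : B, ⋂ (_ : ∀ x, 0 ≤ f x), {L : B → ℝ | 0 ≤ L f}) ∩
      {L : B → ℝ | L 1 = 1} := by
    ext L
    simp only [Set.mem_ofPred_eq, Set.mem_inter_iff, Set.mem_iInter]
    constructor
    · intro h; exact ⟨⟨⟨h.add, h.smul⟩, h.nonneg⟩, h.one⟩
    · rintro ⟨⟨⟨a, b⟩, c⟩, d⟩; exact ⟨a, b, c, d⟩
  rw [h2]
  refine ((IsClosed.inter (IsClosed.inter ?_ ?_) ?_).inter ?_)
  · exact isClosed_iInter fun f => isClosed_iInter fun g =>
      isClosed_eq (continuous_apply _) ((continuous_apply f).add (continuous_apply g))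
  · exact isClosed_iInter fun c => isClosed_iInter fun g =>
      isClosed_eq (continuous_apply _) (continuous_const.mul (continuous_apply g))
  · exact isClosed_iInter fun f => isClosed_iInter fun _ =>
      isClosed_le continuous_const (continuous_apply _)
  · exact isClosed_eq (continuous_apply _) continuous_const

theorem isCompact_mean : IsCompact {L : B → ℝ | IsMean L} := by
  have h2 : {L : B → ℝ | IsMean L} = {L : B → ℝ | IsState L} ∩
      ⋂ f, {L : B → ℝ | L (sh 1 f) = L f} := by
    ext L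
    simp only [Set.mem_ofPred_eq, Set.mem_inter_iff, Set.mem_iInter]
    constructor
    · intro h; exact ⟨h.isState, h.inv⟩
    · rintro ⟨a, b⟩; exact ⟨a.add, a.smul, a.nonneg, a.one, b⟩
  rw [h2]
  refine isCompact_state.inter_right ?_
  exact isClosed_iInter fun f => isClosed_eq (continuous_apply _) (continuous_apply _)

/-- limit of states along an ultrafilter -/
theorem exists_limit (U : Ultrafilter ℕ) (L : ℕ → B → ℝ) (hL : ∀ n, IsState (L n)) :
    ∃ L0 : B → ℝ, IsState L0 ∧ ∀ f, Tendsto (fun n => L n f) U (𝓝 (L0 f)) := by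
  obtain ⟨L0, hL0, hle⟩ := isCompact_state.ultrafilter_le_nhds (U.map L) (by
    rw [Ultrafilter.coe_map, le_principal_iff, mem_map]
    exact Filter.univ_mem' hL)
  refine ⟨L0, hL0, fun f => ?_⟩
  have : Tendsto L U (𝓝 L0) := by
    rw [Ultrafilter.coe_map] at hle; exact hle
  exact ((continuous_apply f).tendsto L0).comp this

theorem IsMean.inv_nat {L : B → ℝ} (h : IsMean L) (n : ℕ) (f : B) : L (sh n f) = L f := by
  induction n with
  | zero => rw [Nat.cast_zero, sh_zero]
  | succ n ih =>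
    rw [← ih, ← h.inv (sh n f), sh_sh]
    congr 2
    push_cast; ring

theorem IsMean.inv_int {L : B → ℝ} (h : IsMean L) (n : ℤ) (f : B) : L (sh n f) = L f := by
  obtain ⟨k, rfl | rfl⟩ := n.eq_nat_or_neg
  · exact h.inv_nat k f
  · rw [← h.inv_nat k (sh (-k) f), sh_sh, add_neg_cancel, sh_zero]

/-- the partial averages -/
noncomputable def AV (N : ℕ) (f : B) : B := (1 / (N : ℝ)) • ∑ n ∈ Finset.range N, sh n f

theorem AV_apply (N : ℕ) (f : B) (x : ℤ) :
    AV N f x = (1 / (N : ℝ)) * ∑ n ∈ Finset.range N, f (x + n) := by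
  unfold AV
  simp [BoundedContinuousFunction.sum_apply]

theorem AV_abs_le {f : B} {C : ℝ} (hC : ∀ x, |f x| ≤ C) (N : ℕ) (x : ℤ) : |AV N f x| ≤ C := by
  have hC0 : 0 ≤ C := (abs_nonneg _).trans (hC 0)
  rw [AV_apply]
  rcases Nat.eq_zero_or_pos N with h | h
  · subst h; simpa using hC0
  · have hN : (0 : ℝ) < N := by exact_mod_cast h
    rw [abs_mul, abs_of_pos (by positivity), one_div, inv_mul_le_iff₀ hN]
    refine (Finset.abs_sum_le_sum_abs _ _).trans ((Finset.sum_le_card_nsmul _ _ C fun n _ => hC _).trans ?_)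
    simp

theorem IsMean.L_AV {L : B → ℝ} (h : IsMean L) (N : ℕ) (hN : 0 < N) (f : B) : L (AV N f) = L f := by
  unfold AV
  rw [h.smul, h.isState.sum]
  simp only [h.inv_nat]
  rw [Finset.sum_const, Finset.card_range, nsmul_eq_mul]
  have : (N : ℝ) ≠ 0 := by positivity
  field_simp

theorem AV_shift {f : B} {C : ℝ} (hC : ∀ x, |f x| ≤ C) (N : ℕ) (x : ℤ) :
    |AV N f x - sh 1 (AV N f) x| ≤ 2 * C / N := by
  rcases Nat.eq_zero_or_pos N with h | h
  · subst h; simp [AV_apply]
  · have hN : (0 : ℝ) < N := by exact_mod_cast h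
    rw [sh_apply, AV_apply, AV_apply, ← mul_sub]
    have h1 : ∑ n ∈ Finset.range N, f (x + n) - ∑ n ∈ Finset.range N, f (x + 1 + n)
        = f x - f (x + N) := by
      have h2 := Finset.sum_range_succ (fun n : ℕ => f (x + n)) N
      have h3 := Finset.sum_range_succ' (fun n : ℕ => f (x + n)) N
      have h4 : ∑ n ∈ Finset.range N, f (x + ((n + 1 : ℕ) : ℤ)) = ∑ n ∈ Finset.range N, f (x + 1 + n) := by
        refine Finset.sum_congr rfl fun n _ => ?_
        congr 1; push_cast; ring
      rw [h4] at h3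
      simp only [Nat.cast_zero, add_zero] at h3
      linarith
    rw [h1, abs_mul, abs_of_pos (by positivity), one_div, inv_mul_le_iff₀ hN]
    have h5 := abs_sub (f x) (f (x + N))
    have h6 := hC x
    have h7 := hC (x + N)
    have : (N : ℝ) * (2 * C / N) = 2 * C := by field_simp
    rw [this]; linarith

/-- The ergodicity of a suitable extreme mean: for every `A` with `c` a frequent lower bound of the
densities, there is an ergodic mean giving `A` at least the value `c`. -/
theorem exists_ergodic (a : B) (L1 : B → ℝ) (hL1 : IsMean L1) :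
    ∃ L : B → ℝ, IsMean L ∧ L1 a ≤ L a ∧
      ∀ f g : B, Tendsto (fun N : ℕ => L (g * AV N f)) atTop (𝓝 (L f * L g)) := by
  obtain ⟨Lm, hLm, hmax⟩ := isCompact_mean.exists_isMaxOn ⟨L1, hL1⟩
    (f := fun L : B → ℝ => L a) (continuous_apply a).continuousOn
  set K : Set (B → ℝ) := {L : B → ℝ | IsMean L} ∩ {L | L a = Lm a} with hK
  have hKc : IsCompact K := isCompact_mean.inter_right
    (isClosed_eq (continuous_apply a) continuous_const)
  obtain ⟨L, hL⟩ := hKc.extremePoints_nonempty ⟨Lm, hLm, rfl⟩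
  have hLK : L ∈ K := hL.1
  have hLmean : IsMean L := hLK.1
  have hLs := hLmean.isState
  refine ⟨L, hLmean, ?_, ?_⟩
  · rw [hLK.2]; exact hmax hL1
  intro f g
  rw [tendsto_iff_ultrafilter]
  intro U hU
  -- the perturbation
  set C : ℝ := ‖f‖ + 1 with hC
  have hC0 : 0 < C := by positivity
  have hfC : ∀ x, |f x| ≤ C := fun x => (f.norm_coe_le_norm x).trans (by linarith)
  set c : ℝ := 1 / (2 * C) with hc
  have hc0 : 0 < c := by positivity
  -- u N = 1 + s c (AV N f - L f)
  let u : ℝ → ℕ → B := fun s N => (1 : B) + (s * c) • (AV N f - (L f) • (1 : B))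
  have hu_apply : ∀ s N x, u s N x = 1 + (s * c) * (AV N f x - L f) := by
    intro s N x; simp [u]
  have hu0 : ∀ s, |s| ≤ 1 → ∀ N x, 0 ≤ u s N x := by
    intro s hs N x
    rw [hu_apply]
    have h1 : |(s * c) * (AV N f x - L f)| ≤ 1 := by
      rw [abs_mul, abs_mul, abs_of_pos hc0]
      have h2 : |AV N f x - L f| ≤ 2 * C := by
        have := abs_sub (AV N f x) (L f)
        have h3 := AV_abs_le hfC N x
        have h4 := hLs.abs_le hfC
        linarith
      calc |s| * c * |AV N f x - L f| ≤ 1 * c * (2 * C) := by gcongr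
        _ = 1 := by rw [hc]; field_simp
    have := (_root_.abs_le.1 h1).1
    linarith
  let Ls : ℝ → ℕ → B → ℝ := fun s N g => L (g * u s N)
  have hLone : ∀ s (N : ℕ), 0 < N → L (u s N) = 1 := by
    intro s N hN
    have : u s N = 1 + (s * c) • (AV N f) - (s * c * L f) • (1 : B) := by
      ext x; simp [u]; ring
    rw [this, hLs.sub, hLs.add, hLs.smul, hLs.smul, hLs.one, hLmean.L_AV N hN]
    ring
  have hstate : ∀ s, |s| ≤ 1 → ∀ N, IsState (Ls s (N + 1)) := by
    intro s hs N
    refine ⟨fun f g => ?_, fun r f => ?_, fun f hf => ?_, ?_⟩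
    · simp only [Ls]; rw [add_mul, hLs.add]
    · simp only [Ls]; rw [smul_mul_assoc, hLs.smul]
    · simp only [Ls]
      refine hLs.nonneg _ fun x => ?_
      exact mul_nonneg (hf x) (hu0 s hs _ x)
    · simp only [Ls]; rw [one_mul]; exact hLone s (N + 1) (Nat.succ_pos _)
  -- ultrafilter shifted
  have hlim : ∀ s, |s| ≤ 1 → ∃ L0 : B → ℝ, IsState L0 ∧
      ∀ g, Tendsto (fun N => Ls s N g) U (𝓝 (L0 g)) := by
    intro s hs
    obtain ⟨L0, h1, h2⟩ := exists_limit (U.map (fun n => n - 1)) (fun N => Ls s (N + 1)) (hstate s hs)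
    refine ⟨L0, h1, fun g => ?_⟩
    have h3 := h2 g
    rw [Ultrafilter.coe_map, tendsto_map'_iff] at h3
    refine h3.congr' ?_
    have : ∀ᶠ n : ℕ in U, 1 ≤ n := hU (eventually_ge_atTop 1)
    filter_upwards [this] with n hn
    simp only [Function.comp]
    rw [Nat.sub_add_cancel hn]
  obtain ⟨Lp, hLp, hLpt⟩ := hlim 1 (by simp)
  obtain ⟨Lq, hLq, hLqt⟩ := hlim (-1) (by simp)
  -- invariance of the limits
  have hinv : ∀ s, |s| ≤ 1 → ∀ L0 : B → ℝ, (∀ g, Tendsto (fun N => Ls s N g) U (𝓝 (L0 g))) →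
      ∀ g, L0 (sh 1 g) = L0 g := by
    intro s hs L0 hL0 g
    have h1 : Tendsto (fun N : ℕ => Ls s N (sh 1 g) - Ls s N g) U (𝓝 (L0 (sh 1 g) - L0 g)) :=
      (hL0 _).sub (hL0 _)
    have h2 : Tendsto (fun N : ℕ => Ls s N (sh 1 g) - Ls s N g) U (𝓝 0) := by
      have h3 : ∀ N : ℕ, |Ls s N (sh 1 g) - Ls s N g| ≤ (‖g‖ * c * (2 * C)) / N := by
        intro N
        have e1 : Ls s N g = L (sh 1 g * sh 1 (u s N)) := by
          simp only [Ls]; rw [← hLmean.inv, sh_mul]
        have e2 : Ls s N (sh 1 g) - Ls s N g = L (sh 1 g * (u s N - sh 1 (u s N))) := by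
          rw [e1, mul_sub, hLs.sub]
        rw [e2]
        refine hLs.abs_le fun x => ?_
        have e3 : (sh 1 g * (u s N - sh 1 (u s N))) x =
            g (x + 1) * ((s * c) * (AV N f x - sh 1 (AV N f) x)) := by
          simp only [BoundedContinuousFunction.coe_mul, Pi.mul_apply, BoundedContinuousFunction.coe_sub,
            Pi.sub_apply, sh_apply, hu_apply]
          ring
        rw [e3, abs_mul, abs_mul, abs_mul, abs_of_pos hc0]
        have e4 := AV_shift hfC N x
        have e5 : |g (x + 1)| ≤ ‖g‖ := g.norm_coe_le_norm _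
        calc |g (x + 1)| * (|s| * c * |AV N f x - sh 1 (AV N f) x|)
            ≤ ‖g‖ * (1 * c * (2 * C / N)) := by gcongr
          _ = ‖g‖ * c * (2 * C) / N := by ring
      refine squeeze_zero_norm (a := fun N : ℕ => (‖g‖ * c * (2 * C)) / N) (fun N => ?_) ?_
      · rw [Real.norm_eq_abs]; exact h3 N
      · exact (tendsto_const_div_atTop_nhds_zero_nat _).mono_left hU
    have := tendsto_nhds_unique h1 h2
    linarith
  have hLpm : IsMean Lp := ⟨hLp.add, hLp.smul, hLp.nonneg, hLp.one, hinv 1 (by simp) Lp hLpt⟩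
  have hLqm : IsMean Lq := ⟨hLq.add, hLq.smul, hLq.nonneg, hLq.one, hinv (-1) (by simp) Lq hLqt⟩
  -- average
  have havg : ∀ g, Lp g + Lq g = 2 * L g := by
    intro g
    have h1 := (hLpt g).add (hLqt g)
    have h2 : ∀ N, Ls 1 N g + Ls (-1) N g = 2 * L g := by
      intro N
      simp only [Ls]
      rw [← hLs.add, ← mul_add]
      have : u 1 N + u (-1) N = (2 : ℝ) • (1 : B) := by
        ext x; simp [u]; ring
      rw [this, mul_smul_comm, mul_one, hLs.smul]
    simp only [h2] at h1
    exact (tendsto_nhds_unique h1 tendsto_const_nhds)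
  -- extremality
  have hpa : Lp a ≤ Lm a := hmax hLpm
  have hqa : Lq a ≤ Lm a := hmax hLqm
  have hLa : L a = Lm a := hLK.2
  have hsum := havg a
  have hpK : Lp ∈ K := ⟨hLpm, by show Lp a = Lm a; linarith⟩
  have hqK : Lq ∈ K := ⟨hLqm, by show Lq a = Lm a; linarith⟩
  have hext : Lp = L := by
    refine (hL.2 hpK hqK ?_)
    refine ⟨1 / 2, 1 / 2, by norm_num, by norm_num, by norm_num, ?_⟩
    funext g
    have := havg g
    simp only [Pi.add_apply, Pi.smul_apply, smul_eq_mul]
    linarith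
  -- conclusion
  have h5 : Tendsto (fun N => Ls 1 N g) U (𝓝 (L g)) := by rw [← hext]; exact hLpt g
  have h6 : ∀ N, L (g * AV N f) = (Ls 1 N g - L g) / c + L f * L g := by
    intro N
    simp only [Ls]
    have : g * u 1 N = g + c • (g * AV N f) - (c * L f) • g := by
      ext x; simp [u]; ring
    rw [this, hLs.sub, hLs.add, hLs.smul, hLs.smul]
    field_simp
    ring
  simp only [h6]
  have h7 : Tendsto (fun N => (Ls 1 N g - L g) / c + L f * L g) U
      (𝓝 ((L g - L g) / c + L f * L g)) := ((h5.sub_const _).div_const _).add_const _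
  simpa using h7

end Q257.MD
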