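import Pool.Agent.H373R2.NB.Weyl

/-!
An inverse theorem for monomials: if `β s ^ d - γ` is close to an integer for many `s`, then `β`
is close to a rational number with small denominator.
-/

set_option autoImplicit false

namespace Q257.MD

open Finset Polynomial
open Pool.Agent.Helper602.MK (ee)
open Pool.Agent.Helper602.MK.N_J5b (ee_add ee_zero ee_conj norm_ee ee_int ee_nat_mul)
open Pool.Agent.H373R2.NB (Ph IW IW_all Ph_poly)

theorem ee_re (y : ℝ) : (ee y).re = Real.cos (2 * Real.pi * y) := by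
  unfold ee
  have : (2 * Real.pi * y * Complex.I : ℂ) = ((2 * Real.pi * y : ℝ) : ℂ) * Complex.I := by
    push_cast; ring
  rw [this, Complex.exp_ofReal_mul_I_re]

theorem ee_re_ge {y : ℝ} (hy : |y| ≤ 1 / 8) : 1 / 2 ≤ (ee y).re := by
  rw [ee_re]
  have h1 := Real.one_sub_sq_div_two_le_cos (x := 2 * Real.pi * y)
  have h2 : (2 * Real.pi * y) ^ 2 ≤ 1 := by
    have h3 : |2 * Real.pi * y| ≤ 1 := by
      rw [abs_mul, abs_of_pos (by positivity)]
      have := Real.pi_lt_d2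
      have := Real.pi_pos
      nlinarith [abs_nonneg y]
    calc (2 * Real.pi * y) ^ 2 = |2 * Real.pi * y| ^ 2 := (sq_abs _).symm
      _ ≤ 1 := pow_le_one₀ (abs_nonneg _) h3
  linarith

theorem ee_sub_int (x : ℝ) (a : ℤ) : ee (x - a) = ee x := by
  have h := ee_add (x - a) a
  rw [sub_add_cancel, ee_int, mul_one] at h
  exact h.symm

theorem sum_ee_ge (H : ℕ) (x ε : ℝ) (a : ℤ) (hx : |x - a| ≤ ε) (hH : H * ε ≤ 1 / 8) :
    (H : ℝ) / 2 ≤ ‖∑ k ∈ range H, ee (k * x)‖ := by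
  have h1 : (H : ℝ) / 2 ≤ (∑ k ∈ range H, ee (k * x)).re := by
    rw [Complex.re_sum]
    have : (H : ℝ) / 2 = ∑ k ∈ range H, (1 / 2 : ℝ) := by
      rw [sum_const, card_range, nsmul_eq_mul]; ring
    rw [this]
    refine sum_le_sum fun k hk => ?_
    have hk' : (k : ℝ) ≤ H := by exact_mod_cast (mem_range.1 hk).le
    have h2 : ee (k * x) = ee (k * (x - a)) := by
      have : (k : ℝ) * (x - a) = k * x - ((k * a : ℤ) : ℝ) := by push_cast; ring
      rw [this, ee_sub_int]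
    rw [h2]
    apply ee_re_ge
    rw [abs_mul, abs_of_nonneg (Nat.cast_nonneg k)]
    calc (k : ℝ) * |x - a| ≤ H * ε := by gcongr
      _ ≤ 1 / 8 := hH
  exact h1.trans (Complex.re_le_norm _)

/-- first step: a large Weyl sum -/
theorem exists_large (d K : ℕ) (D ε β γ : ℝ) (S : Finset ℕ) (hK : 1 ≤ K) (hD : 1 ≤ D)
    (H : ℕ) (hH1 : 16 * D ≤ H) (hHε : H * ε ≤ 1 / 8) (hS : S ⊆ Ioc K (2 * K))
    (hcard : (K : ℝ) ≤ D * S.card)
    (happ : ∀ s ∈ S, ∃ a : ℤ, |β * (s : ℝ) ^ d - γ - a| ≤ ε) :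
    ∃ j : ℕ, 1 ≤ j ∧ j < H ∧ (K : ℝ) / (8 * D) < ‖∑ s ∈ Ioc K (2 * K), ee (j * (β * (s : ℝ) ^ d))‖ := by
  by_contra hcon
  push Not at hcon
  have hKr : (0 : ℝ) < K := by exact_mod_cast hK
  have hD0 : 0 < D := by linarith
  have hHr : (0 : ℝ) < H := by linarith
  set I := Ioc K (2 * K) with hI
  have hIc : (I.card : ℝ) = K := by
    rw [hI, Nat.card_Ioc]
    have : 2 * K - K = K := by omega
    rw [this]
  set G : ℕ → ℕ → ℂ := fun k k' => ∑ s ∈ I, ee (k * (β * (s : ℝ) ^ d - γ)) *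
    (starRingEnd ℂ) (ee (k' * (β * (s : ℝ) ^ d - γ))) with hG
  have hGle : ∀ k ∈ range H, ∀ k' ∈ range H, ‖G k k'‖ ≤ (if k = k' then (K : ℝ) else 0) + K / (8 * D) := by
    intro k hk k' hk'
    rw [mem_range] at hk hk'
    have hterm : ∀ s : ℕ, ee (k * (β * (s : ℝ) ^ d - γ)) *
        (starRingEnd ℂ) (ee (k' * (β * (s : ℝ) ^ d - γ))) =
        ee ((k - k') * (β * (s : ℝ) ^ d)) * ee (-((k - k') * γ)) := by
      intro s
      rw [ee_conj, ← ee_add, ← ee_add]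
      congr 1; ring
    rcases lt_trichotomy k k' with h | h | h
    · rw [if_neg (by omega), zero_add]
      have e1 : G k k' = (starRingEnd ℂ) (∑ s ∈ I, ee (((k' - k : ℕ) : ℝ) * (β * (s : ℝ) ^ d)))
          * ee (-((k - k') * γ)) := by
        simp only [hG]
        rw [map_sum, sum_mul]
        refine sum_congr rfl fun s _ => ?_
        rw [hterm, ee_conj]
        congr 2
        rw [Nat.cast_sub h.le]; ring
      rw [e1, norm_mul, norm_ee, mul_one, Complex.norm_conj]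
      exact hcon (k' - k) (by omega) (by omega)
    · subst h
      rw [if_pos rfl]
      have : ‖G k k‖ ≤ K := by
        simp only [hG]
        refine (norm_sum_le _ _).trans ?_
        rw [← hIc]
        refine (sum_le_card_nsmul _ _ 1 fun s _ => ?_).trans (by simp)
        rw [norm_mul, Complex.norm_conj, norm_ee, mul_one]
      have h2 : 0 ≤ (K : ℝ) / (8 * D) := by positivity
      linarith
    · rw [if_neg (by omega), zero_add]
      have e1 : G k k' = (∑ s ∈ I, ee (((k - k' : ℕ) : ℝ) * (β * (s : ℝ) ^ d)))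
          * ee (-((k - k') * γ)) := by
        simp only [hG]
        rw [sum_mul]
        refine sum_congr rfl fun s _ => ?_
        rw [hterm]
        congr 2
        rw [Nat.cast_sub h.le]
      rw [e1, norm_mul, norm_ee, mul_one]
      exact hcon (k - k') (by omega) (by omega)
  have hsum : ∑ s ∈ I, ‖∑ k ∈ range H, ee (k * (β * (s : ℝ) ^ d - γ))‖ ^ 2 ≤
      H * K + H ^ 2 * (K / (8 * D)) := by
    have e1 : ((∑ s ∈ I, ‖∑ k ∈ range H, ee (k * (β * (s : ℝ) ^ d - γ))‖ ^ 2 : ℝ) : ℂ) =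
        ∑ k ∈ range H, ∑ k' ∈ range H, G k k' := by
      push_cast
      have : ∀ s ∈ I, ((‖∑ k ∈ range H, ee (k * (β * (s : ℝ) ^ d - γ))‖ : ℂ)) ^ 2 =
          ∑ k ∈ range H, ∑ k' ∈ range H, ee (k * (β * (s : ℝ) ^ d - γ)) *
            (starRingEnd ℂ) (ee (k' * (β * (s : ℝ) ^ d - γ))) := by
        intro s _
        rw [← Complex.mul_conj', map_sum, sum_mul_sum]
      rw [sum_congr rfl this, sum_comm]
      refine sum_congr rfl fun k _ => ?_
      rw [sum_comm]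
    have e2 : ∑ s ∈ I, ‖∑ k ∈ range H, ee (k * (β * (s : ℝ) ^ d - γ))‖ ^ 2 =
        ‖((∑ s ∈ I, ‖∑ k ∈ range H, ee (k * (β * (s : ℝ) ^ d - γ))‖ ^ 2 : ℝ) : ℂ)‖ := by
      rw [Complex.norm_real, Real.norm_of_nonneg (sum_nonneg fun _ _ => by positivity)]
    rw [e2, e1]
    refine (norm_sum_le _ _).trans ?_
    calc ∑ k ∈ range H, ‖∑ k' ∈ range H, G k k'‖
        ≤ ∑ k ∈ range H, (K + H * (K / (8 * D))) := by
          refine sum_le_sum fun k hk => (norm_sum_le _ _).trans ?_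
          refine (sum_le_sum fun k' hk' => hGle k hk k' hk').trans ?_
          rw [sum_add_distrib, sum_ite_eq, if_pos hk, sum_const, card_range, nsmul_eq_mul]
      _ = H * K + H ^ 2 * (K / (8 * D)) := by
          rw [sum_const, card_range, nsmul_eq_mul]; ring
  have hlow : (K : ℝ) / D * (H / 2) ^ 2 ≤
      ∑ s ∈ I, ‖∑ k ∈ range H, ee (k * (β * (s : ℝ) ^ d - γ))‖ ^ 2 := by
    have h1 : (K : ℝ) / D ≤ S.card := by rw [div_le_iff₀ hD0]; linarith
    calc (K : ℝ) / D * (H / 2) ^ 2 ≤ S.card * (H / 2) ^ 2 := by gcongr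
      _ = ∑ s ∈ S, ((H : ℝ) / 2) ^ 2 := by rw [sum_const, nsmul_eq_mul]
      _ ≤ ∑ s ∈ S, ‖∑ k ∈ range H, ee (k * (β * (s : ℝ) ^ d - γ))‖ ^ 2 := by
          refine sum_le_sum fun s hs => ?_
          obtain ⟨a, ha⟩ := happ s hs
          have := sum_ee_ge H (β * (s : ℝ) ^ d - γ) ε a ha hHε
          gcongr
      _ ≤ _ := sum_le_sum_of_subset_of_nonneg hS fun _ _ _ => by positivity
  have h3 := hlow.trans hsum
  have h4 : (K : ℝ) / D * (H / 2) ^ 2 = K * H * (H / (4 * D)) := by field_simp; ring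
  have h5 : (H : ℝ) * K + H ^ 2 * (K / (8 * D)) = K * H * (1 + H / (8 * D)) := by field_simp
  rw [h4, h5] at h3
  have h6 : (H : ℝ) / (4 * D) ≤ 1 + H / (8 * D) := le_of_mul_le_mul_left h3 (by positivity)
  have h7 : (H : ℝ) / (4 * D) = 2 * (H / (8 * D)) := by field_simp; ring
  rw [h7] at h6
  have h8 : (H : ℝ) / (8 * D) ≤ 1 := by linarith
  rw [div_le_one (by positivity)] at h8
  linarith

theorem mono_inv (d : ℕ) (hd : 1 ≤ d) : ∃ C m : ℕ, 1 ≤ C ∧ ∀ (K : ℕ) (D ε β γ : ℝ) (S : Finset ℕ),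
    1 ≤ K → 1 ≤ D → 0 ≤ ε → S ⊆ Ioc K (2 * K) → (K : ℝ) ≤ D * S.card →
    (∀ s ∈ S, ∃ a : ℤ, |β * (s : ℝ) ^ d - γ - a| ≤ ε) → C * D ^ m ≤ K → C * D ^ m * ε ≤ 1 →
    ∃ q : ℕ, 1 ≤ q ∧ (q : ℝ) ≤ C * D ^ m ∧ ∃ a : ℤ, |q * β - a| ≤ C * D ^ m * ε / (K : ℝ) ^ d := by
  obtain ⟨c, m0, hc, hI⟩ := IW_all d hd
  have hfac : 1 ≤ d.factorial := Nat.factorial_pos d
  refine ⟨1000 * (2 ^ (d + 1) + 3) * d.factorial * c ^ 2 * 8 ^ (2 * m0), 2 * m0 + 2, ?_, ?_⟩
  · have : 0 < 1000 * (2 ^ (d + 1) + 3) * d.factorial * c ^ 2 * 8 ^ (2 * m0) := by positivity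
    exact this
  intro K D ε β γ S hK hD hε hS hcard happ hCK hCε
  have hKr : (0 : ℝ) < K := by exact_mod_cast hK
  have hD0 : 0 < D := by linarith
  have hcr : (1 : ℝ) ≤ c := by exact_mod_cast hc
  have hfr : (1 : ℝ) ≤ d.factorial := by exact_mod_cast hfac
  push_cast at hCK hCε ⊢
  set CC : ℝ := 1000 * (2 ^ (d + 1) + 3) * d.factorial * c ^ 2 * 8 ^ (2 * m0) with hCC
  set X0 : ℝ := (c : ℝ) * (8 * D) ^ m0 with hX
  have h8D : (1 : ℝ) ≤ 8 * D := by linarith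
  have hX1 : 1 ≤ X0 := one_le_mul_of_one_le_of_one_le hcr (one_le_pow₀ h8D)
  -- CC * D ^ (2 m0 + 2) = 1000 (2^(d+1)+3) d! X0^2 D^2
  have hCX : CC * D ^ (2 * m0 + 2) = 1000 * (2 ^ (d + 1) + 3) * d.factorial * X0 ^ 2 * D ^ 2 := by
    rw [hCC, hX]; ring
  have h2d : (1 : ℝ) ≤ 2 ^ (d + 1) := one_le_pow₀ (by norm_num)
  set Z : ℝ := CC * D ^ (2 * m0 + 2) with hZ
  have hXX : X0 ≤ X0 ^ 2 := by nlinarith
  have hDD : D ≤ D ^ 2 := by nlinarith
  have hZ1 : 1000 * D ≤ Z := by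
    rw [hCX]
    have e1 : (1 : ℝ) ≤ (2 ^ (d + 1) + 3) * d.factorial * X0 ^ 2 := by
      refine one_le_mul_of_one_le_of_one_le (one_le_mul_of_one_le_of_one_le (by linarith) hfr) ?_
      nlinarith
    calc 1000 * D = 1000 * 1 * D := by ring
      _ ≤ 1000 * ((2 ^ (d + 1) + 3) * d.factorial * X0 ^ 2) * D ^ 2 := by gcongr
      _ = _ := by ring
  set H : ℕ := ⌈16 * D⌉₊ with hH
  have hH1 : 16 * D ≤ H := Nat.le_ceil _
  have hH2 : (H : ℝ) ≤ 17 * D := by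
    have := Nat.ceil_lt_add_one (a := 16 * D) (by positivity)
    linarith
  have hHε : H * ε ≤ 1 / 8 := by
    have : 1000 * D * ε ≤ 1 := le_trans (by gcongr) hCε
    nlinarith
  obtain ⟨j, hj1, hjH, hlarge⟩ := exists_large d K D ε β γ S hK hD H hH1 hHε hS hcard happ
  -- inverse theorem
  have hsumeq : ∑ s ∈ Ioc K (2 * K), ee (j * (β * (s : ℝ) ^ d)) =
      ∑ n ∈ range K, ee (((j : ℝ) * β) * ((((Polynomial.X + C ((K : ℤ) + 1)) ^ d : ℤ[X]).eval (n : ℤ) : ℤ) : ℝ)) := by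
    have e1 : Ioc K (2 * K) = (range K).image (fun n => n + (K + 1)) := by
      ext s
      simp only [mem_Ioc, mem_image, mem_range]
      constructor
      · rintro ⟨h1, h2⟩; exact ⟨s - (K + 1), by omega, by omega⟩
      · rintro ⟨n, h1, rfl⟩; omega
    rw [e1, sum_image fun a _ b _ h => by omega]
    refine sum_congr rfl fun n _ => ?_
    congr 1
    simp only [eval_pow, eval_add, eval_X, eval_C]
    push_cast
    ring
  have hdeg : ((Polynomial.X + C ((K : ℤ) + 1)) ^ d : ℤ[X]).natDegree = d := by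
    rw [natDegree_pow, natDegree_X_add_C, mul_one]
  have hcoef : ((Polynomial.X + C ((K : ℤ) + 1)) ^ d : ℤ[X]).coeff d = 1 := by
    have := (monic_X_add_C ((K : ℤ) + 1)).pow d
    have h2 := this.coeff_natDegree
    rwa [hdeg] at h2
  have hPh := Ph_poly d ((Polynomial.X + C ((K : ℤ) + 1)) ^ d : ℤ[X]) hdeg.le ((j : ℝ) * β)
  rw [hcoef] at hPh
  have hNu : (K : ℝ) ≤ (8 * D) * ‖∑ n ∈ range K, ee (((j : ℝ) * β) *
      ((((Polynomial.X + C ((K : ℤ) + 1)) ^ d : ℤ[X]).eval (n : ℤ) : ℤ) : ℝ))‖ := by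
    rw [← hsumeq]
    rw [div_lt_iff₀ (by positivity)] at hlarge
    linarith
  obtain ⟨q0, hq01, hq0X, a0, ha0⟩ := hI K (8 * D) _ _ hK h8D hPh hNu
  rw [← hX] at hq0X ha0
  set q1 : ℕ := q0 * d.factorial * j with hq1
  have hq1pos : 1 ≤ q1 := Nat.mul_pos (Nat.mul_pos hq01 hfac) hj1
  have hjr : (j : ℝ) ≤ 17 * D := le_trans (by exact_mod_cast hjH.le) hH2
  have hq1le : (q1 : ℝ) ≤ 17 * d.factorial * X0 * D := by
    rw [hq1]; push_cast
    calc (q0 : ℝ) * d.factorial * j ≤ X0 * d.factorial * (17 * D) := by gcongr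
      _ = _ := by ring
  set η : ℝ := q1 * β - a0 with hη
  have hηle : |η| ≤ X0 / (K : ℝ) ^ d := by
    have : η = q0 * (j * β * (d.factorial * ((1 : ℤ) : ℝ))) - a0 := by
      rw [hη, hq1]; push_cast; ring
    rw [this]; exact ha0
  set ε1 : ℝ := q1 * ε with hε1
  have hε10 : 0 ≤ ε1 := by positivity
  have hq1Z : (q1 : ℝ) ≤ Z := by
    refine hq1le.trans ?_
    rw [hCX]
    have e1 : (1 : ℝ) ≤ 2 ^ (d + 1) + 3 := by linarith
    calc 17 * (d.factorial : ℝ) * X0 * D = 17 * 1 * d.factorial * X0 * D := by ring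
      _ ≤ 1000 * (2 ^ (d + 1) + 3) * d.factorial * X0 ^ 2 * D ^ 2 := by gcongr; norm_num
  have hε11 : ε1 ≤ 1 := le_trans (by rw [hε1]; gcongr) hCε
  have happ2 : ∀ s ∈ S, ∃ a : ℤ, |η * (s : ℝ) ^ d - q1 * γ - a| ≤ ε1 := by
    intro s hs
    obtain ⟨a, ha⟩ := happ s hs
    refine ⟨q1 * a - a0 * s ^ d, ?_⟩
    have : η * (s : ℝ) ^ d - q1 * γ - ((q1 * a - a0 * s ^ d : ℤ) : ℝ) =
        q1 * (β * (s : ℝ) ^ d - γ - a) := by rw [hη]; push_cast; ring
    rw [this, abs_mul, abs_of_nonneg (by positivity : (0 : ℝ) ≤ q1), hε1]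
    gcongr
  choose! aa haa using happ2
  -- the set of integers
  set W : ℝ := 2 ^ (d + 1) * X0 + 3 with hW
  have hSr : ∀ s ∈ S, (K : ℝ) < s ∧ (s : ℝ) ≤ 2 * K := by
    intro s hs
    have := mem_Ioc.1 (hS hs)
    exact ⟨by exact_mod_cast this.1, by exact_mod_cast this.2⟩
  have hηs : ∀ s ∈ S, |η * (s : ℝ) ^ d| ≤ 2 ^ d * X0 := by
    intro s hs
    have h1 := (hSr s hs).2
    rw [abs_mul, abs_of_nonneg (by positivity : (0 : ℝ) ≤ (s : ℝ) ^ d)]
    calc |η| * (s : ℝ) ^ d ≤ X0 / (K : ℝ) ^ d * (2 * K) ^ d := by gcongr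
      _ = 2 ^ d * X0 := by rw [mul_pow]; field_simp
  have himg : ((S.image aa).card : ℝ) ≤ W := by
    have h1 : S.image aa ⊆ Finset.Icc ⌈-(q1 * γ) - 2 ^ d * X0 - 1⌉ ⌊-(q1 * γ) + 2 ^ d * X0 + 1⌋ := by
      intro a ha
      obtain ⟨s, hs, rfl⟩ := mem_image.1 ha
      have h2 := abs_le.1 (haa s hs)
      have h3 := abs_le.1 (hηs s hs)
      rw [mem_Icc, Int.ceil_le, Int.le_floor]
      constructor <;> linarith [h2.1, h2.2, h3.1, h3.2]
    have h2 := card_le_card h1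
    rw [Int.card_Icc] at h2
    have h3 : ((⌊-(q1 * γ) + 2 ^ d * X0 + 1⌋ + 1 - ⌈-(q1 * γ) - 2 ^ d * X0 - 1⌉).toNat : ℝ) ≤ W := by
      have h4 : ((⌊-(q1 * γ) + 2 ^ d * X0 + 1⌋ + 1 - ⌈-(q1 * γ) - 2 ^ d * X0 - 1⌉ : ℤ) : ℝ) ≤ W := by
        push_cast
        have h5 := Int.floor_le (-(q1 * γ) + 2 ^ d * X0 + 1)
        have h6 := Int.le_ceil (-(q1 * γ) - 2 ^ d * X0 - 1)
        rw [hW, pow_succ]
        linarith
      rcases le_or_gt 0 (⌊-(q1 * γ) + 2 ^ d * X0 + 1⌋ + 1 - ⌈-(q1 * γ) - 2 ^ d * X0 - 1⌉) with h7 | h7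
      · have : ((⌊-(q1 * γ) + 2 ^ d * X0 + 1⌋ + 1 - ⌈-(q1 * γ) - 2 ^ d * X0 - 1⌉).toNat : ℤ) = _ :=
          Int.toNat_of_nonneg h7
        calc _ = (((⌊-(q1 * γ) + 2 ^ d * X0 + 1⌋ + 1 - ⌈-(q1 * γ) - 2 ^ d * X0 - 1⌉).toNat : ℤ) : ℝ) := by
              push_cast; rfl
          _ ≤ W := by rw [this]; exact h4
      · rw [Int.toNat_of_nonpos h7.le]
        have : 0 ≤ W := by rw [hW]; positivity
        simpa using this
    calc ((S.image aa).card : ℝ) ≤ _ := by exact_mod_cast h2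
      _ ≤ W := h3
  have hW0 : 0 < W := by rw [hW]; positivity
  -- pigeonhole
  have hSpos : (0 : ℝ) < S.card := by
    by_contra h
    push Not at h
    nlinarith
  obtain ⟨a, ha, hfib⟩ : ∃ a ∈ S.image aa, (S.card : ℝ) ≤ W * (S.filter fun s => aa s = a).card := by
    by_contra hcon
    push Not at hcon
    have h1 : (S.card : ℝ) = ∑ a ∈ S.image aa, ((S.filter fun s => aa s = a).card : ℝ) := by
      exact_mod_cast card_eq_sum_card_image aa S
    have hne : (S.image aa).Nonempty := by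
      rw [image_nonempty, ← card_pos]
      exact_mod_cast hSpos
    have h2 : W * S.card < W * S.card := by
      calc W * S.card = ∑ a ∈ S.image aa, W * ((S.filter fun s => aa s = a).card : ℝ) := by
            rw [← mul_sum, ← h1]
        _ < ∑ a ∈ S.image aa, (S.card : ℝ) := sum_lt_sum_of_nonempty hne hcon
        _ = (S.image aa).card * S.card := by rw [sum_const, nsmul_eq_mul]
        _ ≤ W * S.card := by gcongr
    exact lt_irrefl _ h2
  set F := S.filter fun s => aa s = a with hF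
  -- lower bound for the fibre
  have hFK : (K : ℝ) ≤ D * W * F.card := by
    calc (K : ℝ) ≤ D * S.card := hcard
      _ ≤ D * (W * F.card) := by gcongr
      _ = _ := by ring
  have h2DW : 2 * (D * W) ≤ K := by
    refine le_trans ?_ hCK
    rw [hCX, hW]
    have e1 : (1 : ℝ) ≤ d.factorial := hfr
    have e2 : 2 ^ (d + 1) * X0 + 3 ≤ (2 ^ (d + 1) + 3) * X0 ^ 2 := by nlinarith
    calc 2 * (D * (2 ^ (d + 1) * X0 + 3)) ≤ 2 * (D ^ 2 * ((2 ^ (d + 1) + 3) * X0 ^ 2)) := by gcongr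
      _ = 2 * (2 ^ (d + 1) + 3) * 1 * X0 ^ 2 * D ^ 2 := by ring
      _ ≤ 1000 * (2 ^ (d + 1) + 3) * d.factorial * X0 ^ 2 * D ^ 2 := by gcongr; norm_num
  have hDW0 : 0 < D * W := by positivity
  have hF2 : (2 : ℝ) ≤ F.card := by
    by_contra h
    push Not at h
    nlinarith
  have hFne : F.Nonempty := by
    rw [← card_pos]
    have : (0 : ℝ) < F.card := by linarith
    exact_mod_cast this
  set s1 := F.min' hFne with hs1
  set s2 := F.max' hFne with hs2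
  have hs1F : s1 ∈ F := F.min'_mem hFne
  have hs2F : s2 ∈ F := F.max'_mem hFne
  have hs12 : s1 ≤ s2 := F.min'_le _ hs2F
  have hgap : (F.card : ℝ) - 1 ≤ s2 - s1 := by
    have h1 : F ⊆ Finset.Icc s1 s2 := fun s hs => mem_Icc.2 ⟨F.min'_le _ hs, F.le_max' _ hs⟩
    have h2 := card_le_card h1
    rw [Nat.card_Icc] at h2
    have h3 : F.card + s1 ≤ s2 + 1 := by omega
    have h4 : ((F.card : ℝ)) + s1 ≤ s2 + 1 := by exact_mod_cast h3
    linarith
  have hdiff : |η| * ((s2 : ℝ) ^ d - (s1 : ℝ) ^ d) ≤ 2 * ε1 := by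
    have h1 := haa s1 (mem_filter.1 hs1F).1
    have h2 := haa s2 (mem_filter.1 hs2F).1
    rw [(mem_filter.1 hs1F).2] at h1
    rw [(mem_filter.1 hs2F).2] at h2
    have h3 : 0 ≤ (s2 : ℝ) ^ d - (s1 : ℝ) ^ d := by
      have : (s1 : ℝ) ^ d ≤ (s2 : ℝ) ^ d := pow_le_pow_left₀ (by positivity) (by exact_mod_cast hs12) d
      linarith
    calc |η| * ((s2 : ℝ) ^ d - (s1 : ℝ) ^ d) = |η * ((s2 : ℝ) ^ d - (s1 : ℝ) ^ d)| := by
          rw [abs_mul, abs_of_nonneg h3]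
      _ = |(η * (s2 : ℝ) ^ d - q1 * γ - a) - (η * (s1 : ℝ) ^ d - q1 * γ - a)| := by
          congr 1; ring
      _ ≤ |η * (s2 : ℝ) ^ d - q1 * γ - a| + |η * (s1 : ℝ) ^ d - q1 * γ - a| := abs_sub _ _
      _ ≤ 2 * ε1 := by linarith
  have hpow : ((s2 : ℝ) - s1) * (K : ℝ) ^ (d - 1) ≤ (s2 : ℝ) ^ d - (s1 : ℝ) ^ d := by
    obtain ⟨e, rfl⟩ : ∃ e, d = e + 1 := ⟨d - 1, by omega⟩
    rw [Nat.add_sub_cancel]
    have h1 := (hSr s1 (mem_filter.1 hs1F).1).1
    have h2 : (s1 : ℝ) ≤ s2 := by exact_mod_cast hs12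
    have h3 : (K : ℝ) ^ e ≤ (s2 : ℝ) ^ e := pow_le_pow_left₀ hKr.le (by linarith) e
    have h4 : (s1 : ℝ) ^ e ≤ (s2 : ℝ) ^ e := pow_le_pow_left₀ (by positivity) h2 e
    have h5 : ((s2 : ℝ) - s1) * (K : ℝ) ^ e ≤ (s2 - s1) * (s2 : ℝ) ^ e := by
      apply mul_le_mul_of_nonneg_left h3; linarith
    have h6 : (s1 : ℝ) * (s1 : ℝ) ^ e ≤ s1 * (s2 : ℝ) ^ e := by
      apply mul_le_mul_of_nonneg_left h4; positivity
    rw [pow_succ, pow_succ]
    linarith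
  have hfin : |η| * ((K : ℝ) / (2 * (D * W)) * (K : ℝ) ^ (d - 1)) ≤ 2 * ε1 := by
    refine le_trans ?_ hdiff
    gcongr
    refine le_trans ?_ hpow
    gcongr
    rw [div_le_iff₀ (by positivity)]
    have h1 : (F.card : ℝ) ≤ 2 * ((s2 : ℝ) - s1) := by linarith
    calc (K : ℝ) ≤ D * W * F.card := hFK
      _ ≤ D * W * (2 * ((s2 : ℝ) - s1)) := by gcongr
      _ = _ := by ring
  refine ⟨q1, hq1pos, hq1Z, a0, ?_⟩
  rw [← hη, le_div_iff₀ (by positivity)]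
  have hKd : (K : ℝ) / (2 * (D * W)) * (K : ℝ) ^ (d - 1) = (K : ℝ) ^ d / (2 * (D * W)) := by
    obtain ⟨e, rfl⟩ : ∃ e, d = e + 1 := ⟨d - 1, by omega⟩
    rw [Nat.add_sub_cancel, pow_succ]; ring
  rw [hKd] at hfin
  have h1 : |η| * (K : ℝ) ^ d ≤ 2 * ε1 * (2 * (D * W)) := by
    have : |η| * ((K : ℝ) ^ d / (2 * (D * W))) = |η| * (K : ℝ) ^ d / (2 * (D * W)) := by ring
    rw [this, div_le_iff₀ (by positivity)] at hfin
    exact hfin
  refine h1.trans ?_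
  have h2 : 2 * ε1 * (2 * (D * W)) = (4 * D * W * q1) * ε := by rw [hε1]; ring
  rw [h2]
  gcongr
  calc 4 * D * W * q1 ≤ 4 * D * W * (17 * d.factorial * X0 * D) := by gcongr
    _ = 68 * d.factorial * X0 * W * D ^ 2 := by ring
    _ ≤ 68 * d.factorial * X0 * ((2 ^ (d + 1) + 3) * X0) * D ^ 2 := by
        gcongr
        rw [hW]; nlinarith
    _ = 68 * (2 ^ (d + 1) + 3) * d.factorial * X0 ^ 2 * D ^ 2 := by ring
    _ ≤ 1000 * (2 ^ (d + 1) + 3) * d.factorial * X0 ^ 2 * D ^ 2 := by gcongr; norm_num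
    _ = Z := hCX.symm

end Q257.MD
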