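import Pool.Agent.Q257.MD.Mono

/-!
Auxiliary facts on polynomial phases and the core pigeonhole step of the inverse theorem for Weyl
sums over primes.
-/

set_option autoImplicit false

namespace Q257.MD

open Finset
open Pool.Agent.Helper602.MK (ee)
open Pool.Agent.Helper602.MK.N_J5b (ee_add ee_zero ee_conj norm_ee ee_int ee_nat_mul)
open Pool.Agent.H373R2.NB (Ph IW IW_all Ph_poly)

theorem Ph_scale (l : ℕ) : ∀ (d : ℕ) (α : ℝ) (φ : ℕ → ℝ), Ph d α φ →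
    Ph d ((l : ℝ) ^ d * α) (fun m => φ (m * l)) := by
  intro d
  induction d with
  | zero =>
    intro α φ h n
    rw [pow_zero, one_mul]
    exact h (n * l)
  | succ d ih =>
    intro α φ h k
    have h1 := ih ((k * l : ℕ) * α) (fun n => φ (n + k * l) - φ n) (h (k * l))
    have e1 : (k : ℝ) * ((l : ℝ) ^ (d + 1) * α) = (l : ℝ) ^ d * ((k * l : ℕ) * α) := by
      push_cast; ring
    have e2 : (fun n => φ ((n + k) * l) - φ (n * l)) =
        fun m => (fun n => φ (n + k * l) - φ n) (m * l) := by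
      funext m
      simp only [add_mul]
    show Ph d _ (fun n => φ ((n + k) * l) - φ (n * l))
    rw [e1, e2]
    exact h1

theorem Ph_shift (s : ℕ) : ∀ (d : ℕ) (α : ℝ) (φ : ℕ → ℝ), Ph d α φ →
    Ph d α (fun m => φ (m + s)) := by
  intro d
  induction d with
  | zero => intro α φ h n; exact h (n + s)
  | succ d ih =>
    intro α φ h k
    have h1 := ih (k * α) (fun n => φ (n + k) - φ n) (h k)
    have e2 : (fun n => φ (n + k + s) - φ (n + s)) =
        fun m => (fun n => φ (n + k) - φ n) (m + s) := by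
      funext m
      simp only
      rw [add_right_comm]
    show Ph d _ (fun n => φ (n + k + s) - φ (n + s))
    rw [e2]
    exact h1

theorem Ph_sub : ∀ (d : ℕ) (α β : ℝ) (φ ψ : ℕ → ℝ), Ph d α φ → Ph d β ψ →
    Ph d (α - β) (fun m => φ m - ψ m) := by
  intro d
  induction d with
  | zero =>
    intro α β φ ψ h h' n
    show φ n - ψ n = α - β
    rw [h n, h' n]
  | succ d ih =>
    intro α β φ ψ h h' k
    have h1 := ih (k * α) (k * β) _ _ (h k) (h' k)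
    have e2 : (fun n => (φ (n + k) - ψ (n + k)) - (φ n - ψ n)) =
        fun m => (φ (m + k) - φ m) - (ψ (m + k) - ψ m) := by
      funext m; ring
    show Ph d _ (fun n => (φ (n + k) - ψ (n + k)) - (φ n - ψ n))
    rw [e2, mul_sub]
    exact h1

theorem Ph_add (d : ℕ) (α β : ℝ) (φ ψ : ℕ → ℝ) (h : Ph d α φ) (h' : Ph d β ψ) :
    Ph d (α + β) (fun m => φ m + ψ m) := by
  have h0 : ∀ (d : ℕ), Ph d 0 (fun _ => (0 : ℝ)) := by
    intro d
    induction d with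
    | zero => intro n; rfl
    | succ d ih => intro k; simpa using ih
  have h1 := Ph_sub d α (0 - β) φ _ h (Ph_sub d 0 β _ _ (h0 d) h')
  have e : (fun m => φ m - (0 - ψ m)) = fun m => φ m + ψ m := by funext m; ring
  rw [e] at h1
  have e2 : α - (0 - β) = α + β := by ring
  rwa [e2] at h1

/-- phases of the linear functions, seen in degree `d` -/
theorem Ph_lin (d : ℕ) (hd : 1 ≤ d) (ρ : ℝ) : Ph d (if d = 1 then ρ else 0) (fun n => ρ * n) := by
  have h := Ph_poly d (Polynomial.X) (by rw [Polynomial.natDegree_X]; exact hd) ρ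
  have e1 : (fun n : ℕ => ρ * (((Polynomial.X : Polynomial ℤ).eval (n : ℤ) : ℤ) : ℝ)) =
      fun n : ℕ => ρ * n := by
    funext n; simp
  rw [e1] at h
  by_cases h1 : d = 1
  · subst h1
    simpa using h
  · rw [if_neg h1]
    rw [Polynomial.coeff_X, if_neg (fun h => h1 h.symm)] at h
    simpa using h

/-- inverse theorem on an interval -/
theorem inv_Ioc {d : ℕ} {c m : ℕ}
    (hI : ∀ (N : ℕ) (u α : ℝ) (φ : ℕ → ℝ), 1 ≤ N → 1 ≤ u → Ph d α φ →
      (N : ℝ) ≤ u * ‖∑ n ∈ range N, ee (φ n)‖ →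
      ∃ q : ℕ, 1 ≤ q ∧ (q : ℝ) ≤ c * u ^ m ∧ ∃ a : ℤ, |q * α - a| ≤ c * u ^ m / (N : ℝ) ^ d)
    (s t : ℕ) (hst : s < t) (u α : ℝ) (φ : ℕ → ℝ) (hu : 1 ≤ u) (hφ : Ph d α φ)
    (h : ((t : ℝ) - s) ≤ u * ‖∑ n ∈ Ioc s t, ee (φ n)‖) :
    ∃ q : ℕ, 1 ≤ q ∧ (q : ℝ) ≤ c * u ^ m ∧ ∃ a : ℤ,
      |q * α - a| ≤ c * u ^ m / ((t : ℝ) - s) ^ d := by
  have e1 : Ioc s t = (range (t - s)).image (fun n => n + (s + 1)) := by
    ext k
    simp only [mem_Ioc, mem_image, mem_range]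
    constructor
    · rintro ⟨h1, h2⟩; exact ⟨k - (s + 1), by omega, by omega⟩
    · rintro ⟨n, h1, rfl⟩; omega
  have e2 : ∑ n ∈ Ioc s t, ee (φ n) = ∑ n ∈ range (t - s), ee (φ (n + (s + 1))) := by
    rw [e1, sum_image fun a _ b _ h => by omega]
  have e3 : ((t - s : ℕ) : ℝ) = (t : ℝ) - s := by rw [Nat.cast_sub hst.le]
  rw [e2] at h
  have := hI (t - s) u α (fun n => φ (n + (s + 1))) (by omega) hu (Ph_shift (s + 1) d α φ hφ)
    (by rw [e3]; exact h)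
  rw [e3] at this
  exact this

/-- pigeonhole and the inverse theorem for monomials -/
theorem core_inv (d : ℕ) (hd : 1 ≤ d) : ∃ C m : ℕ, 1 ≤ C ∧ ∀ (K : ℕ) (D Q ε α γ : ℝ) (S : Finset ℕ),
    1 ≤ K → 1 ≤ D → 1 ≤ Q → 0 ≤ ε → S ⊆ Ioc K (2 * K) → (K : ℝ) ≤ D * S.card →
    (∀ s ∈ S, ∃ q : ℕ, 1 ≤ q ∧ (q : ℝ) ≤ Q ∧ ∃ a : ℤ, |q * (α * (s : ℝ) ^ d - γ) - a| ≤ ε) →
    C * (D * Q) ^ m ≤ K → C * (D * Q) ^ m * ε ≤ 1 →
    ∃ q : ℕ, 1 ≤ q ∧ (q : ℝ) ≤ C * (D * Q) ^ m * Q ∧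
      ∃ a : ℤ, |q * α - a| ≤ C * (D * Q) ^ m * ε / (K : ℝ) ^ d := by
  obtain ⟨C, m, hC, hM⟩ := mono_inv d hd
  refine ⟨C, m, hC, ?_⟩
  intro K D Q ε α γ S hK hD hQ hε hS hcard happ hCK hCε
  choose! qq hq1 hqQ aa haa using happ
  have hKr : (0 : ℝ) < K := by exact_mod_cast hK
  have hmaps : ∀ s ∈ S, qq s ∈ Icc 1 ⌊Q⌋₊ := fun s hs =>
    mem_Icc.2 ⟨hq1 s hs, Nat.le_floor (hqQ s hs)⟩
  have hSpos : (0 : ℝ) < S.card := by
    by_contra h
    push Not at h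
    nlinarith
  have hfl : 1 ≤ ⌊Q⌋₊ := Nat.le_floor (by simpa using hQ)
  obtain ⟨q0, hq0, hfib⟩ : ∃ q0 ∈ Icc 1 ⌊Q⌋₊,
      (S.card : ℝ) ≤ Q * (S.filter fun s => qq s = q0).card := by
    by_contra hcon
    push Not at hcon
    have h1 : (S.card : ℝ) = ∑ a ∈ Icc 1 ⌊Q⌋₊, ((S.filter fun s => qq s = a).card : ℝ) := by
      exact_mod_cast card_eq_sum_card_fiberwise hmaps
    have hne : (Icc 1 ⌊Q⌋₊).Nonempty := ⟨1, mem_Icc.2 ⟨le_rfl, hfl⟩⟩
    have h2 : Q * S.card < Q * S.card := by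
      calc Q * S.card = ∑ a ∈ Icc 1 ⌊Q⌋₊, Q * ((S.filter fun s => qq s = a).card : ℝ) := by
            rw [← mul_sum, ← h1]
        _ < ∑ a ∈ Icc 1 ⌊Q⌋₊, (S.card : ℝ) := sum_lt_sum_of_nonempty hne hcon
        _ = ⌊Q⌋₊ * S.card := by rw [sum_const, nsmul_eq_mul, Nat.card_Icc]; simp
        _ ≤ Q * S.card := by
            gcongr
            exact Nat.floor_le (by linarith)
    exact lt_irrefl _ h2
  have hq0' := mem_Icc.1 hq0
  have hq0Q : (q0 : ℝ) ≤ Q := le_trans (by exact_mod_cast hq0'.2) (Nat.floor_le (by linarith))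
  obtain ⟨q, hq, hqle, a, ha⟩ := hM K (D * Q) ε (q0 * α) (q0 * γ) (S.filter fun s => qq s = q0) hK
    (one_le_mul_of_one_le_of_one_le hD hQ) hε ((filter_subset _ _).trans hS)
    (by
      calc (K : ℝ) ≤ D * S.card := hcard
        _ ≤ D * (Q * (S.filter fun s => qq s = q0).card) := by gcongr
        _ = _ := by ring)
    (by
      intro s hs
      rw [mem_filter] at hs
      refine ⟨aa s, ?_⟩
      have := haa s hs.1
      rw [hs.2] at this
      have e : (q0 : ℝ) * α * (s : ℝ) ^ d - q0 * γ - aa s = q0 * (α * (s : ℝ) ^ d - γ) - aa s := by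
        ring
      rw [e]; exact this)
    hCK hCε
  refine ⟨q * q0, Nat.mul_pos hq hq0'.1, ?_, a, ?_⟩
  · push_cast
    gcongr
  · have e : ((q * q0 : ℕ) : ℝ) * α - a = q * (q0 * α) - a := by push_cast; ring
    rw [e]; exact ha

end Q257.MD
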