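import Pool.Agent.Q257.MD.Window
import Pool.Agent.H373R2.NB.Weyl

/-!
Equidistribution of polynomial values along arithmetic progressions.
-/

set_option autoImplicit false

namespace Q257.MD

open Filter Topology Finset Polynomial
open Pool.Agent.Helper602.MK (ee)
open Pool.Agent.H373R2.NB (Ph IW IW_all Ph_poly)

theorem irr_gap (α : ℝ) (hα : Irrational α) (Q : ℕ) :
    ∃ δ : ℝ, 0 < δ ∧ ∀ q : ℕ, 1 ≤ q → q ≤ Q → ∀ a : ℤ, δ ≤ |q * α - a| := by
  induction Q with
  | zero => exact ⟨1, one_pos, fun q h1 h2 => by omega⟩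
  | succ Q ih =>
    obtain ⟨δ, hδ, h⟩ := ih
    have hirr : Irrational (((Q + 1 : ℕ) : ℝ) * α) := hα.natCast_mul (Nat.succ_ne_zero Q)
    set β := |((Q + 1 : ℕ) : ℝ) * α - round (((Q + 1 : ℕ) : ℝ) * α)| with hβ
    have hβ0 : 0 < β := by
      rw [hβ, abs_pos, sub_ne_zero]
      intro hh
      exact hirr ⟨(round (((Q + 1 : ℕ) : ℝ) * α) : ℚ), by push_cast at hh ⊢; exact hh.symm⟩
    refine ⟨min δ β, lt_min hδ hβ0, fun q h1 h2 a => ?_⟩
    rcases Nat.lt_or_ge q (Q + 1) with h3 | h3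
    · exact (min_le_left _ _).trans (h q h1 (by omega) a)
    · have : q = Q + 1 := by omega
      subst this
      exact (min_le_right _ _).trans (round_le _ a)

theorem weyl_zero (f : ℤ[X]) (hd : 1 ≤ f.natDegree) (θ : ℝ) (hθ : Irrational θ) :
    Tendsto (fun N : ℕ => ‖∑ n ∈ range N, ee (θ * ((f.eval (n : ℤ) : ℤ) : ℝ))‖ / N) atTop (𝓝 0) := by
  set d := f.natDegree with hdd
  obtain ⟨c, m, hc, hI⟩ := IW_all d hd
  have hlc : f.coeff d ≠ 0 := by
    rw [hdd]; exact leadingCoeff_ne_zero.2 (by rintro rfl; simp at hdd; omega)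
  set α : ℝ := θ * ((d.factorial : ℝ) * (f.coeff d : ℤ)) with hα
  have hirr : Irrational α := by
    have h1 : ((d.factorial : ℤ) * f.coeff d) ≠ 0 :=
      mul_ne_zero (by exact_mod_cast (Nat.factorial_pos d).ne') hlc
    have := hθ.intCast_mul h1
    rw [hα, mul_comm]
    push_cast at this
    exact this
  rw [Metric.tendsto_atTop]
  intro ε hε
  set u : ℝ := max 1 (1 / ε) with hu
  have hu1 : 1 ≤ u := le_max_left _ _
  set Q : ℕ := ⌈(c : ℝ) * u ^ m⌉₊ with hQ
  obtain ⟨δ, hδ, hgap⟩ := irr_gap α hirr Q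
  obtain ⟨N0, hN0⟩ : ∃ N0 : ℕ, (c : ℝ) * u ^ m / δ + 1 ≤ N0 := exists_nat_ge _
  refine ⟨max N0 1, fun N hN => ?_⟩
  have hN1 : 1 ≤ N := (le_max_right _ _).trans hN
  have hNN0 : N0 ≤ N := (le_max_left _ _).trans hN
  have hNr : (0 : ℝ) < N := by exact_mod_cast hN1
  rw [Real.dist_eq, sub_zero, abs_of_nonneg (by positivity)]
  by_contra hcon
  push Not at hcon
  have h1 : (N : ℝ) ≤ u * ‖∑ n ∈ range N, ee (θ * ((f.eval (n : ℤ) : ℤ) : ℝ))‖ := by
    rw [le_div_iff₀ hNr] at hcon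
    have h2 : 1 / ε ≤ u := le_max_right _ _
    calc (N : ℝ) = 1 / ε * (ε * N) := by field_simp
      _ ≤ u * ‖∑ n ∈ range N, ee (θ * ((f.eval (n : ℤ) : ℤ) : ℝ))‖ := by gcongr
  obtain ⟨q, hq1, hqQ, a, ha⟩ := hI N u α _ hN1 hu1 (Ph_poly d f le_rfl θ) h1
  have h2 : q ≤ Q := by
    rw [hQ]; exact_mod_cast hqQ.trans (Nat.le_ceil _)
  have h3 := hgap q hq1 h2 a
  have h4 : (c : ℝ) * u ^ m / (N : ℝ) ^ d ≤ c * u ^ m / N := by
    have hNr1 : (1 : ℝ) ≤ N := by exact_mod_cast hN1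
    have : (N : ℝ) ≤ (N : ℝ) ^ d := by
      calc (N : ℝ) = (N : ℝ) ^ 1 := (pow_one _).symm
        _ ≤ (N : ℝ) ^ d := pow_le_pow_right₀ hNr1 hd
    gcongr
  have h5 : (c : ℝ) * u ^ m / N < δ := by
    rw [div_lt_iff₀ hNr]
    have h6 : (c : ℝ) * u ^ m / δ + 1 ≤ N := hN0.trans (by exact_mod_cast hNN0)
    have h7 : (c : ℝ) * u ^ m / δ < N := by linarith
    rw [div_lt_iff₀ hδ] at h7
    linarith
  linarith

theorem irr_of_notMem_Rt {x : ℝ} (hx : x ∉ Rt) : Irrational (x / (2 * Real.pi)) := by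
  rintro ⟨q, hq⟩
  apply hx
  have hden : (q.den : ℝ) ≠ 0 := by exact_mod_cast q.den_nz
  have hpi : (2 * Real.pi : ℝ) ≠ 0 := by positivity
  refine Set.mem_iUnion.2 ⟨q.den, ?_⟩
  refine At_mono (q := q.den) (Nat.dvd_factorial q.den_pos le_rfl) ⟨q.num, ?_⟩
  have h1 : x = q * (2 * Real.pi) := by rw [hq]; field_simp
  rw [h1]
  have h2 : (q.den : ℝ) * q = q.num := by
    have : ((q.den * q : ℚ) : ℝ) = ((q.num : ℚ) : ℝ) := by rw [Rat.den_mul_eq_num]
    push_cast at this
    exact this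
  linear_combination (2 * Real.pi) * h2

theorem eval_dvd (p : ℤ[X]) (M : ℕ) (b t : ℤ) (h : (M : ℤ) ∣ t - b) :
    (M : ℤ) ∣ p.eval t - p.eval b := h.trans (p.sub_dvd_eval_sub t b)

theorem equi_univ (p : ℤ[X]) (hp : 1 ≤ p.natDegree) (M : ℕ) (hM : 0 < M) (b : ℤ) :
    EquiAP Set.univ (fun t => p.eval t) M b := by
  classical
  -- avoid the roots
  have hp0 : p ≠ 0 := by rintro rfl; simp at hp
  obtain ⟨n0, hn0⟩ : ∃ n0 : ℕ, ∀ n : ℕ, n0 ≤ n → p.eval (b + M * n) ≠ 0 := by
    have hfin : {x : ℤ | p.IsRoot x}.Finite := by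
      have := p.roots.toFinset.finite_toSet
      refine this.subset fun x hx => ?_
      simp [hp0, hx]
      exact hx
    have hinj : Function.Injective fun n : ℕ => b + (M : ℤ) * n := by
      intro x y hxy
      have : (M : ℤ) * x = M * y := by simpa using hxy
      have h2 := mul_left_cancel₀ (by exact_mod_cast hM.ne') this
      exact_mod_cast h2
    have hfin2 : {n : ℕ | p.IsRoot (b + M * n)}.Finite := hfin.preimage hinj.injOn
    obtain ⟨B, hB⟩ := hfin2.bddAbove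
    refine ⟨B + 1, fun n hn h => ?_⟩
    have := hB (show n ∈ {n : ℕ | p.IsRoot (b + M * n)} from h)
    omega
  set e : ℕ → ℤ := fun n => b + M * ((n0 : ℤ) + n) with he
  have heinj : Function.Injective e := by
    intro x y hxy
    have : (M : ℤ) * (n0 + x) = M * (n0 + y) := by simpa [he] using hxy
    have h2 := mul_left_cancel₀ (by exact_mod_cast hM.ne') this
    have : (x : ℤ) = y := by linarith
    exact_mod_cast this
  refine ⟨fun j => (range (j + 1)).image e, fun j _ => 1 / ((j : ℝ) + 1), fun j t _ => by positivity,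
    fun j => ?_, fun j t ht => ?_, fun x hx => ?_⟩
  · rw [Finset.sum_const, Finset.card_image_of_injective _ heinj, card_range, nsmul_eq_mul]
    push_cast
    field_simp
  · obtain ⟨n, _, rfl⟩ := Finset.mem_image.1 ht
    refine ⟨Set.mem_univ _, ?_, ?_⟩
    · have := hn0 (n0 + n) (by omega)
      simp only [he]
      push_cast at this
      exact this
    · simp only [he]; exact ⟨(n0 : ℤ) + n, by ring⟩
  · set f : ℤ[X] := p.comp (C (M : ℤ) * X + C (b + M * n0)) with hf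
    have hfd : f.natDegree = p.natDegree := by
      rw [hf, natDegree_comp, natDegree_linear (by exact_mod_cast hM.ne'), mul_one]
    have hw := weyl_zero f (by rw [hfd]; exact hp) _ (irr_of_notMem_Rt hx)
    have hw2 := hw.comp (tendsto_add_atTop_nat 1)
    rw [tendsto_zero_iff_norm_tendsto_zero]
    refine hw2.congr fun j => ?_
    simp only [Function.comp, trig]
    rw [Finset.sum_image fun a _ b _ h => heinj h]
    rw [← Finset.mul_sum, norm_mul]
    have e1 : ‖((1 / ((j : ℝ) + 1) : ℝ) : ℂ)‖ = 1 / ((j : ℝ) + 1) := by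
      rw [Complex.norm_real, Real.norm_eq_abs, abs_of_pos (by positivity)]
    rw [e1, one_div, inv_mul_eq_div]
    push_cast
    congr 2
    refine Finset.sum_congr rfl fun n _ => ?_
    have e2 : f.eval (n : ℤ) = p.eval (e n) := by
      rw [hf, eval_comp]
      simp only [eval_add, eval_mul, eval_C, eval_X, he]
      congr 1; ring
    rw [e2]
    unfold ee
    congr 1
    push_cast
    have hpi : (Real.pi : ℂ) ≠ 0 := Complex.ofReal_ne_zero.2 Real.pi_ne_zero
    field_simp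

end Q257.MD
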