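import Pool.Agent.Q257.MD.PMajor
import Pool.Agent.Q257.MD.WeylZ

/-!
Equidistribution of polynomial values at the primes of an arithmetic progression.
-/

set_option autoImplicit false

namespace Q257.MD

open Finset Polynomial Filter Topology
open Pool.Agent.Helper602.MK (ee)
open Pool.Agent.Helper602.MK.N_J5b (ee_add ee_zero ee_conj norm_ee ee_int ee_nat_mul ee_eq_one_iff)
open Pool.Agent.H373R2.T7 (lam_ap)

theorem GG_small (p : ℤ[X]) (hp : 1 ≤ p.natDegree) (M : ℕ) (hM : 0 < M) (b : ℤ) (ε : ℝ)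
    (hε : 0 < ε) : ∃ Q0 : ℕ, ∀ q : ℕ, Q0 ≤ q → ∀ a : ℤ, IsCoprime a (q : ℤ) →
    ‖GG p M b q a‖ ≤ ε := by
  obtain ⟨B, N1, hmin⟩ := minor p hp M hM b
  obtain ⟨N2, hmaj⟩ := major p hp M hM b (B + 2)
  obtain ⟨N3, h3⟩ := ev_pow_le 2 (2 * B + 2)
  set X0 : ℝ := max (max (N1 : ℝ) N2) (max (max (N3 : ℝ) (2 ^ (B + 2))) (9 / ε + 2)) + 1 with hX0
  refine ⟨⌈X0 ^ (B + 1)⌉₊ + 2, ?_⟩
  intro q hq a hcop
  have hq1 : 1 ≤ q := by omega
  have hqr : (0 : ℝ) < q := by exact_mod_cast hq1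
  have hX0pos : 0 < X0 := by
    have : (0 : ℝ) ≤ max (max (N1 : ℝ) N2) (max (max (N3 : ℝ) (2 ^ (B + 2))) (9 / ε + 2)) :=
      le_max_of_le_left (le_max_of_le_left (Nat.cast_nonneg _))
    linarith
  set x : ℝ := (q : ℝ) ^ ((1 : ℝ) / (B + 1 : ℕ)) with hx
  have hx0 : 0 ≤ x := by positivity
  have hxq : x ^ (B + 1) = q := by
    rw [hx, ← Real.rpow_natCast, ← Real.rpow_mul hqr.le]
    rw [one_div, inv_mul_cancel₀ (by positivity), Real.rpow_one]
  have hxX : X0 ≤ x := by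
    have h1 : X0 ^ (B + 1) ≤ x ^ (B + 1) := by
      rw [hxq]
      refine (Nat.le_ceil _).trans ?_
      exact_mod_cast (by omega : ⌈X0 ^ (B + 1)⌉₊ ≤ q)
    exact le_of_pow_le_pow_left₀ (by omega) hx0 h1
  have g1 : (N1 : ℝ) ≤ x := by
    have : (N1 : ℝ) ≤ max (max (N1 : ℝ) N2) (max (max (N3 : ℝ) (2 ^ (B + 2))) (9 / ε + 2)) :=
      le_max_of_le_left (le_max_left _ _)
    linarith
  have g2 : (N2 : ℝ) ≤ x := by
    have : (N2 : ℝ) ≤ max (max (N1 : ℝ) N2) (max (max (N3 : ℝ) (2 ^ (B + 2))) (9 / ε + 2)) :=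
      le_max_of_le_left (le_max_right _ _)
    linarith
  have g3 : (N3 : ℝ) ≤ x := by
    have : (N3 : ℝ) ≤ max (max (N1 : ℝ) N2) (max (max (N3 : ℝ) (2 ^ (B + 2))) (9 / ε + 2)) :=
      le_max_of_le_right (le_max_of_le_left (le_max_left _ _))
    linarith
  have g4 : (2 : ℝ) ^ (B + 2) ≤ x := by
    have : (2 : ℝ) ^ (B + 2) ≤ max (max (N1 : ℝ) N2) (max (max (N3 : ℝ) (2 ^ (B + 2))) (9 / ε + 2)) :=
      le_max_of_le_right (le_max_of_le_left (le_max_right _ _))
    linarith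
  have g5 : 9 / ε + 2 ≤ x := by
    have : 9 / ε + 2 ≤ max (max (N1 : ℝ) N2) (max (max (N3 : ℝ) (2 ^ (B + 2))) (9 / ε + 2)) :=
      le_max_of_le_right (le_max_right _ _)
    linarith
  have h9 : 0 < 9 / ε := by positivity
  have hx2 : 2 ≤ x := by linarith
  set N : ℕ := ⌊Real.exp x⌋₊ with hN
  have hNle : (N : ℝ) ≤ Real.exp x := Nat.floor_le (Real.exp_pos x).le
  have hNgt : Real.exp x < N + 1 := Nat.lt_floor_add_one _
  have hexp : x + 1 ≤ Real.exp x := Real.add_one_le_exp x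
  have hNx : x ≤ N := by linarith
  have hNpos : (0 : ℝ) < N := by linarith
  have hN1 : (1 : ℝ) ≤ N := by linarith
  have hLx : Real.log N ≤ x := by
    have := Real.log_le_log hNpos hNle
    rwa [Real.log_exp] at this
  have hLx2 : x - 1 ≤ Real.log N := by
    have h4 : Real.exp (x - 1) ≤ N := by
      have h5 : Real.exp (x - 1) * 2 ≤ Real.exp x := by
        have : Real.exp x = Real.exp (x - 1) * Real.exp 1 := by rw [← Real.exp_add]; ring_nf
        rw [this]
        have h6 : (2 : ℝ) ≤ Real.exp 1 := by have := Real.add_one_le_exp (1 : ℝ); linarith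
        gcongr
      have h7 : 1 ≤ Real.exp (x - 1) := Real.one_le_exp (by linarith)
      linarith
    have := Real.log_le_log (Real.exp_pos _) h4
    rwa [Real.log_exp] at this
  have hN1' : N1 ≤ N := by exact_mod_cast g1.trans hNx
  have hN2' : N2 ≤ N := by exact_mod_cast g2.trans hNx
  have hN3' : N3 ≤ N := by exact_mod_cast g3.trans hNx
  set L := Real.log N with hL
  have hL1 : 1 ≤ L := by linarith
  have hL0 : 0 < L := by linarith
  -- (log N)^B < q ≤ (log N)^(B+2)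
  have hLB : L ^ B < q := by
    rw [← hxq, pow_succ]
    have h4 : L ^ B ≤ x ^ B := pow_le_pow_left₀ hL0.le hLx B
    have h5 : 0 < x ^ B := by positivity
    nlinarith
  have hqL : (q : ℝ) ≤ L ^ (B + 2) := by
    have h4 : x / 2 ≤ L := by linarith
    have h5 : (x / 2) ^ (B + 2) ≤ L ^ (B + 2) := pow_le_pow_left₀ (by positivity) h4 _
    refine le_trans ?_ h5
    rw [← hxq, div_pow, le_div_iff₀ (by positivity)]
    calc x ^ (B + 1) * 2 ^ (B + 2) ≤ x ^ (B + 1) * x := by gcongr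
      _ = x ^ (B + 2) := by ring
  have hzero : |(q : ℝ) * ((a : ℝ) / q) - a| ≤ L ^ (B + 2) / (N : ℝ) ^ p.natDegree := by
    have : (q : ℝ) * ((a : ℝ) / q) - a = 0 := by field_simp; ring
    rw [this, abs_zero]; positivity
  have hmaj' := hmaj N hN2' q a ((a : ℝ) / q) hq1 hqL hzero
  have hone : ∑ n ∈ Icc 1 N, ee (((a : ℝ) / q - a / q) * ((p.eval (n : ℤ) : ℤ) : ℝ)) = N := by
    simp only [sub_self, zero_mul, ee_zero, sum_const, Nat.card_Icc, Nat.add_sub_cancel,
      nsmul_eq_mul, mul_one]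
  rw [hone] at hmaj'
  rcases hmin N hN1' ((a : ℝ) / q) with h | ⟨q', hq'1, hq'L, a', ha'⟩
  · have h4 : ‖GG p M b q a * N‖ ≤ 9 * N / L := by
      have h5 : GG p M b q a * N = ∑ n ∈ Icc 1 N, FF p M b ((a : ℝ) / q) n -
          (∑ n ∈ Icc 1 N, FF p M b ((a : ℝ) / q) n - GG p M b q a * N) := by ring
      rw [h5]
      refine (norm_sub_le _ _).trans ?_
      calc _ ≤ 8 * N / L + N / L := add_le_add h hmaj'
        _ = _ := by ring
    rw [norm_mul, Complex.norm_natCast] at h4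
    have h6 : ‖GG p M b q a‖ ≤ 9 / L := by
      rw [le_div_iff₀ hL0]
      rw [le_div_iff₀ hL0] at h4
      by_contra hcon
      push Not at hcon
      nlinarith
    refine h6.trans ?_
    rw [div_le_iff₀ hL0]
    have h7 : 9 / ε ≤ L := by linarith
    rw [div_le_iff₀ hε] at h7
    linarith
  · exfalso
    have hq'q : (q' : ℝ) < q := hq'L.trans_lt hLB
    have hq'q' : q' < q := by exact_mod_cast hq'q
    set k : ℤ := q' * a - a' * q with hk
    have hkne : k ≠ 0 := by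
      intro h0
      have h4 : (q : ℤ) ∣ q' * a := ⟨a', by rw [hk] at h0; linarith⟩
      have h5 : (q : ℤ) ∣ q' := hcop.symm.dvd_of_dvd_mul_right h4
      have h6 : q ∣ q' := by exact_mod_cast h5
      exact absurd (Nat.le_of_dvd (by omega) h6) (by omega)
    have hk1 : (1 : ℝ) ≤ |(k : ℝ)| := by
      have : 1 ≤ |k| := Int.one_le_abs hkne
      exact_mod_cast this
    have hkeq : (q' : ℝ) * ((a : ℝ) / q) - a' = k / q := by
      rw [hk]; push_cast; field_simp
    rw [hkeq, abs_div, abs_of_pos hqr, div_le_iff₀ hqr] at ha'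
    have h8 : (1 : ℝ) ≤ L ^ B / (N : ℝ) ^ p.natDegree * L ^ (B + 2) := by
      refine hk1.trans (ha'.trans ?_)
      gcongr
    have h9 : (N : ℝ) ^ p.natDegree ≤ L ^ (2 * B + 2) := by
      have e : L ^ B / (N : ℝ) ^ p.natDegree * L ^ (B + 2) = L ^ (2 * B + 2) / (N : ℝ) ^ p.natDegree := by
        rw [div_mul_eq_mul_div]
        congr 1
        ring
      rw [e, le_div_iff₀ (by positivity), one_mul] at h8
      exact h8
    have h10 : (N : ℝ) ≤ (N : ℝ) ^ p.natDegree := le_self_pow₀ hN1 (by omega)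
    have h11 := h3 N hN3'
    have h12 : 0 < L ^ (2 * B + 2) := by positivity
    linarith

/-- equidistribution with von Mangoldt weights -/
theorem lam_zero (p : ℤ[X]) (hp : 1 ≤ p.natDegree) (M : ℕ) (hM : 0 < M) (b : ℤ) (θ : ℝ)
    (hθ : Irrational θ) :
    Tendsto (fun N : ℕ => ‖∑ n ∈ Icc 1 N, FF p M b θ n‖ / N) atTop (𝓝 0) := by
  rw [Metric.tendsto_atTop]
  intro ε hε
  obtain ⟨Q0, hQ0⟩ := GG_small p hp M hM b (ε / 4) (by positivity)
  obtain ⟨δ, hδ, hgap⟩ := irr_gap θ hθ Q0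
  obtain ⟨B, N1, hmin⟩ := minor p hp M hM b
  obtain ⟨N2, hmaj⟩ := major p hp M hM b B
  obtain ⟨N3, h3⟩ := ev_pow_le (2 / δ) B
  obtain ⟨N4, h4⟩ := ev_log_ge (32 / ε + 1)
  refine ⟨max (max N1 N2) (max (max N3 N4) 3), fun N hN => ?_⟩
  have hN1 := le_trans (le_trans (le_max_left _ _) (le_max_left _ _)) hN
  have hN2 := le_trans (le_trans (le_max_right _ _) (le_max_left _ _)) hN
  have hN3 := h3 N (le_trans (le_trans (le_max_left _ _) (le_trans (le_max_left _ _) (le_max_right _ _))) hN)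
  have hN4 := h4 N (le_trans (le_trans (le_max_right _ _) (le_trans (le_max_left _ _) (le_max_right _ _))) hN)
  have hN5 : 3 ≤ N := le_trans (le_trans (le_max_right _ _) (le_max_right _ _)) hN
  have hNr : (0 : ℝ) < N := by
    have : 0 < N := by omega
    exact_mod_cast this
  have hNr1 : (1 : ℝ) ≤ N := by
    have : 1 ≤ N := by omega
    exact_mod_cast this
  set L := Real.log N with hL
  have h32 : 0 < 32 / ε := by positivity
  have hL0 : 0 < L := by linarith
  have hL1 : 1 ≤ L := by linarith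
  rw [Real.dist_eq, sub_zero, abs_of_nonneg (by positivity), div_lt_iff₀ hNr]
  have hNL : (N : ℝ) / L ≤ ε / 32 * N := by
    rw [div_le_iff₀ hL0]
    have h5 : 32 / ε ≤ L := by linarith
    rw [div_le_iff₀ hε] at h5
    nlinarith
  rcases hmin N hN1 θ with h | ⟨q, hq1, hqL, a, ha⟩
  · calc _ ≤ 8 * N / L := h
      _ = 8 * (N / L) := by ring
      _ ≤ 8 * (ε / 32 * N) := by gcongr
      _ < ε * N := by nlinarith [mul_pos hε hNr]
  · -- reduce to lowest terms
    obtain ⟨q1, a1, hq11, hcop, hq1q, hq1a⟩ : ∃ (q1 : ℕ) (a1 : ℤ), 1 ≤ q1 ∧ IsCoprime a1 (q1 : ℤ) ∧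
        q1 ≤ q ∧ |(q1 : ℝ) * θ - a1| ≤ |(q : ℝ) * θ - a| := by
      have hgpos : 0 < Int.gcd a q := Int.gcd_pos_of_ne_zero_right _ (by exact_mod_cast (by omega : q ≠ 0))
      obtain ⟨a1, ha1⟩ := Int.gcd_dvd_left a (q : ℤ)
      obtain ⟨q1, hq1'⟩ : (Int.gcd a q) ∣ q := by
        have := Int.gcd_dvd_right a (q : ℤ)
        exact_mod_cast this
      have hq1pos : 1 ≤ q1 := by
        rcases Nat.eq_zero_or_pos q1 with h | h
        · rw [h, mul_zero] at hq1'; omega
        · exact h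
      have hgr : (1 : ℝ) ≤ (Int.gcd a q : ℝ) := by exact_mod_cast hgpos
      refine ⟨q1, a1, hq1pos, ?_, ?_, ?_⟩
      · have h5 := Int.isCoprime_iff_gcd_eq_one.2 (?_ : Int.gcd a1 (q1 : ℤ) = 1)
        · exact h5
        · have h7 : (q : ℤ) = (Int.gcd a q : ℤ) * q1 := by exact_mod_cast hq1'
          have h6 : Int.gcd a q = Int.gcd a q * Int.gcd a1 (q1 : ℤ) := by
            calc Int.gcd a q = Int.gcd ((Int.gcd a q : ℤ) * a1) ((Int.gcd a q : ℤ) * q1) := by
                  rw [← ha1, ← h7]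
              _ = _ := by rw [Int.gcd_mul_left]; simp
          have h8 := Nat.eq_of_mul_eq_mul_left hgpos (h6.symm.trans (mul_one _).symm)
          exact h8
      · calc q1 = 1 * q1 := (one_mul _).symm
          _ ≤ Int.gcd a q * q1 := Nat.mul_le_mul_right _ hgpos
          _ = q := hq1'.symm
      · have h7 : (q : ℝ) = (Int.gcd a q : ℝ) * q1 := by exact_mod_cast hq1'
        have h8 : (a : ℝ) = (Int.gcd a q : ℝ) * a1 := by exact_mod_cast ha1
        have h9 : (q : ℝ) * θ - a = (Int.gcd a q : ℝ) * (q1 * θ - a1) := by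
          conv_lhs => rw [h7, h8]
          ring
        rw [h9, abs_mul, abs_of_nonneg (by linarith : (0 : ℝ) ≤ (Int.gcd a q : ℝ))]
        exact le_mul_of_one_le_left (abs_nonneg _) hgr
    have ha1 : |(q1 : ℝ) * θ - a1| ≤ L ^ B / (N : ℝ) ^ p.natDegree := hq1a.trans ha
    have hq1L : (q1 : ℝ) ≤ L ^ B := le_trans (by exact_mod_cast hq1q) hqL
    have hbig : Q0 < q1 := by
      by_contra hle
      push Not at hle
      have h5 := hgap q1 hq11 hle a1
      have h6 : δ ≤ L ^ B / N := by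
        refine h5.trans (ha1.trans ?_)
        gcongr
        exact le_self_pow₀ hNr1 (by omega)
      rw [le_div_iff₀ hNr] at h6
      rw [div_mul_eq_mul_div, div_le_iff₀ hδ] at hN3
      have : 0 < L ^ B := by positivity
      linarith
    have hG := hQ0 q1 hbig.le a1 hcop
    have hM' := hmaj N hN2 q1 a1 θ hq11 hq1L ha1
    set S := ∑ n ∈ Icc 1 N, FF p M b θ n with hS
    set W := ∑ n ∈ Icc 1 N, ee ((θ - a1 / q1) * ((p.eval (n : ℤ) : ℤ) : ℝ)) with hW
    have hWle : ‖W‖ ≤ N := by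
      refine (norm_sum_le _ _).trans ?_
      simp only [norm_ee, sum_const, Nat.card_Icc, Nat.add_sub_cancel, nsmul_eq_mul, mul_one, le_refl]
    have h5 : S = GG p M b q1 a1 * W + (S - GG p M b q1 a1 * W) := by ring
    rw [h5]
    refine (norm_add_le _ _).trans_lt ?_
    rw [norm_mul]
    calc ‖GG p M b q1 a1‖ * ‖W‖ + ‖S - GG p M b q1 a1 * W‖ ≤ ε / 4 * N + N / L := by
          gcongr
      _ ≤ ε / 4 * N + ε / 32 * N := by gcongr
      _ < ε * N := by nlinarith [mul_pos hε hNr]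

end Q257.MD
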