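import Pool.Agent.Q257.MD.PType
import Pool.Agent.H373R2.T7.Vau

/-!
Inverse theorem for Weyl sums over primes.
-/

set_option autoImplicit false

namespace Q257.MD

open Finset
open Pool.Agent.Helper602.MK (ee)
open Pool.Agent.Helper602.MK.N_J5b (ee_add ee_zero ee_conj norm_ee ee_int ee_nat_mul)
open Pool.Agent.H373R2.NB (Ph IW IW_all Ph_poly)
open Pool.Agent.H373R2.T3 (dyadic_sum bilin)
open Pool.Agent.H373R2.T7 (vaughan_gen)

/-- the eighth root -/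
theorem exists_root8 (N : ℕ) : ∃ U : ℕ, U ^ 8 ≤ N ∧ N < (U + 1) ^ 8 := by
  set s1 := Nat.sqrt N
  set s2 := Nat.sqrt s1
  set s3 := Nat.sqrt s2
  have h1 : s1 ^ 2 ≤ N := Nat.sqrt_le' N
  have h2 : s2 ^ 2 ≤ s1 := Nat.sqrt_le' s1
  have h3 : s3 ^ 2 ≤ s2 := Nat.sqrt_le' s2
  have g1 : N < (s1 + 1) ^ 2 := Nat.lt_succ_sqrt' N
  have g2 : s1 < (s2 + 1) ^ 2 := Nat.lt_succ_sqrt' s1
  have g3 : s2 < (s3 + 1) ^ 2 := Nat.lt_succ_sqrt' s2
  refine ⟨s3, ?_, ?_⟩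
  · calc s3 ^ 8 = ((s3 ^ 2) ^ 2) ^ 2 := by ring
      _ ≤ (s2 ^ 2) ^ 2 := by gcongr
      _ ≤ s1 ^ 2 := by gcongr
      _ ≤ N := h1
  · have e1 : s1 + 1 ≤ (s2 + 1) ^ 2 := g2
    have e2 : s2 + 1 ≤ (s3 + 1) ^ 2 := g3
    calc N < (s1 + 1) ^ 2 := g1
      _ ≤ ((s2 + 1) ^ 2) ^ 2 := by gcongr
      _ ≤ (((s3 + 1) ^ 2) ^ 2) ^ 2 := by gcongr
      _ = _ := by ring

theorem prime_inv (d : ℕ) (hd : 1 ≤ d) : ∃ C m : ℕ, 1 ≤ C ∧
    ∀ (N N' : ℕ) (v α : ℝ) (φ : ℕ → ℝ), 1 ≤ N → N ≤ N' → N' ≤ 2 * N → 1 ≤ v →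
    C * v ^ m ≤ N → Ph d α φ →
    ‖∑ n ∈ Ioc N N', ((ArithmeticFunction.vonMangoldt n : ℝ) : ℂ) * ee (φ n)‖ ≤
      39 * (1 + Real.log (4 * N)) ^ 5 * N / v ∨
    ∃ q : ℕ, 1 ≤ q ∧ (q : ℝ) ≤ C * v ^ m ∧ ∃ a : ℤ, |q * α - a| ≤ C * v ^ m / (N : ℝ) ^ d := by
  obtain ⟨C1, m1, hC1, hI⟩ := typeI d hd
  obtain ⟨C2, m2, hC2, hII⟩ := typeII d hd
  refine ⟨(4 * (C1 * C2)) ^ 8, 16 * (m1 + m2), Nat.one_le_pow _ _ (by positivity), ?_⟩
  intro N N' v α φ hN hNN' hN' hv hCN hφ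
  push_cast at hCN ⊢
  have hNr : (0 : ℝ) < N := by exact_mod_cast hN
  have hN1 : (1 : ℝ) ≤ N := by exact_mod_cast hN
  have hv0 : 0 < v := by linarith
  have hC1r : (1 : ℝ) ≤ C1 := by exact_mod_cast hC1
  have hC2r : (1 : ℝ) ≤ C2 := by exact_mod_cast hC2
  set D : ℝ := v ^ 2 with hD
  have hD1 : 1 ≤ D := one_le_pow₀ hv
  have hD0 : 0 < D := by linarith
  set Z : ℝ := C1 * C2 * D ^ (m1 + m2) with hZ
  have hpow1 : (1 : ℝ) ≤ D ^ m1 := one_le_pow₀ hD1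
  have hpow2 : (1 : ℝ) ≤ D ^ m2 := one_le_pow₀ hD1
  have hZ1 : C1 * D ^ m1 ≤ Z := by
    rw [hZ, pow_add]
    calc (C1 : ℝ) * D ^ m1 = C1 * 1 * (D ^ m1 * 1) := by ring
      _ ≤ C1 * C2 * (D ^ m1 * D ^ m2) := by gcongr
  have hZ2 : C2 * D ^ m2 ≤ Z := by
    rw [hZ, pow_add]
    calc (C2 : ℝ) * D ^ m2 = 1 * C2 * (1 * D ^ m2) := by ring
      _ ≤ C1 * C2 * (D ^ m1 * D ^ m2) := by gcongr
  have hZone : 1 ≤ Z := by
    refine le_trans ?_ hZ1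
    exact one_le_mul_of_one_le_of_one_le hC1r hpow1
  have hE : ((4 : ℝ) * (C1 * C2)) ^ 8 * v ^ (16 * (m1 + m2)) = (4 * Z) ^ 8 := by
    rw [hZ, hD, ← pow_mul]
    rw [show (16 * (m1 + m2)) = (2 * (m1 + m2)) * 8 by ring, pow_mul v _ 8]
    ring
  rw [hE] at hCN ⊢
  have hZE : Z ≤ (4 * Z) ^ 8 := by
    calc Z ≤ 4 * Z := by linarith
      _ ≤ (4 * Z) ^ 8 := le_self_pow₀ (by linarith) (by norm_num)
  obtain ⟨U, hU1, hU2⟩ := exists_root8 N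
  have hU2r : (N : ℝ) < ((U : ℝ) + 1) ^ 8 := by exact_mod_cast hU2
  have hZU : 4 * Z < U + 1 := lt_of_pow_lt_pow_left₀ 8 (by positivity) (hCN.trans_lt hU2r)
  have hZU2 : 2 * Z ≤ U := by linarith
  have hUr : (2 : ℝ) ≤ U := by linarith
  have hUnat : 2 ≤ U := by exact_mod_cast hUr
  have hUUN : U * U ≤ N := by
    refine le_trans ?_ hU1
    calc U * U = U ^ 2 := by ring
      _ ≤ U ^ 8 := Nat.pow_le_pow_right (by omega) (by norm_num)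
  by_cases hex : ∃ q : ℕ, 1 ≤ q ∧ (q : ℝ) ≤ (4 * Z) ^ 8 ∧
      ∃ a : ℤ, |q * α - a| ≤ (4 * Z) ^ 8 / (N : ℝ) ^ d
  · exact Or.inr hex
  left
  have hlift : ∀ X : ℝ, X ≤ Z → ¬ ∃ q : ℕ, 1 ≤ q ∧ (q : ℝ) ≤ X ∧ ∃ a : ℤ,
      |q * α - a| ≤ X / (N : ℝ) ^ d := by
    rintro X hX ⟨q, h1, h2, a, h3⟩
    refine hex ⟨q, h1, h2.trans (hX.trans hZE), a, h3.trans ?_⟩
    gcongr
    exact hX.trans hZE
  -- type I
  have hWN : C1 * D ^ m1 * ((U * U : ℕ) : ℝ) ≤ N := by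
    calc C1 * D ^ m1 * ((U * U : ℕ) : ℝ) ≤ U * ((U * U : ℕ) : ℝ) := by
          gcongr
          linarith
      _ = ((U ^ 3 : ℕ) : ℝ) := by push_cast; ring
      _ ≤ ((U ^ 8 : ℕ) : ℝ) := by
          exact_mod_cast Nat.pow_le_pow_right (by omega) (by norm_num)
      _ ≤ N := by exact_mod_cast hU1
  rcases hI N N' (U * U) D α φ hN hN' (Nat.mul_pos (by omega) (by omega)) hUUN hD1 hφ hWN with
    h | ⟨Y, hY0, hY1, hY2⟩
  · exact absurd h (hlift _ hZ1)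
  have hR0 : 0 ≤ 3 * (N : ℝ) / v := by positivity
  have key := vaughan_gen (fun n => ee (φ n)) N N' U hN hNN' hN' (by omega) hUUN Y (3 * (N : ℝ) / v)
    hR0 hY0 hY1 (by
      intro a b A₂ B₂ hA hB M L hM hL hUM hUL hML ha hb
      by_cases hsmall : N < 4 * (M * L)
      · have hMZ : C2 * D ^ m2 ≤ M := by
          have : ((U + 1 : ℕ) : ℝ) ≤ ((2 * M : ℕ) : ℝ) := by exact_mod_cast hUM
          push_cast at this
          linarith
        have hLZ : C2 * D ^ m2 ≤ L := by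
          have : ((U + 1 : ℕ) : ℝ) ≤ ((2 * L : ℕ) : ℝ) := by exact_mod_cast hUL
          push_cast at this
          linarith
        rcases hII N N' M L D α φ hN hM hL hD1 hφ hMZ hLZ hsmall with h | h
        · exact absurd h (hlift _ hZ2)
        · have hb1 := bilin (Ioc M (2 * M)) (Ioc L (2 * L)) a b (gg φ N N') (2 * M * L / D) h
          have hgg : ‖∑ m ∈ Ioc M (2 * M), ∑ l ∈ Ioc L (2 * L), a m * b l *
              (if N < m * l ∧ m * l ≤ N' then ee (φ (m * l)) else 0)‖ ^ 2 =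
              ‖∑ m ∈ Ioc M (2 * M), ∑ l ∈ Ioc L (2 * L), a m * b l * gg φ N N' m l‖ ^ 2 := rfl
          rw [hgg]
          refine hb1.trans ?_
          have hMLr : (M : ℝ) * L ≤ 2 * N := by
            have : M * L ≤ 2 * N := hML.trans hN'
            exact_mod_cast this
          calc (∑ m ∈ Ioc M (2 * M), ‖a m‖ ^ 2) * ((∑ l ∈ Ioc L (2 * L), ‖b l‖ ^ 2) *
                (2 * M * L / D)) ≤ (A₂ * M) * ((B₂ * L) * (2 * M * L / D)) := by gcongr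
            _ = A₂ * B₂ * (2 * (M * L) ^ 2 / D) := by ring
            _ ≤ A₂ * B₂ * (2 * (2 * N) ^ 2 / D) := by gcongr
            _ ≤ A₂ * B₂ * (3 * (N : ℝ) / v) ^ 2 := by
                gcongr
                rw [hD, div_pow]
                gcongr
                nlinarith [sq_nonneg (N : ℝ)]
      · have hz : ∑ m ∈ Ioc M (2 * M), ∑ l ∈ Ioc L (2 * L), a m * b l *
            (if N < m * l ∧ m * l ≤ N' then ee (φ (m * l)) else 0) = 0 := by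
          refine sum_eq_zero fun m hm => sum_eq_zero fun l hl => ?_
          rw [mem_Ioc] at hm hl
          have h1 : m * l ≤ (2 * M) * (2 * L) := Nat.mul_le_mul hm.2 hl.2
          have h2 : (2 * M) * (2 * L) = 4 * (M * L) := by ring
          rw [if_neg (by omega), mul_zero]
        rw [hz, norm_zero, zero_pow two_ne_zero]
        exact mul_nonneg (mul_nonneg hA hB) (sq_nonneg _))
  refine key.trans ?_
  set Lg : ℝ := 1 + Real.log (4 * N) with hLg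
  have hLg1 : 1 ≤ Lg := by
    have : 0 ≤ Real.log (4 * (N : ℝ)) := Real.log_nonneg (by linarith)
    linarith
  have hlogW : 1 + Real.log ((U * U : ℕ) : ℝ) ≤ Lg := by
    rw [hLg]
    have h1 : ((U * U : ℕ) : ℝ) ≤ 4 * N := by
      have : ((U * U : ℕ) : ℝ) ≤ N := by exact_mod_cast hUUN
      linarith
    have := Real.log_le_log (by positivity) h1
    linarith
  have hNv : 0 ≤ (N : ℝ) / v := by positivity
  have h1 : ∑ m ∈ Icc 1 (U * U), Y m ≤ 5 * ((N : ℝ) / v) * Lg := by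
    refine hY2.trans ?_
    have h2 : (N : ℝ) / D ≤ N / v := by
      gcongr
      rw [hD]; nlinarith
    gcongr
  calc 8 * Lg ^ 5 * (3 * (N : ℝ) / v) + 3 * Lg * ∑ m ∈ Icc 1 (U * U), Y m
      ≤ 8 * Lg ^ 5 * (3 * (N : ℝ) / v) + 3 * Lg * (5 * ((N : ℝ) / v) * Lg) := by gcongr
    _ = (24 * Lg ^ 5 + 15 * Lg ^ 2) * (N / v) := by ring
    _ ≤ (24 * Lg ^ 5 + 15 * Lg ^ 5) * (N / v) := by
        gcongr
        norm_num
    _ = _ := by ring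

end Q257.MD
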