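import Pool.Agent.Q257.MD.PMinor
import Pool.Agent.H373R2.T7.LamMaj

/-!
Weyl sums over primes in an arithmetic progression: the major arcs.
-/

set_option autoImplicit false

namespace Q257.MD

open Finset Polynomial Filter
open Pool.Agent.Helper602.MK (ee)
open Pool.Agent.Helper602.MK.N_J5b (ee_add ee_zero ee_conj norm_ee ee_int ee_nat_mul ee_eq_one_iff)
open Pool.Agent.H373R2.T7 (lam_ap)

/-- summation by parts -/
theorem abel (c F : ℕ → ℂ) (N : ℕ) :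
    ∑ n ∈ Icc 1 N, c n * F n = (∑ n ∈ Icc 1 N, c n) * F N -
      ∑ k ∈ range N, (∑ n ∈ Icc 1 k, c n) * (F (k + 1) - F k) := by
  induction N with
  | zero => simp
  | succ N ih =>
    rw [← insert_Icc_right_eq_Icc_add_one (by omega : 1 ≤ N + 1), sum_insert (by simp),
      sum_insert (by simp), sum_range_succ, ih]
    ring

theorem abel_bound (c F : ℕ → ℂ) (N : ℕ) (E V : ℝ) (hE : 0 ≤ E) (hV : 0 ≤ V)
    (hc : ∀ y, y ≤ N → ‖∑ n ∈ Icc 1 y, c n‖ ≤ E) (hF : ‖F N‖ ≤ 1)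
    (hFV : ∀ k, k < N → ‖F (k + 1) - F k‖ ≤ V) :
    ‖∑ n ∈ Icc 1 N, c n * F n‖ ≤ E * (1 + N * V) := by
  rw [abel]
  refine (norm_sub_le _ _).trans ?_
  have h1 : ‖(∑ n ∈ Icc 1 N, c n) * F N‖ ≤ E * 1 := by
    rw [norm_mul]
    exact mul_le_mul (hc N le_rfl) hF (norm_nonneg _) hE
  have h2 : ‖∑ k ∈ range N, (∑ n ∈ Icc 1 k, c n) * (F (k + 1) - F k)‖ ≤ N * (E * V) := by
    refine (norm_sum_le _ _).trans ?_
    refine (sum_le_card_nsmul _ _ (E * V) fun k hk => ?_).trans_eq ?_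
    · rw [norm_mul]
      have hk' := mem_range.1 hk
      exact mul_le_mul (hc k hk'.le) (hFV k hk') (norm_nonneg _) hE
    · rw [card_range, nsmul_eq_mul]
  linarith

theorem ee_sub_le (x y : ℝ) : ‖ee x - ee y‖ ≤ 2 * Real.pi * |x - y| := by
  have h1 : ee x - ee y = ee y * (ee (x - y) - 1) := by
    rw [mul_sub, ← ee_add, mul_one]
    congr 2
    ring
  rw [h1, norm_mul, norm_ee, one_mul]
  have h2 := Real.norm_exp_I_mul_ofReal_sub_one_le (x := 2 * Real.pi * (x - y))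
  have h3 : ee (x - y) = Complex.exp (Complex.I * ((2 * Real.pi * (x - y) : ℝ) : ℂ)) := by
    unfold ee
    congr 1
    push_cast
    ring
  rw [h3]
  refine h2.trans ?_
  rw [Real.norm_eq_abs, abs_mul, abs_of_pos (by positivity : (0 : ℝ) < 2 * Real.pi)]

theorem poly_diff (p : ℤ[X]) (hp : 1 ≤ p.natDegree) : ∃ C : ℝ, 0 ≤ C ∧ ∀ N k : ℕ, k < N →
    |((p.eval ((k + 1 : ℕ) : ℤ) : ℤ) : ℝ) - ((p.eval (k : ℤ) : ℤ) : ℝ)| ≤
      C * (N : ℝ) ^ (p.natDegree - 1) := by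
  refine ⟨∑ i ∈ range (p.natDegree + 1), |((p.coeff i : ℤ) : ℝ)| * i,
    sum_nonneg fun _ _ => by positivity, ?_⟩
  intro N k hk
  have hN : (1 : ℝ) ≤ N := by
    have : 1 ≤ N := by omega
    exact_mod_cast this
  rw [eval_eq_sum_range, eval_eq_sum_range]
  push_cast
  rw [← sum_sub_distrib, sum_mul]
  refine (abs_sum_le_sum_abs _ _).trans (sum_le_sum fun i hi => ?_)
  have hi' : i ≤ p.natDegree := by have := mem_range.1 hi; omega
  rw [← mul_sub, abs_mul, mul_assoc]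
  gcongr
  have h1 := abs_pow_sub_pow_le ((k : ℝ) + 1) (k : ℝ) i
  refine h1.trans ?_
  have h2 : max |(k : ℝ) + 1| |(k : ℝ)| ≤ N := by
    have g1 : (k : ℝ) + 1 ≤ N := by exact_mod_cast hk
    have g2 : (0 : ℝ) ≤ k := Nat.cast_nonneg k
    rw [abs_of_nonneg (by linarith), abs_of_nonneg g2]
    exact max_le g1 (by linarith)
  have h3 : |(k : ℝ) + 1 - k| = 1 := by norm_num
  rw [h3, one_mul]
  have h4 : max |(k : ℝ) + 1| |(k : ℝ)| ^ (i - 1) ≤ (N : ℝ) ^ (p.natDegree - 1) := by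
    calc max |(k : ℝ) + 1| |(k : ℝ)| ^ (i - 1) ≤ (N : ℝ) ^ (i - 1) :=
          pow_le_pow_left₀ (le_max_of_le_left (abs_nonneg _)) h2 _
      _ ≤ (N : ℝ) ^ (p.natDegree - 1) := pow_le_pow_right₀ hN (by omega)
  gcongr

/-- normalized complete sum over reduced residues -/
noncomputable def GG (p : ℤ[X]) (M : ℕ) (b : ℤ) (q : ℕ) (a : ℤ) : ℂ :=
  ∑ r ∈ range (q * M), if (M : ℤ) ∣ (r : ℤ) - b then
    ee ((a : ℝ) / q * ((p.eval (r : ℤ) : ℤ) : ℝ)) *
      ((if r.Coprime (q * M) then (1 : ℝ) / (Nat.totient (q * M)) else 0 : ℝ) : ℂ) else 0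

theorem ee_congr {q : ℕ} (hq : 1 ≤ q) (a x y : ℤ) (h : (q : ℤ) ∣ x - y) :
    ee ((a : ℝ) / q * (x : ℝ)) = ee ((a : ℝ) / q * (y : ℝ)) := by
  obtain ⟨k, hk⟩ := h
  have hq0 : (q : ℝ) ≠ 0 := by
    have : q ≠ 0 := by omega
    exact_mod_cast this
  have h1 : (x : ℝ) = y + q * k := by
    have : x = y + q * k := by linarith
    exact_mod_cast this
  have h2 : (a : ℝ) / q * (x : ℝ) = (a : ℝ) / q * (y : ℝ) + ((a * k : ℤ) : ℝ) := by
    rw [h1]; push_cast; field_simp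
  rw [h2, ee_add, ee_int, mul_one]

theorem major (p : ℤ[X]) (hp : 1 ≤ p.natDegree) (M : ℕ) (hM : 0 < M) (b : ℤ) (B : ℕ) :
    ∃ N0 : ℕ, ∀ N : ℕ, N0 ≤ N → ∀ (q : ℕ) (a : ℤ) (θ : ℝ), 1 ≤ q → (q : ℝ) ≤ Real.log N ^ B →
    |q * θ - a| ≤ Real.log N ^ B / (N : ℝ) ^ p.natDegree →
    ‖∑ n ∈ Icc 1 N, FF p M b θ n - GG p M b q a *
      ∑ n ∈ Icc 1 N, ee ((θ - a / q) * ((p.eval (n : ℤ) : ℤ) : ℝ))‖ ≤ N / Real.log N := by
  obtain ⟨Cp, hCp0, hCp⟩ := poly_diff p hp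
  obtain ⟨N1, h1⟩ := lam_ap (B + 1) (2 * B + 2)
  obtain ⟨N2, h2⟩ := ev_log_ge (max 1 (M * (1 + 2 * Real.pi * Cp)))
  refine ⟨max (max N1 N2) 3, ?_⟩
  intro N hN q a θ hq hqL hθ
  have hap := h1 N (le_trans (le_trans (le_max_left _ _) (le_max_left _ _)) hN)
  have hL1 := h2 N (le_trans (le_trans (le_max_right _ _) (le_max_left _ _)) hN)
  have hN3 : 3 ≤ N := le_trans (le_max_right _ _) hN
  set L := Real.log N with hL
  set d := p.natDegree with hd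
  have hL1' : 1 ≤ L := (le_max_left _ _).trans hL1
  have hL2 : M * (1 + 2 * Real.pi * Cp) ≤ L := (le_max_right _ _).trans hL1
  have hNr : (0 : ℝ) < N := by
    have : 0 < N := by omega
    exact_mod_cast this
  have hqr : (1 : ℝ) ≤ q := by exact_mod_cast hq
  have hMr : (1 : ℝ) ≤ M := by exact_mod_cast hM
  have hL0 : 0 < L := by linarith
  have hML : (M : ℝ) ≤ L := by
    refine le_trans ?_ hL2
    have : (1 : ℝ) ≤ 1 + 2 * Real.pi * Cp := by
      have : 0 ≤ 2 * Real.pi * Cp := by positivity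
      linarith
    exact le_mul_of_one_le_right (by linarith) this
  set Q := q * M with hQ
  have hQ1 : 1 ≤ Q := Nat.mul_pos hq hM
  have hQL : (Q : ℝ) ≤ L ^ (B + 1) := by
    rw [hQ]; push_cast
    calc (q : ℝ) * M ≤ L ^ B * L := by gcongr
      _ = _ := by ring
  set β : ℝ := θ - a / q with hβ
  have hβle : |β| ≤ L ^ B / (N : ℝ) ^ d := by
    have e1 : (q : ℝ) * θ - a = q * β := by rw [hβ]; field_simp
    rw [e1, abs_mul, abs_of_nonneg (by linarith : (0 : ℝ) ≤ q)] at hθ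
    refine le_trans ?_ hθ
    exact le_mul_of_one_le_left (abs_nonneg _) hqr
  set F : ℕ → ℂ := fun n => ee (β * ((p.eval (n : ℤ) : ℤ) : ℝ)) with hF
  set V : ℝ := 2 * Real.pi * (|β| * (Cp * (N : ℝ) ^ (d - 1))) with hV
  have hV0 : 0 ≤ V := by positivity
  have hFV : ∀ k, k < N → ‖F (k + 1) - F k‖ ≤ V := by
    intro k hk
    simp only [hF]
    refine (ee_sub_le _ _).trans ?_
    rw [← mul_sub, abs_mul, hV]
    have := hCp N k hk
    gcongr
  have hNV : N * V ≤ 2 * Real.pi * Cp * L ^ B := by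
    have hdd : (N : ℝ) * (N : ℝ) ^ (d - 1) = (N : ℝ) ^ d := by
      rw [← pow_succ']; congr 1; omega
    calc N * V = 2 * Real.pi * Cp * (|β| * ((N : ℝ) * (N : ℝ) ^ (d - 1))) := by rw [hV]; ring
      _ = 2 * Real.pi * Cp * (|β| * (N : ℝ) ^ d) := by rw [hdd]
      _ ≤ 2 * Real.pi * Cp * (L ^ B / (N : ℝ) ^ d * (N : ℝ) ^ d) := by gcongr
      _ = 2 * Real.pi * Cp * L ^ B := by field_simp
  set E : ℝ := N / L ^ (2 * B + 2) with hE
  have hE0 : 0 ≤ E := by positivity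
  set κ : ℕ → ℝ := fun r => if r.Coprime Q then (1 : ℝ) / (Nat.totient Q) else 0 with hκ
  -- each residue class
  have hclass : ∀ r : ℕ, ‖∑ n ∈ (Icc 1 N).filter (fun n => n ≡ r [MOD Q]),
      ((ArithmeticFunction.vonMangoldt n : ℝ) : ℂ) * F n - (κ r : ℂ) * ∑ n ∈ Icc 1 N, F n‖ ≤
      E * (1 + N * V) := by
    intro r
    have e1 : ∑ n ∈ (Icc 1 N).filter (fun n => n ≡ r [MOD Q]),
        ((ArithmeticFunction.vonMangoldt n : ℝ) : ℂ) * F n - (κ r : ℂ) * ∑ n ∈ Icc 1 N, F n =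
        ∑ n ∈ Icc 1 N, ((if n ≡ r [MOD Q] then ((ArithmeticFunction.vonMangoldt n : ℝ) : ℂ) else 0)
          - (κ r : ℂ)) * F n := by
      simp_rw [sub_mul, sum_sub_distrib, mul_sum, sum_filter, ite_mul, zero_mul]
    rw [e1]
    refine abel_bound _ F N E V hE0 hV0 ?_ (by simp only [hF]; rw [norm_ee]) hFV
    intro y hy
    have e2 : ∑ n ∈ Icc 1 y, ((if n ≡ r [MOD Q] then ((ArithmeticFunction.vonMangoldt n : ℝ) : ℂ)
        else 0) - (κ r : ℂ)) = ((∑ n ∈ (Icc 1 y).filter (fun n => n ≡ r [MOD Q]),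
          ArithmeticFunction.vonMangoldt n - (if r.Coprime Q then (y : ℝ) / (Nat.totient Q : ℝ)
            else 0) : ℝ) : ℂ) := by
      rw [sum_sub_distrib, ← sum_filter, sum_const, Nat.card_Icc, Nat.add_sub_cancel, nsmul_eq_mul]
      push_cast
      congr 1
      simp only [hκ]
      split_ifs <;> push_cast <;> ring
    rw [e2, Complex.norm_real, Real.norm_eq_abs]
    exact hap Q hQ1 hQL r y hy
  -- decomposition
  have hdec : ∑ n ∈ Icc 1 N, FF p M b θ n = ∑ r ∈ range Q,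
      (if (M : ℤ) ∣ (r : ℤ) - b then ee ((a : ℝ) / q * ((p.eval (r : ℤ) : ℤ) : ℝ)) *
        ∑ n ∈ (Icc 1 N).filter (fun n => n ≡ r [MOD Q]),
          ((ArithmeticFunction.vonMangoldt n : ℝ) : ℂ) * F n else 0) := by
    have h3 : ∑ r ∈ range Q, ∑ n ∈ (Icc 1 N).filter (fun n => n % Q = r), FF p M b θ n =
        ∑ n ∈ Icc 1 N, FF p M b θ n :=
      sum_fiberwise_of_maps_to (fun n _ => mem_range.2 (Nat.mod_lt _ hQ1)) _
    rw [← h3]
    refine sum_congr rfl fun r hr => ?_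
    have hrQ := mem_range.1 hr
    have e4 : (Icc 1 N).filter (fun n => n % Q = r) = (Icc 1 N).filter (fun n => n ≡ r [MOD Q]) := by
      refine filter_congr fun n _ => ?_
      unfold Nat.ModEq
      rw [Nat.mod_eq_of_lt hrQ]
    rw [e4]
    have e5 : ∀ n ∈ (Icc 1 N).filter (fun n => n ≡ r [MOD Q]), FF p M b θ n =
        if (M : ℤ) ∣ (r : ℤ) - b then ee ((a : ℝ) / q * ((p.eval (r : ℤ) : ℤ) : ℝ)) *
          (((ArithmeticFunction.vonMangoldt n : ℝ) : ℂ) * F n) else 0 := by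
      intro n hn
      have hmod := (mem_filter.1 hn).2
      have hdvd : (Q : ℤ) ∣ (n : ℤ) - r := by
        have := (Nat.modEq_iff_dvd.1 hmod.symm)
        exact this
      have hdM : (M : ℤ) ∣ (n : ℤ) - r := (Dvd.intro_left (q : ℤ) (by rw [hQ]; push_cast; ring)).trans hdvd
      have hdq : (q : ℤ) ∣ (n : ℤ) - r := (Dvd.intro (M : ℤ) (by rw [hQ]; push_cast; ring)).trans hdvd
      have hiff : ((M : ℤ) ∣ (n : ℤ) - b) ↔ ((M : ℤ) ∣ (r : ℤ) - b) := by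
        have : (n : ℤ) - b = (n - r) + (r - b) := by ring
        rw [this]
        exact dvd_add_right hdM
      unfold FF
      by_cases hc : (M : ℤ) ∣ (r : ℤ) - b
      · rw [if_pos hc, if_pos (hiff.2 hc)]
        have e6 : ee (θ * ((p.eval (n : ℤ) : ℤ) : ℝ)) =
            ee ((a : ℝ) / q * ((p.eval (r : ℤ) : ℤ) : ℝ)) * F n := by
          rw [← ee_congr hq a (p.eval (n : ℤ)) (p.eval (r : ℤ))
            (hdq.trans (p.sub_dvd_eval_sub _ _))]
          simp only [hF]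
          rw [← ee_add]
          congr 1
          rw [hβ]; ring
        rw [e6]; ring
      · rw [if_neg hc, if_neg (fun h => hc (hiff.1 h))]
    rw [sum_congr rfl e5]
    split_ifs
    · rw [mul_sum]
    · rw [sum_const_zero]
  have hGG : GG p M b q a * ∑ n ∈ Icc 1 N, F n = ∑ r ∈ range Q,
      (if (M : ℤ) ∣ (r : ℤ) - b then ee ((a : ℝ) / q * ((p.eval (r : ℤ) : ℤ) : ℝ)) *
        ((κ r : ℂ) * ∑ n ∈ Icc 1 N, F n) else 0) := by
    unfold GG
    rw [sum_mul]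
    refine sum_congr rfl fun r _ => ?_
    rw [← hQ]
    simp only [hκ]
    split_ifs <;> ring
  show ‖∑ n ∈ Icc 1 N, FF p M b θ n - GG p M b q a * ∑ n ∈ Icc 1 N, F n‖ ≤ N / L
  rw [hdec, hGG, ← sum_sub_distrib]
  refine (norm_sum_le _ _).trans ?_
  have hterm : ∀ r ∈ range Q, ‖(if (M : ℤ) ∣ (r : ℤ) - b then
      ee ((a : ℝ) / q * ((p.eval (r : ℤ) : ℤ) : ℝ)) *
        ∑ n ∈ (Icc 1 N).filter (fun n => n ≡ r [MOD Q]),
          ((ArithmeticFunction.vonMangoldt n : ℝ) : ℂ) * F n else 0) -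
      (if (M : ℤ) ∣ (r : ℤ) - b then ee ((a : ℝ) / q * ((p.eval (r : ℤ) : ℤ) : ℝ)) *
        ((κ r : ℂ) * ∑ n ∈ Icc 1 N, F n) else 0)‖ ≤ E * (1 + N * V) := by
    intro r _
    split_ifs
    · rw [← mul_sub, norm_mul, norm_ee, one_mul]
      exact hclass r
    · rw [sub_zero, norm_zero]; positivity
  refine (sum_le_card_nsmul _ _ _ hterm).trans ?_
  rw [card_range, nsmul_eq_mul, hQ]
  push_cast
  have hLB : (1 : ℝ) ≤ L ^ B := one_le_pow₀ hL1'
  calc (q : ℝ) * M * (E * (1 + N * V)) ≤ L ^ B * M * (E * (1 + 2 * Real.pi * Cp * L ^ B)) := by gcongr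
    _ ≤ L ^ B * M * (E * (L ^ B + 2 * Real.pi * Cp * L ^ B)) := by gcongr
    _ = (M * (1 + 2 * Real.pi * Cp)) * (E * L ^ (2 * B)) := by ring
    _ ≤ L * (E * L ^ (2 * B)) := by gcongr
    _ = N / L := by
        rw [hE]
        have : L ^ (2 * B + 2) = L ^ (2 * B) * L ^ 2 := by ring
        rw [this]
        field_simp

end Q257.MD
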