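import Pool.Agent.Q257.MD.PInv

/-!
Weyl sums over primes in an arithmetic progression: the minor arcs.
-/

set_option autoImplicit false

namespace Q257.MD

open Finset Polynomial Filter
open Pool.Agent.Helper602.MK (ee)
open Pool.Agent.Helper602.MK.N_J5b (ee_add ee_zero ee_conj norm_ee ee_int ee_nat_mul ee_eq_one_iff)
open Pool.Agent.H373R2.NB (Ph IW IW_all Ph_poly)

theorem ev_pow_le (C : ℝ) (k : ℕ) : ∃ N0 : ℕ, ∀ N : ℕ, N0 ≤ N → C * Real.log N ^ k ≤ N := by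
  have h1 : (fun x : ℝ => Real.log x ^ k) =o[atTop] (id : ℝ → ℝ) := Real.isLittleO_pow_log_id_atTop
  have h2 := (h1.const_mul_left C).bound one_pos
  have h3 := tendsto_natCast_atTop_atTop (R := ℝ) |>.eventually h2
  rw [eventually_atTop] at h3
  obtain ⟨N0, h⟩ := h3
  refine ⟨N0, fun N hN => ?_⟩
  have := h N hN
  simp only [id, one_mul, Real.norm_eq_abs, Nat.abs_cast] at this
  exact (le_abs_self _).trans this

theorem ev_log_ge (C : ℝ) : ∃ N0 : ℕ, ∀ N : ℕ, N0 ≤ N → C ≤ Real.log N := by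
  have h3 := (Real.tendsto_log_atTop.comp (tendsto_natCast_atTop_atTop (R := ℝ))).eventually
    (eventually_ge_atTop C)
  rw [eventually_atTop] at h3
  exact h3

/-- detection of a residue class -/
theorem detect (M : ℕ) (hM : 0 < M) (x : ℤ) :
    (if (M : ℤ) ∣ x then (1 : ℂ) else 0) = (1 / (M : ℂ)) * ∑ c ∈ range M, ee (c * ((x : ℝ) / M)) := by
  have hMr : (M : ℝ) ≠ 0 := by exact_mod_cast hM.ne'
  have hMc : (M : ℂ) ≠ 0 := by exact_mod_cast hM.ne'
  simp_rw [ee_nat_mul]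
  split_ifs with h
  · obtain ⟨k, hk⟩ := h
    have h1 : ee ((x : ℝ) / M) = 1 := by
      have : (x : ℝ) / M = (k : ℤ) := by
        rw [hk]; push_cast; field_simp
      rw [this, ee_int]
    rw [h1]
    simp [hMc]
  · have h1 : ee ((x : ℝ) / M) ≠ 1 := by
      intro h1
      rw [ee_eq_one_iff] at h1
      obtain ⟨k, hk⟩ := h1
      apply h
      refine ⟨k, ?_⟩
      have : (x : ℝ) = M * k := by rw [← hk]; field_simp
      exact_mod_cast this
    rw [geom_sum_eq h1, ← ee_nat_mul]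
    have : (M : ℝ) * ((x : ℝ) / M) = x := by field_simp
    rw [this, ee_int, sub_self, zero_div, mul_zero]

/-- the weighted exponential -/
noncomputable def FF (p : ℤ[X]) (M : ℕ) (b : ℤ) (θ : ℝ) (n : ℕ) : ℂ :=
  if (M : ℤ) ∣ (n : ℤ) - b then
    ((ArithmeticFunction.vonMangoldt n : ℝ) : ℂ) * ee (θ * ((p.eval (n : ℤ) : ℤ) : ℝ)) else 0

theorem FF_sum (p : ℤ[X]) (M : ℕ) (hM : 0 < M) (b : ℤ) (θ : ℝ) (s : Finset ℕ) :
    ∑ n ∈ s, FF p M b θ n = (1 / (M : ℂ)) * ∑ c ∈ range M, ee (-(c * ((b : ℝ) / M))) *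
      ∑ n ∈ s, ((ArithmeticFunction.vonMangoldt n : ℝ) : ℂ) *
        ee (θ * ((p.eval (n : ℤ) : ℤ) : ℝ) + (c : ℝ) / M * n) := by
  have h1 : ∀ n : ℕ, FF p M b θ n = (1 / (M : ℂ)) * ∑ c ∈ range M, ee (-(c * ((b : ℝ) / M))) *
      (((ArithmeticFunction.vonMangoldt n : ℝ) : ℂ) *
        ee (θ * ((p.eval (n : ℤ) : ℤ) : ℝ) + (c : ℝ) / M * n)) := by
    intro n
    have e1 : FF p M b θ n = (if (M : ℤ) ∣ (n : ℤ) - b then (1 : ℂ) else 0) *
        (((ArithmeticFunction.vonMangoldt n : ℝ) : ℂ) * ee (θ * ((p.eval (n : ℤ) : ℤ) : ℝ))) := by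
      unfold FF; split_ifs <;> simp
    rw [e1, detect M hM, mul_assoc, sum_mul]
    congr 1
    refine sum_congr rfl fun c _ => ?_
    rw [ee_add]
    have e2 : ee (c * ((((n : ℤ) - b : ℤ) : ℝ) / M)) = ee (-(c * ((b : ℝ) / M))) *
        ee ((c : ℝ) / M * n) := by
      rw [← ee_add]
      congr 1
      push_cast
      ring
    rw [e2]
    ring
  simp_rw [h1]
  rw [← mul_sum, sum_comm]
  congr 1
  refine sum_congr rfl fun c _ => ?_
  rw [mul_sum]

theorem ap_inv (p : ℤ[X]) (hp : 1 ≤ p.natDegree) (M : ℕ) (hM : 0 < M) (b : ℤ) :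
    ∃ C m : ℕ, 1 ≤ C ∧ ∀ (N N' : ℕ) (v θ : ℝ), 1 ≤ N → N ≤ N' → N' ≤ 2 * N → 1 ≤ v →
    C * v ^ m ≤ N →
    ‖∑ n ∈ Ioc N N', FF p M b θ n‖ ≤ 39 * (1 + Real.log (4 * N)) ^ 5 * N / v ∨
    ∃ q : ℕ, 1 ≤ q ∧ (q : ℝ) ≤ C * v ^ m ∧ ∃ a : ℤ,
      |q * θ - a| ≤ C * v ^ m / (N : ℝ) ^ p.natDegree := by
  set d := p.natDegree with hd
  obtain ⟨C, m, hC, hI⟩ := prime_inv d hp
  set l : ℕ := (d.factorial * p.coeff d).natAbs with hl
  have hlc : p.coeff d ≠ 0 := by
    rw [hd]; exact leadingCoeff_ne_zero.2 (by rintro rfl; simp at hd; omega)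
  have hl1 : 1 ≤ l := by
    rw [hl]
    have : (d.factorial : ℤ) * p.coeff d ≠ 0 :=
      mul_ne_zero (by exact_mod_cast (Nat.factorial_pos d).ne') hlc
    exact Int.natAbs_pos.2 this
  refine ⟨C * M * l, m, Nat.mul_pos (Nat.mul_pos hC hM) hl1, ?_⟩
  intro N N' v θ hN hNN' hN' hv hCN
  push_cast at hCN ⊢
  have hMr : (1 : ℝ) ≤ M := by exact_mod_cast hM
  have hlr : (1 : ℝ) ≤ l := by exact_mod_cast hl1
  have hNr : (0 : ℝ) < N := by exact_mod_cast hN
  have hCr : (1 : ℝ) ≤ C := by exact_mod_cast hC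
  have hvm : (1 : ℝ) ≤ v ^ m := one_le_pow₀ hv
  have hC' : C * v ^ m ≤ C * M * l * v ^ m := by
    gcongr
    calc (C : ℝ) = C * 1 * 1 := by ring
      _ ≤ C * M * l := by gcongr
  set α : ℕ → ℝ := fun c => θ * ((d.factorial : ℝ) * (p.coeff d : ℤ)) +
    (if d = 1 then (c : ℝ) / M else 0) with hα
  have hph : ∀ c : ℕ, Ph d (α c) (fun n => θ * ((p.eval (n : ℤ) : ℤ) : ℝ) + (c : ℝ) / M * n) :=
    fun c => Ph_add d _ _ _ _ (Ph_poly d p le_rfl θ) (Ph_lin d hp _)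
  by_cases hall : ∀ c ∈ range M, ‖∑ n ∈ Ioc N N', ((ArithmeticFunction.vonMangoldt n : ℝ) : ℂ) *
        ee (θ * ((p.eval (n : ℤ) : ℤ) : ℝ) + (c : ℝ) / M * n)‖ ≤
      39 * (1 + Real.log (4 * N)) ^ 5 * N / v
  · left
    rw [FF_sum p M hM b θ, norm_mul]
    have e1 : ‖(1 / (M : ℂ))‖ = 1 / (M : ℝ) := by
      rw [norm_div, norm_one, Complex.norm_natCast]
    rw [e1]
    have h2 : ‖∑ c ∈ range M, ee (-(c * ((b : ℝ) / M))) *
      ∑ n ∈ Ioc N N', ((ArithmeticFunction.vonMangoldt n : ℝ) : ℂ) *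
        ee (θ * ((p.eval (n : ℤ) : ℤ) : ℝ) + (c : ℝ) / M * n)‖ ≤
        M * (39 * (1 + Real.log (4 * N)) ^ 5 * N / v) := by
      refine (norm_sum_le _ _).trans ?_
      refine (sum_le_card_nsmul _ _ (39 * (1 + Real.log (4 * N)) ^ 5 * N / v) fun c hc => ?_).trans_eq ?_
      · rw [norm_mul, norm_ee, one_mul]
        exact hall c hc
      · rw [card_range, nsmul_eq_mul]
    calc 1 / (M : ℝ) * _ ≤ 1 / (M : ℝ) * (M * (39 * (1 + Real.log (4 * N)) ^ 5 * N / v)) := by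
          gcongr
      _ = _ := by field_simp
  · right
    push Not at hall
    obtain ⟨c, hc, hlarge⟩ := hall
    rcases hI N N' v (α c) _ hN hNN' hN' hv (hC'.trans hCN) (hph c) with h | ⟨q, hq1, hqC, a, ha⟩
    · exact absurd h (not_le.2 hlarge)
    · set z : ℤ := if d = 1 then (q * c : ℤ) else 0 with hz
      obtain ⟨s, hs1, hs2⟩ : ∃ s : ℤ, (s = 1 ∨ s = -1) ∧ (l : ℤ) = s * (d.factorial * p.coeff d) := by
        rcases le_or_gt 0 ((d.factorial : ℤ) * p.coeff d) with h | h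
        · exact ⟨1, Or.inl rfl, by rw [hl, Int.natAbs_of_nonneg h, one_mul]⟩
        · exact ⟨-1, Or.inr rfl, by rw [hl, Int.ofNat_natAbs_of_nonpos h.le]; ring⟩
      refine ⟨q * M * l, Nat.mul_pos (Nat.mul_pos hq1 hM) hl1, ?_, s * (a * M - z), ?_⟩
      · push_cast
        calc (q : ℝ) * M * l ≤ (C * v ^ m) * M * l := by gcongr
          _ = _ := by ring
      · have e1 : ((q * M * l : ℕ) : ℝ) * θ - ((s * (a * M - z) : ℤ) : ℝ) =
            s * (M * (q * α c - a)) := by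
          have hlr' : (l : ℝ) = s * (d.factorial * p.coeff d) := by exact_mod_cast hs2
          push_cast
          rw [hlr']
          simp only [hα, hz]
          have hM0 : (M : ℝ) ≠ 0 := by positivity
          split_ifs
          · push_cast; field_simp; ring
          · push_cast; ring
        have hs : |(s : ℝ)| = 1 := by rcases hs1 with h | h <;> rw [h] <;> norm_num
        rw [e1, abs_mul, hs, one_mul, abs_mul, abs_of_nonneg (by positivity : (0 : ℝ) ≤ M)]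
        calc (M : ℝ) * |q * α c - a| ≤ M * (C * v ^ m / (N : ℝ) ^ d) := by gcongr
          _ = 1 * (C * M * v ^ m) / (N : ℝ) ^ d := by ring
          _ ≤ l * (C * M * v ^ m) / (N : ℝ) ^ d := by gcongr
          _ = _ := by ring

theorem FF_norm_le (p : ℤ[X]) (M : ℕ) (b : ℤ) (θ : ℝ) (n : ℕ) :
    ‖FF p M b θ n‖ ≤ ArithmeticFunction.vonMangoldt n := by
  unfold FF
  split_ifs
  · rw [norm_mul, norm_ee, mul_one, Complex.norm_real, Real.norm_of_nonneg
      ArithmeticFunction.vonMangoldt_nonneg]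
  · rw [norm_zero]; exact ArithmeticFunction.vonMangoldt_nonneg

theorem lam_le (y : ℕ) : ∑ n ∈ Icc 1 y, ArithmeticFunction.vonMangoldt n ≤ 6 * (y : ℝ) := by
  have h1 := Chebyshev.psi_le_const_mul_self (Nat.cast_nonneg y : (0 : ℝ) ≤ y)
  rw [Chebyshev.psi, Nat.floor_natCast] at h1
  have h2 : Icc 1 y = Ioc 0 y := by ext; simp [Nat.succ_le_iff]
  rw [h2]
  refine h1.trans ?_
  have : Real.log 4 ≤ 2 := by
    have : Real.log 4 = 2 * Real.log 2 := by
      rw [show (4 : ℝ) = 2 ^ 2 by norm_num, Real.log_pow]; push_cast; ring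
    rw [this]
    have := Real.log_two_lt_d9
    linarith
  have h3 : (0 : ℝ) ≤ y := Nat.cast_nonneg y
  nlinarith

/-- telescoping over dyadic intervals -/
theorem dyadic_tele (f : ℕ → ℂ) (i0 N : ℕ) (A : ℝ) (hA : 0 ≤ A)
    (h : ∀ i, i0 ≤ i → 2 ^ i ≤ N → ∀ N', 2 ^ i ≤ N' → N' ≤ 2 * 2 ^ i → ‖∑ n ∈ Ioc (2 ^ i) N', f n‖ ≤ A * 2 ^ i) :
    ∀ i, i0 ≤ i → 2 ^ i ≤ N → ∀ N', 2 ^ i ≤ N' → N' ≤ 2 * 2 ^ i →
      ‖∑ n ∈ Ioc (2 ^ i0) N', f n‖ ≤ 2 * A * 2 ^ i := by
  intro i hi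
  induction i, hi using Nat.le_induction with
  | base =>
    intro h1 N' h2 h3
    refine (h i0 le_rfl h1 N' h2 h3).trans ?_
    have : (0 : ℝ) ≤ A * 2 ^ i0 := by positivity
    linarith
  | succ i hi ih =>
    intro h1 N' h2 h3
    have h4 : 2 ^ i ≤ N := le_trans (Nat.pow_le_pow_right (by norm_num) (Nat.le_succ i)) h1
    have h5 := ih h4 (2 ^ (i + 1)) (Nat.pow_le_pow_right (by norm_num) (Nat.le_succ i))
      (by rw [pow_succ]; omega)
    have h6 := h (i + 1) (by omega) h1 N' h2 h3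
    have h7 : ∑ n ∈ Ioc (2 ^ i0) N', f n = ∑ n ∈ Ioc (2 ^ i0) (2 ^ (i + 1)), f n +
        ∑ n ∈ Ioc (2 ^ (i + 1)) N', f n := by
      rw [← sum_union]
      · rw [Ioc_union_Ioc_eq_Ioc (Nat.pow_le_pow_right (by norm_num) (by omega)) h2]
      · rw [disjoint_left]
        intro m hm hm'
        rw [mem_Ioc] at hm hm'
        omega
    rw [h7]
    refine (norm_add_le _ _).trans ?_
    have e : (2 : ℝ) ^ (i + 1) = 2 * 2 ^ i := by ring
    rw [e] at h6 ⊢
    linarith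

theorem minor (p : ℤ[X]) (hp : 1 ≤ p.natDegree) (M : ℕ) (hM : 0 < M) (b : ℤ) :
    ∃ B N0 : ℕ, ∀ N : ℕ, N0 ≤ N → ∀ θ : ℝ,
    ‖∑ n ∈ Icc 1 N, FF p M b θ n‖ ≤ 8 * N / Real.log N ∨
    ∃ q : ℕ, 1 ≤ q ∧ (q : ℝ) ≤ Real.log N ^ B ∧ ∃ a : ℤ,
      |q * θ - a| ≤ Real.log N ^ B / (N : ℝ) ^ p.natDegree := by
  obtain ⟨C, m, hC, hI⟩ := ap_inv p hp M hM b
  set d := p.natDegree with hd
  obtain ⟨N1, h1⟩ := ev_pow_le (2 * C) (7 * m + 1)
  obtain ⟨N2, h2⟩ := ev_log_ge (1248 + C * 2 ^ d)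
  obtain ⟨N3, h3⟩ := ev_pow_le 1 1
  refine ⟨7 * m + d + 1, max (max N1 N2) (max N3 3), ?_⟩
  intro N hN θ
  have a1 := h1 N (le_trans (le_trans (le_max_left _ _) (le_max_left _ _)) hN)
  have a2 := h2 N (le_trans (le_trans (le_max_right _ _) (le_max_left _ _)) hN)
  have a3 := h3 N (le_trans (le_trans (le_max_left _ _) (le_max_right _ _)) hN)
  have hN3 : 3 ≤ N := le_trans (le_trans (le_max_right _ _) (le_max_right _ _)) hN
  rw [one_mul, pow_one] at a3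
  set L := Real.log N with hL
  have hNr : (0 : ℝ) < N := by
    have : 0 < N := by omega
    exact_mod_cast this
  have hCr : (1 : ℝ) ≤ C := by exact_mod_cast hC
  have hC2 : (0 : ℝ) ≤ C * 2 ^ d := by positivity
  have hL1248 : 1248 ≤ L := by linarith
  have hL0 : 0 < L := by linarith
  set x : ℕ := ⌊(N : ℝ) / L⌋₊ with hx
  have hx1 : 1 ≤ x := by
    rw [hx]; apply Nat.le_floor
    rw [Nat.cast_one, le_div_iff₀ hL0]; linarith
  set i0 := Nat.log 2 x with hi0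
  have hi01 : ((2 : ℝ) ^ i0) ≤ N / L := by
    have g1 : 2 ^ i0 ≤ x := Nat.pow_log_le_self 2 (by omega)
    calc ((2 : ℝ) ^ i0) ≤ x := by exact_mod_cast g1
      _ ≤ N / L := Nat.floor_le (by positivity)
  have hi02 : (N : ℝ) / L < 2 * 2 ^ i0 := by
    have g1 : x < 2 ^ (i0 + 1) := Nat.lt_pow_succ_log_self (by norm_num) _
    have g2 : (x : ℝ) + 1 ≤ 2 ^ (i0 + 1) := by exact_mod_cast g1
    have g3 := Nat.lt_floor_add_one ((N : ℝ) / L)
    rw [← hx] at g3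
    rw [pow_succ] at g2
    linarith
  by_cases hex : ∃ q : ℕ, 1 ≤ q ∧ (q : ℝ) ≤ L ^ (7 * m + d + 1) ∧ ∃ a : ℤ,
      |q * θ - a| ≤ L ^ (7 * m + d + 1) / (N : ℝ) ^ d
  · exact Or.inr hex
  left
  set v : ℝ := L ^ 7 with hv
  have hv1 : 1 ≤ v := one_le_pow₀ (by linarith)
  have hCv : C * v ^ m ≤ 2 ^ i0 := by
    have : (C : ℝ) * v ^ m ≤ N / L / 2 := by
      rw [div_div, le_div_iff₀ (by positivity), hv, ← pow_mul]
      calc (C : ℝ) * L ^ (7 * m) * (L * 2) = 2 * C * L ^ (7 * m + 1) := by ring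
        _ ≤ N := a1
    linarith
  have hpiece : ∀ i, i0 ≤ i → 2 ^ i ≤ N → ∀ N', 2 ^ i ≤ N' → N' ≤ 2 * 2 ^ i →
      ‖∑ n ∈ Ioc (2 ^ i) N', FF p M b θ n‖ ≤ (1 / L) * 2 ^ i := by
    intro i hi hiN N' hN'1 hN'2
    have hii : (2 : ℝ) ^ i0 ≤ 2 ^ i := pow_le_pow_right₀ (by norm_num) hi
    have hiNr : (2 : ℝ) ^ i ≤ N := by exact_mod_cast hiN
    rcases hI (2 ^ i) N' v θ Nat.one_le_two_pow hN'1 hN'2 hv1 (by push_cast; exact hCv.trans hii) with
      h | ⟨q, hq1, hqC, a, ha⟩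
    · refine h.trans ?_
      push_cast
      have hlog : 1 + Real.log (4 * 2 ^ i) ≤ 2 * L := by
        have g1 : Real.log (4 * 2 ^ i) ≤ Real.log (4 * N) := Real.log_le_log (by positivity) (by linarith)
        have g2 : Real.log (4 * N) = Real.log 4 + L := Real.log_mul (by norm_num) hNr.ne'
        have g3 : Real.log 4 ≤ 3 := by
          have := Real.log_le_sub_one_of_pos (show (0 : ℝ) < 4 by norm_num)
          linarith
        linarith
      have hlog0 : 0 ≤ 1 + Real.log (4 * 2 ^ i) := by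
        have : 0 ≤ Real.log (4 * 2 ^ i) := by
          apply Real.log_nonneg
          have : (1 : ℝ) ≤ 2 ^ i := one_le_pow₀ (by norm_num)
          linarith
        linarith
      calc 39 * (1 + Real.log (4 * 2 ^ i)) ^ 5 * 2 ^ i / v ≤ 39 * (2 * L) ^ 5 * 2 ^ i / v := by gcongr
        _ = (1248 / L) * (1 / L) * 2 ^ i := by
            rw [hv]; field_simp; ring
        _ ≤ 1 * (1 / L) * 2 ^ i := by
            gcongr
            rw [div_le_one hL0]; exact hL1248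
        _ = _ := by ring
    · exfalso
      apply hex
      have hCL : (C : ℝ) * 2 ^ d ≤ L := by linarith
      have hCL' : (C : ℝ) ≤ L := by
        refine le_trans ?_ hCL
        exact le_mul_of_one_le_right (by linarith) (one_le_pow₀ (by norm_num))
      refine ⟨q, hq1, ?_, a, ?_⟩
      · refine hqC.trans ?_
        rw [hv, ← pow_mul]
        calc (C : ℝ) * L ^ (7 * m) ≤ L * L ^ (7 * m) := by gcongr
          _ = L ^ (7 * m + 1) := by ring
          _ ≤ L ^ (7 * m + d + 1) := pow_le_pow_right₀ (by linarith) (by omega)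
      · refine ha.trans ?_
        push_cast
        have g1 : (N : ℝ) / (2 * L) ≤ 2 ^ i := by
          have : (N : ℝ) / (2 * L) = N / L / 2 := by field_simp
          rw [this]; linarith
        calc C * v ^ m / ((2 : ℝ) ^ i) ^ d ≤ C * v ^ m / ((N : ℝ) / (2 * L)) ^ d := by gcongr
          _ = (C * 2 ^ d) * L ^ (7 * m + d) / (N : ℝ) ^ d := by
              rw [hv, ← pow_mul, div_pow, mul_pow]
              field_simp
              ring
          _ ≤ L * L ^ (7 * m + d) / (N : ℝ) ^ d := by gcongr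
          _ = _ := by ring
  have hi0N : 2 ^ i0 ≤ N := by
    have : ((2 : ℝ) ^ i0) ≤ N := hi01.trans (div_le_self hNr.le (by linarith))
    exact_mod_cast this
  set I := Nat.log 2 N with hI'
  have hIN : 2 ^ I ≤ N := Nat.pow_log_le_self 2 (by omega)
  have hIN2 : N < 2 ^ (I + 1) := Nat.lt_pow_succ_log_self (by norm_num) _
  have hi0I : i0 ≤ I := (Nat.le_log_iff_pow_le (by norm_num) (by omega)).2 hi0N
  have hIr : (2 : ℝ) ^ I ≤ N := by exact_mod_cast hIN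
  have htele := dyadic_tele (FF p M b θ) i0 N (1 / L) (by positivity) hpiece I hi0I hIN N hIN
    (by rw [pow_succ] at hIN2; omega)
  have hsplit : Icc 1 N = Icc 1 (2 ^ i0) ∪ Ioc (2 ^ i0) N := by
    ext n
    have : 1 ≤ 2 ^ i0 := Nat.one_le_two_pow
    simp only [mem_union, mem_Icc, mem_Ioc]
    omega
  have hdisj : Disjoint (Icc 1 (2 ^ i0)) (Ioc (2 ^ i0) N) := by
    rw [disjoint_left]
    intro m hm hm'
    rw [mem_Icc] at hm
    rw [mem_Ioc] at hm'
    omega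
  rw [hsplit, sum_union hdisj]
  refine (norm_add_le _ _).trans ?_
  have hlow : ‖∑ n ∈ Icc 1 (2 ^ i0), FF p M b θ n‖ ≤ 6 * (N / L) := by
    refine (norm_sum_le _ _).trans ?_
    refine (sum_le_sum fun n _ => FF_norm_le p M b θ n).trans ?_
    refine (lam_le _).trans ?_
    push_cast
    linarith
  calc _ ≤ 6 * (N / L) + 2 * (1 / L) * 2 ^ I := add_le_add hlow htele
    _ ≤ 6 * (N / L) + 2 * (1 / L) * N := by gcongr
    _ = _ := by ring

end Q257.MD
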