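import Pool.Agent.Q257.MD.PCore
import Pool.Agent.H373R2.T3.Pieces

/-!
Type I and Type II estimates for polynomial phases, in inverse form.
-/

set_option autoImplicit false

namespace Q257.MD

open Finset
open Pool.Agent.Helper602.MK (ee)
open Pool.Agent.Helper602.MK.N_J5b (ee_add ee_zero ee_conj norm_ee ee_int ee_nat_mul)
open Pool.Agent.H373R2.NB (Ph IW IW_all Ph_poly)
open Pool.Agent.H373R2.T3 (dyadic_sum bilin)

/-- the weight of a bilinear piece -/
noncomputable def gg (φ : ℕ → ℝ) (N N' m l : ℕ) : ℂ :=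
  if N < m * l ∧ m * l ≤ N' then ee (φ (m * l)) else 0

theorem sum_ee_le (s t : ℕ) (hst : s ≤ t) (φ : ℕ → ℝ) :
    ‖∑ n ∈ Ioc s t, ee (φ n)‖ ≤ (t : ℝ) - s := by
  refine (norm_sum_le _ _).trans ?_
  have : ∑ n ∈ Ioc s t, ‖ee (φ n)‖ = (t : ℝ) - s := by
    simp only [norm_ee, sum_const, Nat.card_Ioc, nsmul_eq_mul, mul_one]
    rw [Nat.cast_sub hst]
  exact this.le

theorem gg_corr (φ : ℕ → ℝ) (N N' M l l' : ℕ) (hl : 1 ≤ l) (hl' : 1 ≤ l') :
    ∑ m ∈ Ioc M (2 * M), gg φ N N' m l * (starRingEnd ℂ) (gg φ N N' m l') =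
      ∑ m ∈ Ioc (max M (max (N / l) (N / l'))) (min (2 * M) (min (N' / l) (N' / l'))),
        ee (φ (m * l) - φ (m * l')) := by
  have h1 : ∀ m, gg φ N N' m l * (starRingEnd ℂ) (gg φ N N' m l') =
      if (N < m * l ∧ m * l ≤ N') ∧ (N < m * l' ∧ m * l' ≤ N') then
        ee (φ (m * l) - φ (m * l')) else 0 := by
    intro m
    unfold gg
    by_cases h2 : N < m * l ∧ m * l ≤ N'
    · by_cases h3 : N < m * l' ∧ m * l' ≤ N'
      · rw [if_pos h2, if_pos h3, if_pos ⟨h2, h3⟩, ee_conj, ← ee_add, sub_eq_add_neg]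
      · rw [if_neg h3, map_zero, mul_zero, if_neg (fun h => h3 h.2)]
    · rw [if_neg h2, zero_mul, if_neg (fun h => h2 h.1)]
  simp_rw [h1]
  rw [← sum_filter]
  refine sum_congr ?_ fun _ _ => rfl
  ext m
  simp only [mem_filter, mem_Ioc, max_lt_iff, le_min_iff]
  rw [Nat.div_lt_iff_lt_mul (by omega), Nat.div_lt_iff_lt_mul (by omega),
    Nat.le_div_iff_mul_le (by omega), Nat.le_div_iff_mul_le (by omega)]
  tauto

theorem typeII (d : ℕ) (hd : 1 ≤ d) : ∃ C m : ℕ, 1 ≤ C ∧ ∀ (N N' M L : ℕ) (D α : ℝ) (φ : ℕ → ℝ),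
    1 ≤ N → 1 ≤ M → 1 ≤ L → 1 ≤ D → Ph d α φ → C * D ^ m ≤ M → C * D ^ m ≤ L → N < 4 * (M * L) →
    (∃ q : ℕ, 1 ≤ q ∧ (q : ℝ) ≤ C * D ^ m ∧ ∃ a : ℤ, |q * α - a| ≤ C * D ^ m / (N : ℝ) ^ d) ∨
    ∀ l ∈ Ioc L (2 * L), ∑ l' ∈ Ioc L (2 * L),
      ‖∑ k ∈ Ioc M (2 * M), gg φ N N' k l * (starRingEnd ℂ) (gg φ N N' k l')‖ ≤ 2 * M * L / D := by
  obtain ⟨c, m0, hc, hI⟩ := IW_all d hd
  obtain ⟨C1, m1, hC1, hcore⟩ := core_inv d hd
  refine ⟨C1 * c ^ (m1 + 1) * 4 ^ d, m1 + m0 * m1 + m0 + d, ?_, ?_⟩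
  · have : 0 < C1 * c ^ (m1 + 1) * 4 ^ d := by positivity
    exact this
  intro N N' M L D α φ hN hM hL hD hφ hZM hZL hNML
  push_cast at hZM hZL ⊢
  set Z : ℝ := C1 * (c : ℝ) ^ (m1 + 1) * 4 ^ d * D ^ (m1 + m0 * m1 + m0 + d) with hZ
  have hNr : (0 : ℝ) < N := by exact_mod_cast hN
  have hMr : (0 : ℝ) < M := by exact_mod_cast hM
  have hLr : (0 : ℝ) < L := by exact_mod_cast hL
  have hM1 : (1 : ℝ) ≤ M := by exact_mod_cast hM
  have hD0 : 0 < D := by linarith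
  have hcr : (1 : ℝ) ≤ c := by exact_mod_cast hc
  have hC1r : (1 : ℝ) ≤ C1 := by exact_mod_cast hC1
  set Q : ℝ := c * D ^ m0 with hQ
  have hQ1 : 1 ≤ Q := one_le_mul_of_one_le_of_one_le hcr (one_le_pow₀ hD)
  set P : ℝ := C1 * (D * Q) ^ m1 with hP
  have hP1 : 1 ≤ P := one_le_mul_of_one_le_of_one_le hC1r
    (one_le_pow₀ (one_le_mul_of_one_le_of_one_le hD hQ1))
  have hZP : Z = P * Q * D ^ d * 4 ^ d := by
    rw [hZ, hP, hQ]
    ring
  have h4d : (1 : ℝ) ≤ 4 ^ d := one_le_pow₀ (by norm_num)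
  have hDd : (1 : ℝ) ≤ D ^ d := one_le_pow₀ hD
  have hPQZ : P * Q ≤ Z := by
    rw [hZP]
    calc P * Q = P * Q * 1 * 1 := by ring
      _ ≤ P * Q * D ^ d * 4 ^ d := by gcongr
  have hPZ : P ≤ Z := by
    refine le_trans ?_ hPQZ
    exact le_mul_of_one_le_right (by linarith) hQ1
  by_contra hcon
  push Not at hcon
  obtain ⟨hno, l, hl, hlarge⟩ := hcon
  have hl1 : 1 ≤ l := by have := mem_Ioc.1 hl; omega
  classical
  set G : ℕ → ℝ := fun l' =>
    ‖∑ k ∈ Ioc M (2 * M), gg φ N N' k l * (starRingEnd ℂ) (gg φ N N' k l')‖ with hG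
  set Bad := (Ioc L (2 * L)).filter fun l' => (M : ℝ) / D < G l' with hBad
  have hstep : ∀ l' ∈ Ioc L (2 * L), 1 ≤ l' := fun l' h => by
    have := mem_Ioc.1 h; omega
  have hGM : ∀ l' ∈ Ioc L (2 * L), G l' ≤ M := by
    intro l' hl'
    simp only [hG]
    rw [gg_corr φ N N' M l l' hl1 (hstep l' hl')]
    set s := max M (max (N / l) (N / l'))
    set t := min (2 * M) (min (N' / l) (N' / l'))
    rcases le_or_gt s t with h | h
    · refine (sum_ee_le s t h (fun k => φ (k * l) - φ (k * l'))).trans ?_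
      have h1 : (M : ℝ) ≤ s := by exact_mod_cast le_max_left M _
      have h2 : (t : ℝ) ≤ 2 * M := by exact_mod_cast min_le_left (2 * M) _
      linarith
    · rw [Ioc_eq_empty (by omega), sum_empty, norm_zero]
      exact hMr.le
  have hBadcard : (L : ℝ) ≤ D * Bad.card := by
    by_contra hlt
    push Not at hlt
    have h1 : ∑ l' ∈ Ioc L (2 * L), G l' ≤ Bad.card * M + L * (M / D) := by
      rw [← sum_filter_add_sum_filter_not (Ioc L (2 * L)) (fun l' => (M : ℝ) / D < G l')]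
      refine add_le_add ?_ ?_
      · refine (sum_le_card_nsmul _ _ (M : ℝ) fun l' hl' => ?_).trans_eq ?_
        · exact hGM l' (mem_filter.1 hl').1
        · rw [nsmul_eq_mul]
      · calc ∑ l' ∈ (Ioc L (2 * L)).filter (fun l' => ¬ (M : ℝ) / D < G l'), G l'
            ≤ ∑ l' ∈ (Ioc L (2 * L)).filter (fun l' => ¬ (M : ℝ) / D < G l'), (M / D : ℝ) :=
              sum_le_sum fun l' hl' => not_lt.1 (mem_filter.1 hl').2
          _ ≤ ∑ l' ∈ Ioc L (2 * L), (M / D : ℝ) :=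
              sum_le_sum_of_subset_of_nonneg (filter_subset _ _) fun _ _ _ => by positivity
          _ = L * (M / D) := by
              rw [sum_const, Nat.card_Ioc, nsmul_eq_mul]
              congr 2
              omega
    have h2 : (Bad.card : ℝ) * M ≤ L * (M / D) := by
      have : (Bad.card : ℝ) ≤ L / D := by rw [le_div_iff₀ hD0]; linarith
      calc (Bad.card : ℝ) * M ≤ L / D * M := by gcongr
        _ = _ := by ring
    have h3 : 2 * (M : ℝ) * L / D < L * (M / D) + L * (M / D) := by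
      refine hlarge.trans_le (h1.trans ?_)
      linarith
    have h4 : 2 * (M : ℝ) * L / D = L * (M / D) + L * (M / D) := by ring
    linarith
  set ε : ℝ := Q * D ^ d / (M : ℝ) ^ d with hε
  have hε0 : 0 ≤ ε := by positivity
  have hMd : (M : ℝ) ≤ (M : ℝ) ^ d := le_self_pow₀ hM1 (by omega)
  have happ : ∀ s ∈ Bad, ∃ q : ℕ, 1 ≤ q ∧ (q : ℝ) ≤ Q ∧
      ∃ a : ℤ, |q * (α * (s : ℝ) ^ d - α * (l : ℝ) ^ d) - a| ≤ ε := by
    intro l' hl'
    rw [hBad, mem_filter] at hl'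
    obtain ⟨hl'1, hl'2⟩ := hl'
    simp only [hG] at hl'2
    rw [gg_corr φ N N' M l l' hl1 (hstep l' hl'1)] at hl'2
    set s := max M (max (N / l) (N / l')) with hs
    set t := min (2 * M) (min (N' / l) (N' / l')) with ht
    have hst : s < t := by
      by_contra h
      rw [Ioc_eq_empty h, sum_empty, norm_zero] at hl'2
      have : 0 < (M : ℝ) / D := by positivity
      linarith
    have h1 : (M : ℝ) ≤ s := by exact_mod_cast le_max_left M _
    have h2 : (t : ℝ) ≤ 2 * M := by exact_mod_cast min_le_left (2 * M) _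
    have h3 := sum_ee_le s t hst.le (fun k => φ (k * l) - φ (k * l'))
    have h4 : (M : ℝ) / D < (t : ℝ) - s := hl'2.trans_le h3
    have h5 : ((t : ℝ) - s) ≤ D * ‖∑ k ∈ Ioc s t, ee (φ (k * l) - φ (k * l'))‖ := by
      rw [div_lt_iff₀ hD0] at hl'2
      linarith
    have hph : Ph d ((l : ℝ) ^ d * α - (l' : ℝ) ^ d * α) (fun k => φ (k * l) - φ (k * l')) :=
      Ph_sub d _ _ _ _ (Ph_scale l d α φ hφ) (Ph_scale l' d α φ hφ)
    obtain ⟨q, hq1, hqQ, a, ha⟩ := inv_Ioc hI s t hst D _ _ hD hph h5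
    refine ⟨q, hq1, hqQ, -a, ?_⟩
    have e1 : (q : ℝ) * (α * (l' : ℝ) ^ d - α * (l : ℝ) ^ d) - ((-a : ℤ) : ℝ) =
        -(q * ((l : ℝ) ^ d * α - (l' : ℝ) ^ d * α) - a) := by push_cast; ring
    rw [e1, abs_neg]
    refine ha.trans ?_
    rw [hε, ← hQ]
    have h6 : ((M : ℝ) / D) ^ d ≤ ((t : ℝ) - s) ^ d := pow_le_pow_left₀ (by positivity) h4.le d
    calc Q / ((t : ℝ) - s) ^ d ≤ Q / ((M : ℝ) / D) ^ d := by gcongr
      _ = Q * D ^ d / (M : ℝ) ^ d := by rw [div_pow]; field_simp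
  have hPε : P * ε ≤ 1 := by
    have h1 : P * (Q * D ^ d) ≤ (M : ℝ) ^ d := by
      refine le_trans ?_ hMd
      refine le_trans ?_ hZM
      rw [hZP]
      calc P * (Q * D ^ d) = P * Q * D ^ d * 1 := by ring
        _ ≤ P * Q * D ^ d * 4 ^ d := by gcongr
    rw [hε, ← mul_div_assoc, div_le_one (by positivity)]
    exact h1
  obtain ⟨q, hq1, hqQ, a, ha⟩ := hcore L D Q ε α (α * (l : ℝ) ^ d) Bad hL hD hQ1 hε0
    (filter_subset _ _) hBadcard happ (hPZ.trans hZL) hPε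
  refine absurd ha (not_le.2 ?_)
  refine lt_of_le_of_lt ?_ (hno q hq1 (hqQ.trans hPQZ) a)
  rw [← hP]
  have h1 : (N : ℝ) ^ d ≤ 4 ^ d * ((M : ℝ) ^ d * (L : ℝ) ^ d) := by
    rw [← mul_pow, ← mul_pow]
    apply pow_le_pow_left₀ hNr.le
    exact_mod_cast hNML.le
  rw [le_div_iff₀ (by positivity), hZP, hε]
  calc P * (Q * D ^ d / (M : ℝ) ^ d) / (L : ℝ) ^ d * (N : ℝ) ^ d
      ≤ P * (Q * D ^ d / (M : ℝ) ^ d) / (L : ℝ) ^ d * (4 ^ d * ((M : ℝ) ^ d * (L : ℝ) ^ d)) := by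
        gcongr
    _ = P * Q * D ^ d * 4 ^ d := by field_simp

theorem harm_le (W : ℕ) : ∑ m ∈ Icc 1 W, (1 : ℝ) / m ≤ 1 + Real.log W := by
  have h := harmonic_le_one_add_log W
  rw [harmonic_eq_sum_Icc] at h
  push_cast at h
  simpa [one_div] using h

theorem typeI (d : ℕ) (hd : 1 ≤ d) : ∃ C m : ℕ, 1 ≤ C ∧ ∀ (N N' W : ℕ) (D α : ℝ) (φ : ℕ → ℝ),
    1 ≤ N → N' ≤ 2 * N → 1 ≤ W → W ≤ N → 1 ≤ D → Ph d α φ → C * D ^ m * W ≤ N →
    (∃ q : ℕ, 1 ≤ q ∧ (q : ℝ) ≤ C * D ^ m ∧ ∃ a : ℤ, |q * α - a| ≤ C * D ^ m / (N : ℝ) ^ d) ∨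
    ∃ Y : ℕ → ℝ, (∀ k, 0 ≤ Y k) ∧
      (∀ k ∈ Icc 1 W, ∀ b, b ≤ N' / k → ‖∑ l ∈ Ioc (N / k) b, ee (φ (k * l))‖ ≤ Y k) ∧
      ∑ k ∈ Icc 1 W, Y k ≤ 5 * (N / D) * (1 + Real.log W) := by
  obtain ⟨c, m0, hc, hI⟩ := IW_all d hd
  obtain ⟨C1, m1, hC1, hcore⟩ := core_inv d hd
  -- Q = c (2D)^m0, P = C1 (D Q)^m1, Z = P Q (4 P D)^d
  refine ⟨C1 * (c * 2 ^ m0) ^ m1 * (c * 2 ^ m0) * (4 * (C1 * (c * 2 ^ m0) ^ m1)) ^ d,
    (m1 + m0 * m1) + m0 + (m1 + m0 * m1 + 1) * d, ?_, ?_⟩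
  · have : 0 < C1 * (c * 2 ^ m0) ^ m1 * (c * 2 ^ m0) * (4 * (C1 * (c * 2 ^ m0) ^ m1)) ^ d := by
      positivity
    exact this
  intro N N' W D α φ hN hN' hW hWN hD hφ hZW
  push_cast at hZW ⊢
  set Z : ℝ := C1 * (c * 2 ^ m0 : ℝ) ^ m1 * (c * 2 ^ m0) * (4 * (C1 * (c * 2 ^ m0) ^ m1)) ^ d *
    D ^ ((m1 + m0 * m1) + m0 + (m1 + m0 * m1 + 1) * d) with hZ
  have hNr : (0 : ℝ) < N := by exact_mod_cast hN
  have hWr : (0 : ℝ) < W := by exact_mod_cast hW
  have hW1 : (1 : ℝ) ≤ W := by exact_mod_cast hW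
  have hWNr : (W : ℝ) ≤ N := by exact_mod_cast hWN
  have hD0 : 0 < D := by linarith
  have hcr : (1 : ℝ) ≤ c := by exact_mod_cast hc
  have hC1r : (1 : ℝ) ≤ C1 := by exact_mod_cast hC1
  set Q : ℝ := c * (2 * D) ^ m0 with hQ
  have hQ1 : 1 ≤ Q := one_le_mul_of_one_le_of_one_le hcr (one_le_pow₀ (by linarith))
  set P : ℝ := C1 * (D * Q) ^ m1 with hP
  have hP1 : 1 ≤ P := one_le_mul_of_one_le_of_one_le hC1r
    (one_le_pow₀ (one_le_mul_of_one_le_of_one_le hD hQ1))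
  have hZP : Z = P * Q * (4 * P * D) ^ d := by
    rw [hZ, hP, hQ]
    ring
  have h4PD : (1 : ℝ) ≤ (4 * P * D) ^ d := by
    apply one_le_pow₀
    nlinarith
  have hPQZ : P * Q ≤ Z := by
    rw [hZP]
    exact le_mul_of_one_le_right (by positivity) h4PD
  classical
  by_contra hcon
  rw [not_or] at hcon
  obtain ⟨hno, hY⟩ := hcon
  push Not at hno
  set bad : ℕ → Prop := fun k => ∃ b, b ≤ N' / k ∧
    (N : ℝ) / (k * D) < ‖∑ l ∈ Ioc (N / k) b, ee (φ (k * l))‖ with hbad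
  have hfac : ∀ k ∈ Icc 1 W, bad k → ∃ q : ℕ, 1 ≤ q ∧ (q : ℝ) ≤ Q ∧
      ∃ a : ℤ, |q * (α * (k : ℝ) ^ d) - a| ≤ Q * (k * D) ^ d / (N : ℝ) ^ d := by
    rintro k hk ⟨b, hb, hlarge⟩
    rw [mem_Icc] at hk
    have hk0 : (0 : ℝ) < k := by exact_mod_cast hk.1
    have hkN : (k : ℝ) ≤ N := le_trans (by exact_mod_cast hk.2) hWNr
    have hst : N / k < b := by
      by_contra h
      rw [Ioc_eq_empty h, sum_empty, norm_zero] at hlarge
      have : 0 < (N : ℝ) / (k * D) := by positivity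
      linarith
    have h3 := sum_ee_le (N / k) b hst.le (fun l => φ (k * l))
    have h4 : (N : ℝ) / (k * D) < (b : ℝ) - (N / k : ℕ) := hlarge.trans_le h3
    have h5 : (b : ℝ) - (N / k : ℕ) ≤ 2 * N / k := by
      have g1 : (b : ℝ) ≤ 2 * N / k := by
        calc (b : ℝ) ≤ (N' / k : ℕ) := by exact_mod_cast hb
          _ ≤ (N' : ℝ) / k := Nat.cast_div_le
          _ ≤ 2 * N / k := by
              gcongr
              exact_mod_cast hN'
      have g2 : (N : ℝ) / k < (N / k : ℕ) + 1 := by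
        rw [div_lt_iff₀ hk0]
        have := Nat.lt_div_mul_add (a := N) hk.1
        have h' : N < (N / k + 1) * k := by
          calc N < N / k * k + k := this
            _ = _ := by ring
        exact_mod_cast h'
      have g3 : (1 : ℝ) ≤ N / k := by rw [le_div_iff₀ hk0]; linarith
      have g4 : 2 * (N : ℝ) / k = N / k + N / k := by ring
      linarith
    have h6 : (b : ℝ) - (N / k : ℕ) ≤ (2 * D) * ‖∑ l ∈ Ioc (N / k) b, ee (φ (k * l))‖ := by
      refine h5.trans ?_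
      have : 2 * (N : ℝ) / k = 2 * D * (N / (k * D)) := by field_simp
      rw [this]
      gcongr
    have hph : Ph d ((k : ℝ) ^ d * α) (fun l => φ (k * l)) := by
      have := Ph_scale k d α φ hφ
      simpa only [mul_comm] using this
    obtain ⟨q, hq1, hqQ, a, ha⟩ := inv_Ioc hI (N / k) b hst (2 * D) _ _ (by linarith) hph h6
    refine ⟨q, hq1, hqQ, a, ?_⟩
    rw [mul_comm α]
    refine ha.trans ?_
    rw [← hQ]
    have h7 : ((N : ℝ) / (k * D)) ^ d ≤ ((b : ℝ) - (N / k : ℕ)) ^ d :=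
      pow_le_pow_left₀ (by positivity) h4.le d
    calc Q / ((b : ℝ) - (N / k : ℕ)) ^ d ≤ Q / ((N : ℝ) / (k * D)) ^ d := by gcongr
      _ = Q * (k * D) ^ d / (N : ℝ) ^ d := by rw [div_pow]; field_simp
  -- small bad values are impossible
  have hsmall : ∀ k ∈ Icc 1 W, bad k → 2 * P < k := by
    intro k hk hbk
    by_contra hle
    push Not at hle
    obtain ⟨q, hq1, hqQ, a, ha⟩ := hfac k hk hbk
    have hk1 := (mem_Icc.1 hk).1
    refine absurd ha (not_le.2 ?_)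
    have e : (q : ℝ) * (α * (k : ℝ) ^ d) - a = ((q * k ^ d : ℕ) : ℝ) * α - a := by
      push_cast; ring
    rw [e]
    refine lt_of_le_of_lt ?_ (hno (q * k ^ d) (Nat.mul_pos hq1 (pow_pos hk1 d)) ?_ a)
    · gcongr
      rw [hZP]
      calc Q * (k * D) ^ d ≤ Q * (2 * P * D) ^ d := by gcongr
        _ ≤ Q * (4 * P * D) ^ d := by gcongr; norm_num
        _ ≤ P * (Q * (4 * P * D) ^ d) := le_mul_of_one_le_left (by positivity) hP1
        _ = _ := by ring
    · push_cast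
      rw [hZP]
      calc (q : ℝ) * (k : ℝ) ^ d ≤ Q * (2 * P) ^ d := by gcongr
        _ ≤ Q * (4 * P * D) ^ d := by
            have h2P : 2 * P ≤ 4 * P * D := by nlinarith
            exact mul_le_mul_of_nonneg_left (pow_le_pow_left₀ (by positivity) h2P d) (by positivity)
        _ ≤ P * (Q * (4 * P * D) ^ d) := le_mul_of_one_le_left (by positivity) hP1
        _ = _ := by ring
  -- the dyadic count
  have hdy : ∀ i : ℕ, (((Ioc (2 ^ i) (2 * 2 ^ i)).filter fun k => k ∈ Icc 1 W ∧ bad k).card : ℝ) ≤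
      2 ^ i / D := by
    intro i
    by_contra hlt
    push Not at hlt
    set S := (Ioc (2 ^ i) (2 * 2 ^ i)).filter fun k => k ∈ Icc 1 W ∧ bad k with hS
    have hSne : S.Nonempty := by
      rw [← card_pos]
      have : (0 : ℝ) < S.card := lt_trans (by positivity) hlt
      exact_mod_cast this
    obtain ⟨k0, hk0⟩ := hSne
    rw [hS, mem_filter, mem_Ioc] at hk0
    have hPi : P ≤ ((2 ^ i : ℕ) : ℝ) := by
      have h1 := hsmall k0 hk0.2.1 hk0.2.2
      have h2 : (k0 : ℝ) ≤ ((2 * 2 ^ i : ℕ) : ℝ) := by exact_mod_cast hk0.1.2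
      push_cast at h2 ⊢
      linarith
    have hiW : ((2 ^ i : ℕ) : ℝ) ≤ W := by
      have h1 := (mem_Icc.1 hk0.2.1).2
      exact_mod_cast (by omega : 2 ^ i ≤ W)
    set ε : ℝ := Q * (2 * ((2 ^ i : ℕ) : ℝ) * D) ^ d / (N : ℝ) ^ d with hε
    have hK1 : 1 ≤ 2 ^ i := Nat.one_le_two_pow
    obtain ⟨q, hq1, hqQ, a, ha⟩ := hcore (2 ^ i) D Q ε α 0 S hK1 hD hQ1 (by positivity)
      (filter_subset _ _)
      (by
        rw [div_lt_iff₀ hD0] at hlt
        push_cast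
        linarith)
      (by
        intro s hs
        rw [hS, mem_filter, mem_Ioc] at hs
        obtain ⟨q, hq1, hqQ, a, ha⟩ := hfac s hs.2.1 hs.2.2
        refine ⟨q, hq1, hqQ, a, ?_⟩
        rw [sub_zero]
        refine ha.trans ?_
        rw [hε]
        gcongr
        exact_mod_cast hs.1.2)
      hPi
      (by
        rw [← hP, hε, ← mul_div_assoc, div_le_one (by positivity)]
        have g1 : P * (Q * (2 * ((2 ^ i : ℕ) : ℝ) * D) ^ d) ≤ Z * (W : ℝ) ^ d := by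
          rw [hZP]
          calc P * (Q * (2 * ((2 ^ i : ℕ) : ℝ) * D) ^ d) ≤ P * (Q * (2 * (W : ℝ) * D) ^ d) := by
                gcongr
            _ = P * Q * (2 * 1 * D) ^ d * (W : ℝ) ^ d := by ring
            _ ≤ P * Q * (4 * P * D) ^ d * (W : ℝ) ^ d := by gcongr; norm_num
        refine g1.trans ?_
        obtain ⟨e, rfl⟩ : ∃ e, d = e + 1 := ⟨d - 1, by omega⟩
        calc Z * (W : ℝ) ^ (e + 1) = (Z * W) * (W : ℝ) ^ e := by ring
          _ ≤ N * (N : ℝ) ^ e := by gcongr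
          _ = _ := by ring)
    refine absurd ha (not_le.2 ?_)
    refine lt_of_le_of_lt ?_ (hno q hq1 (hqQ.trans hPQZ) a)
    rw [← hP, hε]
    have e1 : P * (Q * (2 * ((2 ^ i : ℕ) : ℝ) * D) ^ d / (N : ℝ) ^ d) / (((2 ^ i : ℕ) : ℝ)) ^ d =
        P * Q * (2 * 1 * D) ^ d / (N : ℝ) ^ d := by
      have : (((2 ^ i : ℕ) : ℝ)) ≠ 0 := by positivity
      rw [mul_pow, mul_pow]
      field_simp
      ring
    rw [e1, hZP]
    gcongr
    norm_num
  -- conclusion
  apply hY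
  refine ⟨fun k => if bad k then 2 * N / k else N / (k * D), ?_, ?_, ?_⟩
  · intro k
    dsimp only
    split_ifs <;> positivity
  · intro k hk b hb
    have hk' := mem_Icc.1 hk
    have hk0 : (0 : ℝ) < k := by exact_mod_cast hk'.1
    dsimp only
    split_ifs with h
    · rcases le_or_gt (N / k) b with hst | hst
      · refine (sum_ee_le (N / k) b hst (fun l => φ (k * l))).trans ?_
        have g1 : (b : ℝ) ≤ 2 * N / k := by
          calc (b : ℝ) ≤ (N' / k : ℕ) := by exact_mod_cast hb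
            _ ≤ (N' : ℝ) / k := Nat.cast_div_le
            _ ≤ 2 * N / k := by
                gcongr
                exact_mod_cast hN'
        have : (0 : ℝ) ≤ ((N / k : ℕ) : ℝ) := Nat.cast_nonneg _
        linarith
      · rw [Ioc_eq_empty (by omega), sum_empty, norm_zero]
        positivity
    · by_contra hlt
      push Not at hlt
      exact h ⟨b, hb, hlt⟩
  · have h1 : ∑ k ∈ Icc 1 W, (if bad k then 2 * (N : ℝ) / k else N / (k * D)) ≤
        ∑ k ∈ Icc 1 W, (N / D * (1 / k) + 2 * N * (if bad k then (1 : ℝ) / k else 0)) := by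
      refine sum_le_sum fun k hk => ?_
      have hk0 : (0 : ℝ) < k := by exact_mod_cast (mem_Icc.1 hk).1
      split_ifs
      · have : 0 ≤ (N : ℝ) / D * (1 / k) := by positivity
        have e : 2 * (N : ℝ) / k = 2 * N * (1 / k) := by ring
        linarith
      · rw [mul_zero, add_zero]
        apply le_of_eq
        field_simp
    refine h1.trans ?_
    rw [sum_add_distrib, ← mul_sum, ← mul_sum]
    set J := Nat.log 2 W + 1 with hJ
    have hWJ : W < 2 ^ J := Nat.lt_pow_succ_log_self (by norm_num) _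
    have h2 : ∑ k ∈ Icc 1 W, (if bad k then (1 : ℝ) / k else 0) ≤ J / D := by
      calc ∑ k ∈ Icc 1 W, (if bad k then (1 : ℝ) / k else 0)
          = ∑ k ∈ (Icc 1 W).filter bad, (1 : ℝ) / k := by rw [sum_filter]
        _ ≤ ∑ k ∈ Ioc 1 (2 ^ J), (if k ∈ Icc 1 W ∧ bad k then (1 : ℝ) / k else 0) := by
            rw [← sum_filter]
            apply sum_le_sum_of_subset_of_nonneg
            · intro k hk
              rw [mem_filter] at hk
              have h3 := hsmall k hk.1 hk.2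
              have h4 : (1 : ℝ) < k := by linarith
              have h5 : 1 < k := by exact_mod_cast h4
              rw [mem_filter, mem_Ioc]
              have := (mem_Icc.1 hk.1).2
              exact ⟨⟨h5, by omega⟩, hk⟩
            · intro k _ _
              positivity
        _ = ∑ i ∈ range J, ∑ k ∈ Ioc (2 ^ i) (2 * 2 ^ i),
              (if k ∈ Icc 1 W ∧ bad k then (1 : ℝ) / k else 0) := dyadic_sum _ _
        _ ≤ ∑ i ∈ range J, 1 / D := by
            refine sum_le_sum fun i _ => ?_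
            rw [← sum_filter]
            have h3 := hdy i
            calc ∑ k ∈ (Ioc (2 ^ i) (2 * 2 ^ i)).filter (fun k => k ∈ Icc 1 W ∧ bad k), (1 : ℝ) / k
                ≤ ∑ k ∈ (Ioc (2 ^ i) (2 * 2 ^ i)).filter (fun k => k ∈ Icc 1 W ∧ bad k),
                    (1 : ℝ) / 2 ^ i := by
                  refine sum_le_sum fun k hk => ?_
                  have h4 := (mem_Ioc.1 (mem_filter.1 hk).1).1
                  have h5 : (2 : ℝ) ^ i ≤ k := by exact_mod_cast h4.le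
                  gcongr
              _ = ((Ioc (2 ^ i) (2 * 2 ^ i)).filter fun k => k ∈ Icc 1 W ∧ bad k).card * (1 / 2 ^ i) := by
                  rw [sum_const, nsmul_eq_mul]
              _ ≤ 2 ^ i / D * (1 / 2 ^ i) := by gcongr
              _ = 1 / D := by field_simp
        _ = J / D := by rw [sum_const, card_range, nsmul_eq_mul]; ring
    have h3 : (J : ℝ) ≤ 1 + 2 * Real.log W := by
      rw [hJ]
      push_cast
      have h4 : (2 : ℝ) ^ Nat.log 2 W ≤ W := by exact_mod_cast Nat.pow_log_le_self 2 (by omega : W ≠ 0)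
      have h6 := Real.log_le_log (by positivity) h4
      rw [Real.log_pow] at h6
      have := Real.log_two_gt_d9
      have h7 : (0 : ℝ) ≤ Nat.log 2 W := Nat.cast_nonneg _
      nlinarith
    have h4 := harm_le W
    have hND : 0 ≤ (N : ℝ) / D := by positivity
    calc (N : ℝ) / D * ∑ k ∈ Icc 1 W, (1 : ℝ) / k +
          2 * N * ∑ k ∈ Icc 1 W, (if bad k then (1 : ℝ) / k else 0)
        ≤ (N : ℝ) / D * (1 + Real.log W) + 2 * N * ((1 + 2 * Real.log W) / D) := by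
          gcongr
          exact h2.trans (by gcongr)
      _ = (N : ℝ) / D * (3 + 5 * Real.log W) := by ring
      _ ≤ (N : ℝ) / D * (5 * (1 + Real.log W)) := by
          gcongr
          linarith
      _ = _ := by ring

end Q257.MD
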