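import Pool.Agent.Q257.MD.Mean
import Pool.Agent.H514R3.Herg

/-!
Correlations, classes and the spectral measure.
-/

set_option autoImplicit false

namespace Q257.MD

open Filter Topology BoundedContinuousFunction MeasureTheory Finset
open Pool.Agent.H514R3 (PD lag herglotz)

/-- correlation -/
noncomputable def cor (L : B → ℝ) (f : B) (k : ℤ) : ℝ := L (f * sh k f)

theorem cor_shift {L : B → ℝ} (h : IsMean L) (f g : B) (j k : ℤ) :
    L (sh j f * sh k g) = L (f * sh (k - j) g) := by
  rw [← h.inv_int j (f * sh (k - j) g), sh_mul, sh_sh]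
  congr 3; ring

theorem cor_neg {L : B → ℝ} (h : IsMean L) (f : B) (k : ℤ) : cor L f (-k) = cor L f k := by
  unfold cor
  rw [← h.inv_int k (f * sh (-k) f), sh_mul, sh_sh, add_neg_cancel, sh_zero, mul_comm]

theorem cor_natAbs {L : B → ℝ} (h : IsMean L) (f : B) (k : ℤ) :
    cor L f (k.natAbs : ℤ) = cor L f k := by
  rcases Int.natAbs_eq k with h1 | h1
  · rw [← h1]
  · conv_rhs => rw [h1]
    rw [cor_neg h]

theorem sq_expand {L : B → ℝ} (h : IsMean L) (f : B) {ι : Type*} (S : Finset ι) (w : ι → ℝ)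
    (k : ι → ℤ) : L ((∑ t ∈ S, w t • sh (k t) f) * (∑ t ∈ S, w t • sh (k t) f)) =
      ∑ s ∈ S, ∑ t ∈ S, w s * w t * cor L f (k t - k s) := by
  rw [Finset.sum_mul_sum, h.isState.sum]
  refine Finset.sum_congr rfl fun s _ => ?_
  rw [h.isState.sum]
  refine Finset.sum_congr rfl fun t _ => ?_
  rw [smul_mul_smul_comm, h.smul, cor_shift h]
  rfl

theorem pd_cor {L : B → ℝ} (h : IsMean L) (f : B) : PD (fun n : ℕ => cor L f n) := by
  intro N a
  have h1 := sq_expand h f (range N) a (fun j : ℕ => (j : ℤ))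
  have h2 : 0 ≤ L ((∑ t ∈ range N, a t • sh (t : ℤ) f) * (∑ t ∈ range N, a t • sh (t : ℤ) f)) :=
    h.nonneg _ fun x => by
      simp only [BoundedContinuousFunction.coe_mul, Pi.mul_apply]; exact mul_self_nonneg _
  rw [h1] at h2
  refine le_of_le_of_eq h2 ?_
  refine Finset.sum_congr rfl fun j _ => Finset.sum_congr rfl fun k _ => ?_
  show a j * a k * cor L f (k - j) = a j * a k * cor L f ((((j : ℤ) - k).natAbs : ℕ) : ℤ)
  rw [cor_natAbs h, ← cor_neg h f ((j : ℤ) - k)]
  congr 2; ring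

/-- the spectral measure of a bounded function -/
theorem exists_spec {L : B → ℝ} (h : IsMean L) (f : B) : ∃ σ : Measure ℝ, IsFiniteMeasure σ ∧
    ∀ k : ℤ, cor L f k = ∫ x, Real.cos (k * x) ∂σ := by
  obtain ⟨σ, h1, _, h3⟩ := herglotz _ (pd_cor h f)
  refine ⟨σ, h1, fun k => ?_⟩
  rw [← cor_natAbs h, h3 k.natAbs]
  refine integral_congr_ae (Eventually.of_forall fun x => ?_)
  rcases Int.natAbs_eq k with h1 | h1
  · have : ((k.natAbs : ℕ) : ℝ) = (k : ℝ) := by
      have := congrArg (fun z : ℤ => (z : ℝ)) h1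
      simpa using this.symm
    simp only [this]
  · have : ((k.natAbs : ℕ) : ℝ) = -(k : ℝ) := by
      have := congrArg (fun z : ℤ => (z : ℝ)) h1
      simp only [Int.cast_neg, Int.cast_natCast] at this
      linarith
    simp only [this, neg_mul, Real.cos_neg]

/-- the trigonometric sum of a family of weights -/
noncomputable def trig {ι : Type*} (S : Finset ι) (w : ι → ℝ) (k : ι → ℤ) (x : ℝ) : ℂ :=
  ∑ t ∈ S, (w t : ℂ) * Complex.exp ((k t * x : ℝ) * Complex.I)

theorem trig_normSq {ι : Type*} (S : Finset ι) (w : ι → ℝ) (k : ι → ℤ) (x : ℝ) :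
    ‖trig S w k x‖ ^ 2 = ∑ s ∈ S, ∑ t ∈ S, w s * w t * Real.cos ((k t - k s : ℤ) * x) := by
  have h1 : ‖trig S w k x‖ ^ 2 = (trig S w k x).re ^ 2 + (trig S w k x).im ^ 2 := by
    rw [← Complex.normSq_eq_norm_sq, Complex.normSq_apply]; ring
  have h2 : (trig S w k x).re = ∑ t ∈ S, w t * Real.cos (k t * x) := by
    unfold trig
    rw [Complex.re_sum]
    refine Finset.sum_congr rfl fun t _ => ?_
    rw [Complex.re_ofReal_mul, Complex.exp_ofReal_mul_I_re]
  have h3 : (trig S w k x).im = ∑ t ∈ S, w t * Real.sin (k t * x) := by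
    unfold trig
    rw [Complex.im_sum]
    refine Finset.sum_congr rfl fun t _ => ?_
    rw [Complex.im_ofReal_mul, Complex.exp_ofReal_mul_I_im]
  rw [h1, h2, h3, sq, sq, Finset.sum_mul_sum, Finset.sum_mul_sum, ← Finset.sum_add_distrib]
  refine Finset.sum_congr rfl fun s _ => ?_
  rw [← Finset.sum_add_distrib]
  refine Finset.sum_congr rfl fun t _ => ?_
  have : ((k t - k s : ℤ) : ℝ) * x = k t * x - k s * x := by push_cast; ring
  rw [this, Real.cos_sub]
  ring

theorem trig_continuous {ι : Type*} (S : Finset ι) (w : ι → ℝ) (k : ι → ℤ) :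
    Continuous (trig S w k) := by
  unfold trig
  fun_prop

theorem trig_norm_le {ι : Type*} (S : Finset ι) (w : ι → ℝ) (k : ι → ℤ) (hw : ∀ t ∈ S, 0 ≤ w t)
    (hs : ∑ t ∈ S, w t = 1) (x : ℝ) : ‖trig S w k x‖ ≤ 1 := by
  unfold trig
  refine (norm_sum_le _ _).trans ?_
  rw [← hs]
  refine Finset.sum_le_sum fun t ht => ?_
  rw [norm_mul, Complex.norm_exp_ofReal_mul_I, mul_one, Complex.norm_real, Real.norm_eq_abs,
    abs_of_nonneg (hw t ht)]

theorem sq_eq_integral {L : B → ℝ} (h : IsMean L) (f : B) (σ : Measure ℝ) [IsFiniteMeasure σ]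
    (hσ : ∀ k : ℤ, cor L f k = ∫ x, Real.cos (k * x) ∂σ) {ι : Type*} (S : Finset ι) (w : ι → ℝ)
    (k : ι → ℤ) : L ((∑ t ∈ S, w t • sh (k t) f) * (∑ t ∈ S, w t • sh (k t) f)) =
      ∫ x, ‖trig S w k x‖ ^ 2 ∂σ := by
  rw [sq_expand h]
  simp_rw [trig_normSq]
  have hint : ∀ s t : ι, Integrable (fun x => w s * w t * Real.cos ((k t - k s : ℤ) * x)) σ := by
    intro s t
    refine Integrable.of_bound (C := |w s * w t|) (by fun_prop) (Eventually.of_forall fun x => ?_)
    rw [Real.norm_eq_abs, abs_mul]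
    exact mul_le_of_le_one_right (abs_nonneg _) (Real.abs_cos_le_one _)
  rw [integral_finsetSum _ fun s _ => integrable_finsetSum _ fun t _ => hint s t]
  refine Finset.sum_congr rfl fun s _ => ?_
  rw [integral_finsetSum _ fun t _ => hint s t]
  refine Finset.sum_congr rfl fun t _ => ?_
  rw [integral_const_mul, hσ]

/-- residue class indicator -/
noncomputable def cls (q : ℕ) (s : ℤ) : B :=
  mkB (fun x => if (q : ℤ) ∣ x - s then 1 else 0) 1 (fun x => by split_ifs <;> simp)

@[simp] theorem cls_apply (q : ℕ) (s x : ℤ) : cls q s x = if (q : ℤ) ∣ x - s then 1 else 0 := rfl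

/-- averages along the multiples of `q` -/
noncomputable def AQ (q N : ℕ) (f : B) : B :=
  (1 / (N : ℝ)) • ∑ n ∈ Finset.range N, sh ((q : ℤ) * n) f

theorem AQ_apply (q N : ℕ) (f : B) (x : ℤ) :
    AQ q N f x = (1 / (N : ℝ)) * ∑ n ∈ Finset.range N, f (x + q * n) := by
  unfold AQ
  simp [BoundedContinuousFunction.sum_apply]

theorem sum_mult (q N : ℕ) (hq : 0 < q) (g : ℕ → ℝ) :
    ∑ n ∈ range (q * N), (if q ∣ n then g n else 0) = ∑ n ∈ range N, g (q * n) := by
  induction N with
  | zero => simp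
  | succ N ih =>
    rw [Nat.mul_succ, Finset.sum_range_add, ih, Finset.sum_range_succ]
    congr 1
    rw [Finset.sum_eq_single 0]
    · simp
    · intro b hb hb0
      rw [if_neg]
      rw [Nat.dvd_add_right (dvd_mul_right q N)]
      intro hd
      exact absurd (Nat.le_of_dvd (Nat.pos_of_ne_zero hb0) hd) (not_le.2 (mem_range.1 hb))
    · intro h; exact absurd (mem_range.2 hq) h

theorem class_decomp (q : ℕ) (hq : 0 < q) (N : ℕ) (hN : 0 < N) (f : B) :
    f * AQ q N f = ∑ s ∈ range q, (q : ℝ) • ((cls q s * f) * AV (q * N) (cls q s * f)) := by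
  ext x
  rw [BoundedContinuousFunction.sum_apply]
  have hqi : (0 : ℤ) < q := by exact_mod_cast hq
  set s0 : ℕ := (x % q).toNat with hs0
  have hs0' : (s0 : ℤ) = x % q := Int.toNat_of_nonneg (Int.emod_nonneg _ hqi.ne')
  have hs0lt : s0 < q := by
    have := Int.emod_lt_of_pos x hqi
    omega
  rw [Finset.sum_eq_single s0]
  · simp only [BoundedContinuousFunction.coe_mul, Pi.mul_apply, BoundedContinuousFunction.coe_smul,
      smul_eq_mul, cls_apply, AV_apply, AQ_apply]
    have hd : (q : ℤ) ∣ x - s0 := by rw [hs0']; exact Int.dvd_self_sub_emod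
    rw [if_pos hd, one_mul]
    have h1 : ∀ n : ℕ, (if (q : ℤ) ∣ x + n - s0 then (1 : ℝ) else 0) * f (x + n) =
        if q ∣ n then f (x + n) else 0 := by
      intro n
      have : ((q : ℤ) ∣ x + n - s0) ↔ q ∣ n := by
        rw [show x + (n : ℤ) - s0 = (x - s0) + n by ring, Int.dvd_add_right hd]
        exact Int.natCast_dvd_natCast
      simp only [this]
      split_ifs <;> simp
    simp only [h1]
    rw [sum_mult q N hq (fun n => f (x + n))]
    have hqr : (q : ℝ) ≠ 0 := by positivity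
    have hNr : (N : ℝ) ≠ 0 := by positivity
    push_cast
    field_simp
  · intro b hb hbs
    simp only [BoundedContinuousFunction.coe_mul, Pi.mul_apply, BoundedContinuousFunction.coe_smul,
      smul_eq_mul, cls_apply]
    rw [if_neg]
    · simp
    · intro hd
      apply hbs
      have h1 : (b : ℤ) % q = x % q := Int.modEq_iff_dvd.2 hd
      have h2 : (b : ℤ) % q = b := Int.emod_eq_of_lt (by positivity)
        (by exact_mod_cast mem_range.1 hb)
      omega
  · intro h; exact absurd (mem_range.2 hs0lt) h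

end Q257.MD
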