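import Pool.Agent.Q257.MD.Main

/-!
From a set of integers to a periodic set.
-/

set_option autoImplicit false

namespace Q257.MD

open Filter Topology BoundedContinuousFunction MeasureTheory Finset

theorem window {L : B → ℝ} (hM : IsMean L) (g : B) (c : ℝ) (hc : c < L g) (T : ℕ) (hT : 0 < T) :
    ∃ x : ℤ, c * T ≤ ∑ n ∈ range T, g (x + n) := by
  by_contra hcon
  push Not at hcon
  have h1 : L (AV T g) ≤ c := by
    refine hM.isState.le_of fun x => ?_
    rw [AV_apply]
    have hT' : (0 : ℝ) < T := by exact_mod_cast hT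
    rw [one_div, inv_mul_le_iff₀ hT']
    linarith [hcon x]
  rw [hM.L_AV T hT] at h1
  linarith

open Classical in
/-- the indicator of a set of natural numbers, as a function on `ℤ` -/
noncomputable def indN (A : Set ℕ) : B :=
  mkB (fun x => if ∃ a ∈ A, (a : ℤ) = x then 1 else 0) 1 (fun x => by split_ifs <;> simp)

theorem indN_apply_of_mem {A : Set ℕ} {a : ℕ} (ha : a ∈ A) : indN A a = 1 := by
  simp only [indN, mkB_apply]
  rw [if_pos ⟨a, ha, rfl⟩]

theorem indN_ne_zero {A : Set ℕ} {x : ℤ} (h : indN A x ≠ 0) : ∃ a ∈ A, (a : ℤ) = x := by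
  by_contra hcon
  apply h
  simp only [indN, mkB_apply]
  rw [if_neg hcon]

theorem indN_zero_or_one (A : Set ℕ) (x : ℤ) : indN A x = 0 ∨ indN A x = 1 := by
  simp only [indN, mkB_apply]
  split_ifs
  · right; rfl
  · left; rfl

open Classical in
/-- counting function -/
noncomputable def cnt (A : Set ℕ) (N : ℕ) : ℕ := ((Finset.Icc 1 N).filter fun n => n ∈ A).card

theorem exists_mean (A : Set ℕ) (c : ℝ) (h : ∃ᶠ N : ℕ in atTop, c ≤ (cnt A N : ℝ) / N) :
    ∃ L : B → ℝ, IsMean L ∧ c ≤ L (indN A) := by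
  classical
  -- the averages
  let Lf : ℕ → B → ℝ := fun N f => (1 / (N : ℝ)) * ∑ n ∈ Finset.Icc 1 N, f n
  have hstate : ∀ N : ℕ, IsState (Lf (N + 1)) := by
    intro N
    have hN : (0 : ℝ) < ((N + 1 : ℕ) : ℝ) := by positivity
    refine ⟨fun f g => ?_, fun r f => ?_, fun f hf => ?_, ?_⟩
    · simp only [Lf, BoundedContinuousFunction.coe_add, Pi.add_apply, Finset.sum_add_distrib]
      ring
    · simp only [Lf, BoundedContinuousFunction.coe_smul, smul_eq_mul, ← Finset.mul_sum]
      ring
    · simp only [Lf]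
      exact mul_nonneg (by positivity) (Finset.sum_nonneg fun n _ => hf _)
    · simp only [Lf, BoundedContinuousFunction.coe_one, Pi.one_apply, Finset.sum_const,
        Nat.card_Icc, nsmul_eq_mul, mul_one, Nat.add_sub_cancel]
      field_simp
  set F : Filter ℕ := atTop ⊓ 𝓟 {N | c ≤ (cnt A N : ℝ) / N} with hF
  have : F.NeBot := by
    rw [hF, ← frequently_mem_iff_neBot]
    exact h
  set U : Ultrafilter ℕ := Ultrafilter.of F with hU
  have hUF : (U : Filter ℕ) ≤ F := Ultrafilter.of_le F
  have hUtop : (U : Filter ℕ) ≤ atTop := hUF.trans inf_le_left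
  obtain ⟨L0, h1, h2⟩ := exists_limit (U.map (fun n => n - 1)) (fun N => Lf (N + 1)) hstate
  have h3 : ∀ g, Tendsto (fun N => Lf N g) U (𝓝 (L0 g)) := by
    intro g
    have h3 := h2 g
    rw [Ultrafilter.coe_map, tendsto_map'_iff] at h3
    refine h3.congr' ?_
    have : ∀ᶠ n : ℕ in U, 1 ≤ n := hUtop (eventually_ge_atTop 1)
    filter_upwards [this] with n hn
    simp only [Function.comp]
    rw [Nat.sub_add_cancel hn]
  refine ⟨L0, ⟨h1.add, h1.smul, h1.nonneg, h1.one, fun f => ?_⟩, ?_⟩
  · have h4 : Tendsto (fun N : ℕ => Lf N (sh 1 f) - Lf N f) U (𝓝 (L0 (sh 1 f) - L0 f)) :=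
      (h3 _).sub (h3 _)
    have h5 : Tendsto (fun N : ℕ => Lf N (sh 1 f) - Lf N f) U (𝓝 0) := by
      refine squeeze_zero_norm (a := fun N : ℕ => (2 * ‖f‖) / N) (fun N => ?_)
        ((tendsto_const_div_atTop_nhds_zero_nat _).mono_left hUtop)
      rcases Nat.eq_zero_or_pos N with hN | hN
      · subst hN; simp [Lf]
      · have hN' : (0 : ℝ) < N := by exact_mod_cast hN
        have e1 : Lf N (sh 1 f) - Lf N f = (1 / (N : ℝ)) * (f (N + 1) - f 1) := by
          simp only [Lf, sh_apply]
          rw [← mul_sub]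
          congr 1
          have : ∀ M : ℕ, ∑ n ∈ Finset.Icc 1 M, f ((n : ℤ) + 1) - ∑ n ∈ Finset.Icc 1 M, f n
              = f (M + 1) - f 1 := by
            intro M
            induction M with
            | zero => simp
            | succ M ih =>
              rw [Finset.sum_Icc_succ_top (by omega), Finset.sum_Icc_succ_top (by omega)]
              push_cast
              linarith
          exact this N
        rw [e1, norm_mul, Real.norm_eq_abs, Real.norm_eq_abs, abs_of_pos (by positivity), one_div,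
          inv_mul_le_iff₀ hN']
        have e2 : (N : ℝ) * (2 * ‖f‖ / N) = 2 * ‖f‖ := by field_simp
        rw [e2]
        have e3 := abs_sub (f ((N : ℤ) + 1)) (f 1)
        have e4 : |f ((N : ℤ) + 1)| ≤ ‖f‖ := f.norm_coe_le_norm _
        have e5 : |f 1| ≤ ‖f‖ := f.norm_coe_le_norm _
        linarith
    have := tendsto_nhds_unique h4 h5
    linarith
  · refine ge_of_tendsto (h3 (indN A)) ?_
    have h6 : ∀ᶠ N in (U : Filter ℕ), N ∈ {N : ℕ | c ≤ (cnt A N : ℝ) / N} :=
      hUF (mem_inf_of_right (mem_principal_self _))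
    filter_upwards [h6] with N hN
    refine le_trans hN (le_of_eq ?_)
    simp only [Lf, cnt]
    rw [Finset.card_filter, div_eq_inv_mul, one_div]
    congr 1
    push_cast
    refine Finset.sum_congr rfl fun n _ => ?_
    by_cases hn : n ∈ A
    · rw [if_pos hn, indN_apply_of_mem hn]
    · rw [if_neg hn]
      rcases indN_zero_or_one A n with h0 | h0
      · exact h0.symm
      · exfalso
        obtain ⟨a, ha, ha'⟩ := indN_ne_zero (A := A) (x := n) (by rw [h0]; norm_num)
        have : a = n := by exact_mod_cast ha'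
        exact hn (this ▸ ha)

/-- admissible families: apart from bounded values, all parameters are liftable -/
def Adm (T : Set ℤ) (h : ℤ → ℤ) : Prop :=
  ∀ m : ℕ, 0 < m → ∃ D : ℕ, ∀ t ∈ T, h t ≠ 0 → (|h t| ≤ D ∨ Liftable T h m t)

theorem periodic_set (T : Set ℤ) (h : ℤ → ℤ) (hadm : Adm T h)
    (hmod : ∀ (M : ℕ) (b t : ℤ), (M : ℤ) ∣ t - b → (M : ℤ) ∣ h t - h b)
    (A : Set ℕ) (hA : ∀ a ∈ A, ∀ b ∈ A, ∀ t ∈ T, (a : ℤ) - b = h t → h t = 0)
    (c ε : ℝ) (hε : 0 < ε) (hfr : ∃ᶠ N : ℕ in atTop, c ≤ (cnt A N : ℝ) / N) :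
    ∃ (m : ℕ) (_ : 0 < m) (S : Finset (ZMod m)), (c - ε) * m ≤ S.card ∧
      ∀ a ∈ S, ∀ b ∈ S, ∀ t ∈ T, h t ≠ 0 → a - b ≠ (h t : ZMod m) := by
  classical
  obtain ⟨L1, hL1, hc1⟩ := exists_mean A c hfr
  obtain ⟨L, hLm, hLa, herg⟩ := exists_ergodic (indN A) L1 hL1
  have hL : IsErg L := ⟨hLm, herg⟩
  set f : B := indN A with hf
  have hf01 : ∀ x, f x = 0 ∨ f x = 1 := indN_zero_or_one A
  have hf0 : ∀ x, 0 ≤ f x := fun x => by rcases hf01 x with h | h <;> rw [h] <;> norm_num
  have hf1 : ∀ x, f x ≤ 1 := fun x => by rcases hf01 x with h | h <;> rw [h] <;> norm_num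
  have hav : ∀ t ∈ T, h t ≠ 0 → ∀ x, f x * f (x + h t) = 0 := by
    intro t ht hht x
    by_contra hcon
    obtain ⟨b, hb, hb'⟩ := indN_ne_zero (left_ne_zero_of_mul hcon)
    obtain ⟨a, ha, ha'⟩ := indN_ne_zero (right_ne_zero_of_mul hcon)
    exact hht (hA a ha b hb t ht (by rw [ha', hb']; ring))
  obtain ⟨m, R, hm, hRper, hRL, hRfree⟩ :=
    conflict_free hL f hf0 hf1 T h hav hmod (ε / 12) (by positivity)
  set g : B := f * mkB (fun x => if R x then 1 else 0) 1 (fun x => by split_ifs <;> simp) with hg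
  obtain ⟨D, hD⟩ := hadm m hm
  have hgL : c - ε / 2 < L g := by linarith
  -- the period
  obtain ⟨k, hk⟩ : ∃ k : ℕ, 2 * (D : ℝ) / ε + 1 ≤ k := exists_nat_ge _
  have hk1 : 1 ≤ k := by
    have : (1 : ℝ) ≤ k := le_trans (by have : 0 ≤ 2 * (D : ℝ) / ε := by positivity
                                       linarith) hk
    exact_mod_cast this
  set P : ℕ := m * k with hP
  have hP0 : 0 < P := Nat.mul_pos hm hk1
  have hPr : (0 : ℝ) < P := by exact_mod_cast hP0
  have : NeZero P := ⟨hP0.ne'⟩
  have hkP : (k : ℝ) ≤ P := by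
    rw [hP]; push_cast
    have : (1 : ℝ) ≤ m := by exact_mod_cast hm
    nlinarith
  have hDP : (D : ℝ) ≤ ε / 2 * P := by
    have h1 : 2 * (D : ℝ) / ε ≤ P := by linarith
    rw [div_le_iff₀ hε] at h1
    linarith
  obtain ⟨x, hx⟩ := window hLm g (c - ε / 2) hgL P hP0
  set W : Finset ℕ := (range (P - D)).filter fun n => g (x + n) ≠ 0 with hW
  let φ : ℕ → ZMod P := fun n => ((x + n : ℤ) : ZMod P)
  have hφinj : Set.InjOn φ W := by
    intro a ha b hb hab
    have ha' := (Finset.mem_filter.1 ha).1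
    have hb' := (Finset.mem_filter.1 hb).1
    rw [mem_range] at ha' hb'
    have h1 := (ZMod.intCast_eq_intCast_iff_dvd_sub _ _ _).1 hab
    obtain ⟨j, hj⟩ := h1
    have h2 : (b : ℤ) - a = P * j := by linarith
    have h3 : j = 0 := by
      by_contra hj0
      have h4 : (1 : ℤ) ≤ |j| := Int.one_le_abs hj0
      have h5 : |(b : ℤ) - a| = P * |j| := by rw [h2, abs_mul, abs_of_nonneg (by positivity)]
      have h6 : |(b : ℤ) - a| < P := by rw [abs_lt]; omega
      nlinarith
    rw [h3, mul_zero] at h2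
    omega
  have hgmem : ∀ n ∈ W, (∃ a ∈ A, (a : ℤ) = x + n) ∧ R (x + n) := by
    intro n hn
    have h1 := (Finset.mem_filter.1 hn).2
    simp only [hg, BoundedContinuousFunction.coe_mul, Pi.mul_apply, mkB_apply] at h1
    refine ⟨indN_ne_zero (left_ne_zero_of_mul h1), ?_⟩
    by_contra hcon
    apply right_ne_zero_of_mul h1
    rw [if_neg hcon]
  refine ⟨P, hP0, W.image φ, ?_, ?_⟩
  · rw [Finset.card_image_of_injOn hφinj]
    have hg1 : ∀ y, g y ≤ 1 := by
      intro y
      simp only [hg, BoundedContinuousFunction.coe_mul, Pi.mul_apply, mkB_apply]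
      split_ifs
      · rw [mul_one]; exact hf1 y
      · rw [mul_zero]; norm_num
    have h1 : ∑ n ∈ range P, g (x + n) ≤ W.card + D := by
      have h2 : ∀ n ∈ range P, g (x + n) ≤ (if n ∈ W then (1 : ℝ) else 0) +
          (if P - D ≤ n then 1 else 0) := by
        intro n hn
        by_cases h3 : P - D ≤ n
        · rw [if_pos h3]
          have : (0 : ℝ) ≤ if n ∈ W then 1 else 0 := by split_ifs <;> norm_num
          linarith [hg1 (x + n)]
        · rw [if_neg h3, add_zero]
          by_cases h4 : g (x + n) = 0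
          · rw [h4]; split_ifs <;> norm_num
          · rw [if_pos (Finset.mem_filter.2 ⟨mem_range.2 (by omega), h4⟩)]
            exact hg1 _
      refine (Finset.sum_le_sum h2).trans ?_
      rw [Finset.sum_add_distrib, Finset.sum_boole, Finset.sum_boole]
      have h5 : ((range P).filter fun n => n ∈ W).card ≤ W.card :=
        Finset.card_le_card fun n hn => (Finset.mem_filter.1 hn).2
      have h6 : ((range P).filter fun n => P - D ≤ n).card ≤ D := by
        have : (range P).filter (fun n => P - D ≤ n) ⊆ Finset.Ico (P - D) P := by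
          intro n hn
          rw [Finset.mem_filter, mem_range] at hn
          rw [Finset.mem_Ico]; exact ⟨hn.2, hn.1⟩
        refine (Finset.card_le_card this).trans ?_
        rw [Nat.card_Ico]; omega
      have h5' : (((range P).filter fun n => n ∈ W).card : ℝ) ≤ W.card := by exact_mod_cast h5
      have h6' : (((range P).filter fun n => P - D ≤ n).card : ℝ) ≤ D := by exact_mod_cast h6
      linarith
    have h7 : (c - ε) * P = (c - ε / 2) * P - ε / 2 * P := by ring
    rw [h7]
    linarith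
  · intro a ha b hb t ht hht hab
    obtain ⟨n1, hn1, rfl⟩ := Finset.mem_image.1 ha
    obtain ⟨n2, hn2, rfl⟩ := Finset.mem_image.1 hb
    obtain ⟨⟨a', ha', ea⟩, hR1⟩ := hgmem n1 hn1
    obtain ⟨⟨b', hb', eb⟩, hR2⟩ := hgmem n2 hn2
    have hr1 := mem_range.1 (Finset.mem_filter.1 hn1).1
    have hr2 := mem_range.1 (Finset.mem_filter.1 hn2).1
    have h1 : (((x + n1) - (x + n2) : ℤ) : ZMod P) = ((h t : ℤ) : ZMod P) := by
      push_cast
      have := hab
      simp only [φ] at this
      push_cast at this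
      exact this
    rw [ZMod.intCast_eq_intCast_iff_dvd_sub] at h1
    rcases hD t ht hht with h2 | h2
    · obtain ⟨j, hj⟩ := h1
      have h3 : j = 0 := by
        by_contra hj0
        have h4 : (1 : ℤ) ≤ |j| := Int.one_le_abs hj0
        have h5 : |h t - ((x + n1) - (x + n2))| = P * |j| := by
          rw [hj, abs_mul, abs_of_nonneg (by positivity)]
        have h6 : |h t - ((x + n1) - (x + n2))| < P := by
          have := abs_le.1 h2
          rw [abs_lt]; omega
        nlinarith
      rw [h3, mul_zero] at hj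
      apply hht
      refine hA a' ha' b' hb' t ht ?_
      rw [ea, eb]; linarith
    · refine hRfree (x + n2) t hR2 h2 ?_
      refine (hRper _ _ ?_).1 hR1
      have h3 : (m : ℤ) ∣ h t - ((x + n1) - (x + n2)) :=
        dvd_trans (by rw [hP]; push_cast; exact dvd_mul_right _ _) h1
      rw [show (x + (n1 : ℤ)) - (x + n2 + h t) = -(h t - ((x + n1) - (x + n2))) by ring]
      exact (dvd_neg).2 h3

end Q257.MD
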